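import Pool.Agent.H27.GR.RDefs

/-!
# Resolution of bounded depth: definition
-/

namespace Pool.Agent.H27.GR

/-- A resolution refutation of `F` of depth at most `d`: a sequence of clauses with the empty clause
among them, in which every clause contains a clause of `F`, or it contains the resolvent of two
earlier clauses `line j` and `line k` on some variable `v`, of smaller height; the empty clause has
height at most `d`. So every path from the empty clause to the clauses of `F` has at most `d`
resolution steps. -/
structure DepthRefutation {V : Type*} [DecidableEq V] (F : Finset (Finset (V × Bool))) (d : ℕ) where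
  /-- the number of clauses -/
  size : ℕ
  /-- the clauses -/
  line : Fin size → Finset (V × Bool)
  /-- the heights of the clauses -/
  height : Fin size → ℕ
  step : ∀ i, (∃ C ∈ F, C ⊆ line i) ∨ ∃ j < i, ∃ k < i, ∃ v, (v, true) ∈ line j ∧
    (v, false) ∈ line k ∧ (line j).erase (v, true) ∪ (line k).erase (v, false) ⊆ line i ∧
    height j < height i ∧ height k < height i
  root : ∃ i, line i = ∅ ∧ height i ≤ d

end Pool.Agent.H27.GR
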