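import Mathlib

/-!
# The numbers

PROOF. c = 544/355 > 1.53: 1.53 * (1 + d) = c with d > 0. Choose eta in (0, 1/2) with
c ^ (2 eta) * ((1 + eta) * eta ^ (-eta)) ^ 2 < (1 + d) ^ (1/2) (all factors tend to 1 as eta -> 0:
eta log eta -> 0, Real.tendsto.. / continuity), eps = eta / 4. Given p choose b with p / b <= eta / 4,
1 / b <= 1/4, and (b + 2) ^ (3 / b) < (1 + d) ^ (1/4) (log (b+2) / b -> 0). For n >= n0: M = n / b,
n >= b^2 + .. . Then p * M <= eta n / 4, ceil(eps M) * (b + 1) <= (eps M + 1) (b + 1) <= eta n / 2 for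
large n, so e <= eta n. The number of subsets of size <= e of a set with at most n elements is at most
(1 + x) ^ n * x ^ (-e) for x = eta in (0, 1]. Multiply.
-/

namespace Pool.Agent.H27.GR

open Finset

/-- Number of small subsets. -/
theorem card_small {K : Type*} [Fintype K] [DecidableEq K] (e : ℕ) (x : ℝ) (hx : 0 < x)
    (hx1 : x ≤ 1) :
    ((univ.filter fun Θ : Finset K => Θ.card ≤ e).card : ℝ) * x ^ e ≤
      (1 + x) ^ Fintype.card K := by
  classical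
  have h1 : (∑ Θ : Finset K, x ^ Θ.card * (1 : ℝ) ^ (Fintype.card K - Θ.card)) =
      (x + 1) ^ Fintype.card K := Fintype.sum_pow_mul_eq_add_pow K x 1
  have h2 : ((univ.filter fun Θ : Finset K => Θ.card ≤ e).card : ℝ) * x ^ e =
      ∑ _Θ ∈ univ.filter (fun Θ : Finset K => Θ.card ≤ e), x ^ e := by
    rw [Finset.sum_const, nsmul_eq_mul]
  rw [h2, add_comm 1 x, ← h1]
  refine le_trans (Finset.sum_le_sum (g := fun Θ : Finset K => x ^ Θ.card) ?_) ?_
  · intro Θ hΘ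
    exact pow_le_pow_of_le_one hx.le hx1 (Finset.mem_filter.mp hΘ).2
  · refine le_trans (Finset.sum_le_sum_of_subset_of_nonneg (Finset.subset_univ _) ?_) ?_
    · intro Θ _ _
      positivity
    · apply le_of_eq
      apply Finset.sum_congr rfl
      intro Θ _
      rw [one_pow, mul_one]

/-- The choice of the parameters. -/
theorem numbers : ∃ ε : ℝ, 0 < ε ∧ ∀ p : ℕ, 2 ≤ p → ∃ b : ℕ, 1 ≤ b ∧ p ≤ b ∧ ∃ x : ℝ, 0 < x ∧ x ≤ 1 ∧
    ∃ n₀ : ℕ, ∀ n ≥ n₀, ∀ s T : ℝ, 0 ≤ s → 0 ≤ T →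
      T * x ^ (⌈ε * (n / b : ℕ)⌉₊ * (b + 1) + p * (n / b)) ≤ (1 + x) ^ n →
      (544 / 355 : ℝ) ^ (n - (p - 1) * (n / b)) ≤
        s * (b + 1 + 1) ^ (3 * (n / b)) *
          (544 / 355) ^ (⌈ε * (n / b : ℕ)⌉₊ * (b + 1) + p * (n / b)) * T ^ 2 →
      (153 / 100 : ℝ) ^ n ≤ s := by
  refine ⟨1 / 400000, by norm_num, ?_⟩
  intro p hp
  refine ⟨100000000 * p, by omega, by omega, 1 / 100000, by norm_num, by norm_num,
    1000000 * (100000000 * p + 1), ?_⟩
  intro n hn s T hs hT h1 h2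
  set b : ℕ := 100000000 * p with hb
  set M : ℕ := n / b with hM
  set e : ℕ := ⌈(1 / 400000 : ℝ) * (M : ℕ)⌉₊ * (b + 1) + p * M with he
  have hpR : (2 : ℝ) ≤ p := by exact_mod_cast hp
  have hbR : (b : ℝ) = 100000000 * p := by rw [hb]; push_cast; ring
  have hb2 : (200000000 : ℝ) ≤ b := by rw [hbR]; linarith
  have hb0 : (0 : ℝ) < b := by linarith
  have hnR : (1000000 : ℝ) * (b + 1) ≤ n := by
    have : ((1000000 * (b + 1) : ℕ) : ℝ) ≤ (n : ℝ) := by exact_mod_cast hn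
    push_cast at this
    linarith
  have hn0 : (0 : ℝ) < n := by linarith
  have hMb : (M : ℝ) * b ≤ n := by
    have : M * b ≤ n := Nat.div_mul_le_self n b
    exact_mod_cast this
  have hM0 : (0 : ℝ) ≤ M := Nat.cast_nonneg _
  have hpM : (p : ℝ) * M ≤ n / 100000000 := by
    rw [le_div_iff₀ (by norm_num)]
    calc (p : ℝ) * M * 100000000 = M * (100000000 * p) := by ring
      _ = M * b := by rw [hbR]
      _ ≤ n := hMb
  have hceil : (⌈(1 / 400000 : ℝ) * (M : ℕ)⌉₊ : ℝ) ≤ 1 / 400000 * M + 1 :=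
    (Nat.ceil_lt_add_one (by positivity)).le
  have hM1 : (M : ℝ) ≤ n / 1000 := by
    rw [le_div_iff₀ (by norm_num)]
    nlinarith
  have heR : (e : ℝ) ≤ n / 100000 := by
    have h3 : (e : ℝ) = (⌈(1 / 400000 : ℝ) * (M : ℕ)⌉₊ : ℝ) * (b + 1) + p * M := by
      rw [he]; push_cast; ring
    have h4 : (⌈(1 / 400000 : ℝ) * (M : ℕ)⌉₊ : ℝ) * (b + 1) ≤ (1 / 400000 * M + 1) * (b + 1) :=
      mul_le_mul_of_nonneg_right hceil (by linarith)
    have h5 : (1 / 400000 * (M : ℝ) + 1) * (b + 1) =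
        1 / 400000 * (M * b) + 1 / 400000 * M + (b + 1) := by ring
    rw [h3]
    linarith
  have hk : (((p - 1) * M : ℕ) : ℝ) ≤ n / 100000000 := by
    have h3 : (p - 1) * M ≤ p * M := Nat.mul_le_mul_right _ (Nat.sub_le _ _)
    have h4 : (((p - 1) * M : ℕ) : ℝ) ≤ ((p * M : ℕ) : ℝ) := by exact_mod_cast h3
    push_cast at h4 ⊢
    linarith
  set k : ℕ := (p - 1) * M with hkd
  -- logarithms
  have lc0 : 0 ≤ Real.log (544 / 355) := Real.log_nonneg (by norm_num)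
  have lc1 : Real.log (544 / 355) ≤ 1 := by
    have := Real.log_le_sub_one_of_pos (show (0 : ℝ) < 544 / 355 by norm_num)
    linarith
  have l153 : Real.log (153 / 100) ≤ Real.log (544 / 355) - 0.0015 := by
    have h3 := Real.one_sub_inv_le_log_of_pos
      (show (0 : ℝ) < (544 / 355) / (153 / 100) by norm_num)
    rw [Real.log_div (by norm_num) (by norm_num)] at h3
    norm_num at h3 ⊢
    linarith
  have lx : -12 ≤ Real.log (1 / 100000) := by
    rw [Real.le_log_iff_exp_le (by norm_num)]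
    have h3 : (2.7 : ℝ) < Real.exp 1 := lt_trans (by norm_num) Real.exp_one_gt_d9
    have h4 : Real.exp (-12) = (Real.exp 1)⁻¹ ^ 12 := by
      rw [← Real.exp_neg, ← Real.exp_nat_mul]
      norm_num
    rw [h4, inv_pow, one_div]
    apply inv_anti₀ (by norm_num)
    calc (100000 : ℝ) ≤ 2.7 ^ 12 := by norm_num
      _ ≤ Real.exp 1 ^ 12 := pow_le_pow_left₀ (by norm_num) h3.le 12
  have lx1 : Real.log (1 + 1 / 100000) ≤ 1 / 100000 := by
    have := Real.log_le_sub_one_of_pos (show (0 : ℝ) < 1 + 1 / 100000 by norm_num)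
    linarith
  have lb : Real.log ((b : ℝ) + 1 + 1) ≤ b / 3000 := by
    have hy : (0 : ℝ) < (b : ℝ) + 1 + 1 := by linarith
    have h3 : Real.log (Real.sqrt ((b : ℝ) + 1 + 1)) = Real.log ((b : ℝ) + 1 + 1) / 2 :=
      Real.log_sqrt hy.le
    have h4 := Real.log_le_sub_one_of_pos (Real.sqrt_pos.mpr hy)
    have h5 : Real.sqrt ((b : ℝ) + 1 + 1) ≤ b / 6000 := by
      apply Real.sqrt_le_iff.mpr
      refine ⟨by positivity, ?_⟩
      nlinarith
    linarith
  have lb0 : 0 ≤ Real.log ((b : ℝ) + 1 + 1) := Real.log_nonneg (by linarith)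
  have hMlb : (M : ℝ) * Real.log ((b : ℝ) + 1 + 1) ≤ n / 3000 := by
    calc (M : ℝ) * Real.log ((b : ℝ) + 1 + 1) ≤ M * (b / 3000) :=
          mul_le_mul_of_nonneg_left lb hM0
      _ = M * b / 3000 := by ring
      _ ≤ n / 3000 := by
          apply div_le_div_of_nonneg_right hMb (by norm_num)
  -- the final comparison
  by_contra hcon
  push Not at hcon
  have hx0 : (0 : ℝ) < (1 / 100000 : ℝ) ^ e := by positivity
  have hBp : (0 : ℝ) < ((b : ℝ) + 1 + 1) ^ (3 * M) := by positivity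
  have hce : (0 : ℝ) < (544 / 355 : ℝ) ^ e := by positivity
  have h3 : (544 / 355 : ℝ) ^ (n - k) * ((1 / 100000 : ℝ) ^ e) ^ 2 ≤
      (153 / 100 : ℝ) ^ n * ((b : ℝ) + 1 + 1) ^ (3 * M) * (544 / 355 : ℝ) ^ e *
        ((1 + 1 / 100000 : ℝ) ^ n) ^ 2 := by
    have h4 : (T * (1 / 100000 : ℝ) ^ e) ^ 2 ≤ ((1 + 1 / 100000 : ℝ) ^ n) ^ 2 :=
      pow_le_pow_left₀ (by positivity) h1 2
    have h5 : s * ((b : ℝ) + 1 + 1) ^ (3 * M) * (544 / 355 : ℝ) ^ e * T ^ 2 *
        ((1 / 100000 : ℝ) ^ e) ^ 2 ≤ (153 / 100 : ℝ) ^ n * ((b : ℝ) + 1 + 1) ^ (3 * M) *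
          (544 / 355 : ℝ) ^ e * ((1 + 1 / 100000 : ℝ) ^ n) ^ 2 := by
      calc s * ((b : ℝ) + 1 + 1) ^ (3 * M) * (544 / 355 : ℝ) ^ e * T ^ 2 *
          ((1 / 100000 : ℝ) ^ e) ^ 2 = s * (((b : ℝ) + 1 + 1) ^ (3 * M) *
            (544 / 355 : ℝ) ^ e * (T * (1 / 100000 : ℝ) ^ e) ^ 2) := by ring
        _ ≤ (153 / 100 : ℝ) ^ n * (((b : ℝ) + 1 + 1) ^ (3 * M) *
            (544 / 355 : ℝ) ^ e * (T * (1 / 100000 : ℝ) ^ e) ^ 2) :=
            mul_le_mul_of_nonneg_right hcon.le (by positivity)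
        _ ≤ (153 / 100 : ℝ) ^ n * (((b : ℝ) + 1 + 1) ^ (3 * M) *
            (544 / 355 : ℝ) ^ e * ((1 + 1 / 100000 : ℝ) ^ n) ^ 2) := by
            apply mul_le_mul_of_nonneg_left _ (by positivity)
            exact mul_le_mul_of_nonneg_left h4 (by positivity)
        _ = _ := by ring
    refine le_trans ?_ h5
    exact mul_le_mul_of_nonneg_right h2 (by positivity)
  have h4 : (544 / 355 : ℝ) ^ n ≤ (544 / 355 : ℝ) ^ (n - k) * (544 / 355 : ℝ) ^ k := by
    rw [← pow_add]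
    exact pow_le_pow_right₀ (by norm_num) (by omega)
  have h5 : (544 / 355 : ℝ) ^ n * ((1 / 100000 : ℝ) ^ e) ^ 2 ≤
      (153 / 100 : ℝ) ^ n * ((b : ℝ) + 1 + 1) ^ (3 * M) * (544 / 355 : ℝ) ^ e *
        ((1 + 1 / 100000 : ℝ) ^ n) ^ 2 * (544 / 355 : ℝ) ^ k := by
    calc (544 / 355 : ℝ) ^ n * ((1 / 100000 : ℝ) ^ e) ^ 2 ≤
        (544 / 355 : ℝ) ^ (n - k) * (544 / 355 : ℝ) ^ k * ((1 / 100000 : ℝ) ^ e) ^ 2 :=
          mul_le_mul_of_nonneg_right h4 (by positivity)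
      _ = (544 / 355 : ℝ) ^ (n - k) * ((1 / 100000 : ℝ) ^ e) ^ 2 * (544 / 355 : ℝ) ^ k := by ring
      _ ≤ _ := mul_le_mul_of_nonneg_right h3 (by positivity)
  have h6 := Real.log_le_log (by positivity) h5
  rw [Real.log_mul (by positivity) (by positivity), Real.log_mul (by positivity) (by positivity),
    Real.log_mul (by positivity) (by positivity), Real.log_mul (by positivity) (by positivity),
    Real.log_mul (by positivity) (by positivity)] at h6
  simp only [Real.log_pow] at h6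
  push_cast at h6
  have he0 : (0 : ℝ) ≤ e := Nat.cast_nonneg _
  have hk0 : (0 : ℝ) ≤ k := Nat.cast_nonneg _
  have q1 : (n : ℝ) * Real.log (153 / 100) ≤ n * (Real.log (544 / 355) - 0.0015) :=
    mul_le_mul_of_nonneg_left l153 hn0.le
  have q2 : (e : ℝ) * Real.log (544 / 355) ≤ n / 100000 := by
    calc (e : ℝ) * Real.log (544 / 355) ≤ e * 1 := mul_le_mul_of_nonneg_left lc1 he0
      _ ≤ _ := by linarith
  have q3 : (k : ℝ) * Real.log (544 / 355) ≤ n / 100000000 := by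
    calc (k : ℝ) * Real.log (544 / 355) ≤ k * 1 := mul_le_mul_of_nonneg_left lc1 hk0
      _ ≤ _ := by linarith
  have q4 : -(12 * (n / 100000 : ℝ)) ≤ (e : ℝ) * Real.log (1 / 100000) := by
    calc -(12 * (n / 100000 : ℝ)) ≤ e * (-12) := by linarith
      _ ≤ _ := mul_le_mul_of_nonneg_left lx he0
  have q5 : (n : ℝ) * Real.log (1 + 1 / 100000) ≤ n * (1 / 100000) :=
    mul_le_mul_of_nonneg_left lx1 hn0.le
  have q6 : (3 * (M : ℝ)) * Real.log ((b : ℝ) + 1 + 1) ≤ n / 1000 := by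
    have : (3 * (M : ℝ)) * Real.log ((b : ℝ) + 1 + 1) =
      3 * ((M : ℝ) * Real.log ((b : ℝ) + 1 + 1)) := by ring
    rw [this]
    linarith
  have q7 : (n : ℝ) * (Real.log (544 / 355) - 0.0015) =
      n * Real.log (544 / 355) - 0.0015 * n := by ring
  linarith

end Pool.Agent.H27.GR
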