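import Pool.Agent.H27.GR.Res

/-!
# Supports of a subspace

PROOF. Count pairs (l, e), l in L, l e <> 0. For every e in the union U the map l |-> l e is a nonzero
linear functional on L, its kernel has card L / p elements (all fibres have the same size), so at
least (1 - 1/p) card L >= card L / 2 members have l e <> 0 (direct argument for >= card L / 2: fix
l0 in L with l0 e <> 0; l |-> l + l0 is an injection of {l in L : l e = 0} into {l in L : l e <> 0}).
Hence card U * card L <= 2 * sum_l card (supp l) <= 2 * h * card L, and card L >= 1.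
-/

namespace Pool.Agent.H27.GR

open Finset

open Classical in
/-- A subspace all of whose members have support at most `h` lives on at most `2 h` coordinates. -/
theorem supp_union {m p : ℕ} [Fact p.Prime] (L : Submodule (ZMod p) (Fin m → ZMod p)) (h : ℕ)
    (hL : ∀ l ∈ L, (supp l).card ≤ h) :
    (univ.filter fun e => ∃ l ∈ L, l e ≠ 0).card ≤ 2 * h := by
  set U := univ.filter fun e : Fin m => ∃ l ∈ L, l e ≠ 0 with hU
  set F : Finset (Fin m → ZMod p) := univ.filter fun l => l ∈ L with hF
  have hpos : 0 < F.card := Finset.card_pos.2 ⟨0, by rw [hF, mem_filter]; exact ⟨mem_univ _, L.zero_mem⟩⟩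
  have hhalf : ∀ e ∈ U, F.card ≤ 2 * (F.filter fun l => l e ≠ 0).card := by
    intro e he
    rw [hU, mem_filter] at he
    obtain ⟨_, l₀, h0, hne⟩ := he
    have h1 : (F.filter fun l => ¬ l e ≠ 0).card ≤ (F.filter fun l => l e ≠ 0).card := by
      refine Finset.card_le_card_of_injOn (fun l => l + l₀) ?_ ?_
      · intro l hl
        rw [mem_coe, mem_filter, hF, mem_filter, not_not] at hl
        rw [mem_coe, mem_filter, hF, mem_filter]
        refine ⟨⟨mem_univ _, L.add_mem hl.1.2 h0⟩, ?_⟩
        show l e + l₀ e ≠ 0
        rw [hl.2, zero_add]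
        exact hne
      · intro l _ l' _ h
        exact add_right_cancel h
    have h2 := Finset.card_filter_add_card_filter_not (s := F) (fun l => l e ≠ 0)
    omega
  have hsum : ∑ e : Fin m, (F.filter fun l => l e ≠ 0).card = ∑ l ∈ F, (supp l).card := by
    unfold supp
    simp only [Finset.card_filter]
    rw [Finset.sum_comm]
  have h1 : U.card * F.card ≤ 2 * (h * F.card) := by
    calc U.card * F.card = ∑ _e ∈ U, F.card := by rw [Finset.sum_const, smul_eq_mul]
      _ ≤ ∑ e ∈ U, 2 * (F.filter fun l => l e ≠ 0).card := Finset.sum_le_sum hhalf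
      _ = 2 * ∑ e ∈ U, (F.filter fun l => l e ≠ 0).card := by rw [Finset.mul_sum]
      _ ≤ 2 * ∑ e : Fin m, (F.filter fun l => l e ≠ 0).card :=
        Nat.mul_le_mul_left _ (Finset.sum_le_sum_of_subset (Finset.subset_univ _))
      _ = 2 * ∑ l ∈ F, (supp l).card := by rw [hsum]
      _ ≤ 2 * ∑ _l ∈ F, h := by
        refine Nat.mul_le_mul_left _ (Finset.sum_le_sum fun l hl => ?_)
        rw [hF, mem_filter] at hl
        exact hL l hl.2
      _ = 2 * (h * F.card) := by rw [Finset.sum_const, smul_eq_mul, mul_comm F.card h]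
  refine Nat.le_of_mul_le_mul_right (c := F.card) ?_ hpos
  rw [mul_assoc]
  exact h1

end Pool.Agent.H27.GR
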