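import Pool.Agent.H27.GR.Ad
import Pool.Agent.H27.GR.Su

/-!
# Few blocks are free

PROOF. Let D = {v : v not in vars C and (v in X or t v = none)} and Z = the set of blocks j with
p - 1 <= card {v in D : beta v = j} (the set of the statement), and suppose z <= card Z. Let I be as
in hbad. L = {l : supp l in I and l E = 0 on Z} is a submodule. Every l in L has zeros E l containing
Z, so (zeros E l).card >= z, and (supp l).card <= card I <= 2 r; so by Exp not r < 2 * (supp l).card,
i.e. (supp l).card <= r / 2. By supp_union (h = r / 2) the set I' = {e : some l in L has l e <> 0}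
has at most 2 * (r / 2) <= r elements. ha gives y with Ext X t C y that satisfies the equations in I'.
adjust with D, Z, I: the hypothesis holds since l e <> 0 puts e into I'. We get y' = y off D with all
equations of I. Ext X t C y': if t v <> none then v is not in D (v is outside X), so y' v = y v;
the variables of C are not in D, so C is still falsified. Contradiction to hbad.
-/

namespace Pool.Agent.H27.GR

open Finset

section
variable {V : Type*} [Fintype V] [DecidableEq V] {M m p : ℕ} (β : V → Fin M)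
  (E : Fin m → Fin M → ZMod p) (c : Fin m → ZMod p)

/-- A clause that is alive and refuted by at most `2 r` equations leaves few blocks free. -/
theorem free_blocks [Fact p.Prime] {r z : ℕ} (hE : Exp E r z) (X : Finset V)
    (C : Finset (V × Bool)) (t : {v // v ∉ X} → Option Bool) (ha : Alive β E c r X C t)
    (hbad : ∃ I : Finset (Fin m), I.card ≤ 2 * r ∧
      ¬ ∃ y, Ext X t C y ∧ ∀ e ∈ I, EqSat β E c y e) :
    (univ.filter fun j => p - 1 ≤ (univ.filter fun v : V => β v = j ∧ v ∉ C.image Prod.fst ∧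
      ∀ h : v ∉ X, t ⟨v, h⟩ = none).card).card < z := by
  classical
  by_contra hz
  rw [not_lt] at hz
  obtain ⟨I, hI, hno⟩ := hbad
  obtain ⟨D, hD⟩ : ∃ D : Finset V, ∀ v, v ∈ D ↔ (v ∉ C.image Prod.fst ∧
      ∀ h : v ∉ X, t ⟨v, h⟩ = none) :=
    ⟨univ.filter fun v => v ∉ C.image Prod.fst ∧ ∀ h : v ∉ X, t ⟨v, h⟩ = none, fun v => by
      rw [Finset.mem_filter]
      exact ⟨fun h => h.2, fun h => ⟨mem_univ _, h⟩⟩⟩
  obtain ⟨Z, hZ, hZD⟩ : ∃ Z : Finset (Fin M), z ≤ Z.card ∧
      ∀ j ∈ Z, p - 1 ≤ (D.filter fun v => β v = j).card := by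
    refine ⟨_, hz, fun j hj => ?_⟩
    refine (Finset.mem_filter.1 hj).2.trans (Finset.card_le_card fun v hv => ?_)
    have hv' := (Finset.mem_filter.1 hv).2
    exact Finset.mem_filter.2 ⟨(hD v).2 hv'.2, hv'.1⟩
  clear hz
  have hsupp : ∀ l : Fin m → ZMod p, supp l ⊆ I ↔ ∀ e, e ∉ I → l e = 0 := by
    intro l
    constructor
    · intro h e he
      by_contra hl
      exact he (h (Finset.mem_filter.2 ⟨mem_univ _, hl⟩))
    · intro h e he
      by_contra hl
      exact (Finset.mem_filter.1 he).2 (h e hl)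
  let L : Submodule (ZMod p) (Fin m → ZMod p) :=
    { carrier := {l | (∀ e, e ∉ I → l e = 0) ∧ ∀ j ∈ Z, ∑ e, l e * E e j = 0}
      add_mem' := by
        rintro a b ⟨ha1, ha2⟩ ⟨hb1, hb2⟩
        refine ⟨fun e he => ?_, fun j hj => ?_⟩
        · rw [Pi.add_apply, ha1 e he, hb1 e he, add_zero]
        · have : ∀ e, (a + b) e * E e j = a e * E e j + b e * E e j := fun e => by
            rw [Pi.add_apply, add_mul]
          rw [Finset.sum_congr rfl fun e _ => this e, Finset.sum_add_distrib, ha2 j hj, hb2 j hj,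
            add_zero]
      zero_mem' := ⟨fun _ _ => rfl, fun j _ => Finset.sum_eq_zero fun e _ => by
        rw [Pi.zero_apply, zero_mul]⟩
      smul_mem' := by
        rintro x a ⟨ha1, ha2⟩
        refine ⟨fun e he => ?_, fun j hj => ?_⟩
        · rw [Pi.smul_apply, ha1 e he, smul_zero]
        · have : ∀ e, (x • a) e * E e j = x * (a e * E e j) := fun e => by
            rw [Pi.smul_apply, smul_eq_mul, mul_assoc]
          rw [Finset.sum_congr rfl fun e _ => this e, ← Finset.mul_sum, ha2 j hj, mul_zero] }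
  have hmem : ∀ l, l ∈ L ↔ (∀ e, e ∉ I → l e = 0) ∧ ∀ j ∈ Z, ∑ e, l e * E e j = 0 :=
    fun l => Iff.rfl
  have hLs : ∀ l ∈ L, (supp l).card ≤ r / 2 := by
    intro l hl
    obtain ⟨hl1, hl2⟩ := (hmem l).1 hl
    have h1 : (supp l).card ≤ 2 * r := (Finset.card_le_card ((hsupp l).2 hl1)).trans hI
    have h2 : Z ⊆ zeros E l := fun j hj => Finset.mem_filter.2 ⟨mem_univ _, hl2 j hj⟩
    have h3 := Finset.card_le_card h2
    by_contra hgt
    have h4 := hE l (by omega) h1
    omega
  have hU := supp_union L (r / 2) hLs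
  obtain ⟨y, ⟨hy1, hy2⟩, hy3⟩ := ha (univ.filter fun e => ∃ l ∈ L, l e ≠ 0) (by omega)
  obtain ⟨y', hy'1, hy'2⟩ := adjust β E c I D Z hZD y (fun l hl1 hl2 e he =>
    hy3 e (Finset.mem_filter.2 ⟨mem_univ _, l, (hmem l).2 ⟨(hsupp l).1 hl1, hl2⟩, he⟩))
  refine hno ⟨y', ⟨fun v => ?_, ?_⟩, hy'2⟩
  · rcases h : t v with _ | b
    · exact Or.inl rfl
    · refine Or.inr ?_
      have hvD : v.1 ∉ D := fun hv => by
        have := ((hD _).1 hv).2 v.2
        rw [h] at this
        exact absurd this (by simp)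
      rw [hy'1 _ hvD]
      rcases hy1 v with h' | h'
      · rw [h] at h'
        exact absurd h' (by simp)
      · rw [← h', h]
  · rintro ⟨l, hl, hle⟩
    refine hy2 ⟨l, hl, ?_⟩
    rw [← hle]
    refine (hy'1 _ fun hv => ?_).symm
    exact ((hD _).1 hv).1 (Finset.mem_image_of_mem _ hl)

end

end Pool.Agent.H27.GR
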