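import Pool.Agent.H27.GR.RDefs
import Pool.Agent.H27.GR.Fb

/-!
# Few blocks are free (static set St)

PROOF. free_blocks with X = empty and t v = some (x v) if v in St, none otherwise: Ext X t C y is
ExtS St x C y (for v in St: t v = some (y v) iff y v = x v; outside nothing), so Alive and the
hypothesis hbad are AliveS and BadS, and t v = none iff v is not in St. (Or copy the proof of
free_blocks.)
-/

namespace Pool.Agent.H27.GR

open Finset

section
variable {V : Type*} [Fintype V] [DecidableEq V] {M m p : ℕ} (β : V → Fin M)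
  (E : Fin m → Fin M → ZMod p) (c : Fin m → ZMod p)

/-- A clause that is alive and bad leaves few blocks free. -/
theorem free_blocksS [Fact p.Prime] {r z : ℕ} (hE : Exp E r z) (St : Finset V) (x : V → Bool)
    (C : Finset (V × Bool)) (ha : AliveS β E c r St x C) (hb : BadS β E c (2 * r) St x C) :
    (freeS (p := p) β St C).card < z := by
  classical
  let t : {v // v ∉ (∅ : Finset V)} → Option Bool := fun v => if v.1 ∈ St then some (x v.1) else none
  have hExt : ∀ y, Ext (∅ : Finset V) t C y ↔ ExtS St x C y := by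
    intro y
    constructor
    · rintro ⟨h1, h2⟩
      refine ⟨fun v hv => ?_, h2⟩
      have h3 := h1 ⟨v, Finset.notMem_empty v⟩
      have h4 : t ⟨v, Finset.notMem_empty v⟩ = some (x v) := if_pos hv
      rw [h4] at h3
      rcases h3 with h3 | h3
      · exact absurd h3 (by simp)
      · exact (Option.some.inj h3).symm
    · rintro ⟨h1, h2⟩
      refine ⟨fun v => ?_, h2⟩
      by_cases hv : v.1 ∈ St
      · refine Or.inr ?_
        have h4 : t v = some (x v.1) := if_pos hv
        rw [h4, h1 v.1 hv]
      · exact Or.inl (if_neg hv)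
  have ha' : Alive β E c r (∅ : Finset V) C t := by
    intro I hI
    obtain ⟨y, hy1, hy2⟩ := ha I hI
    exact ⟨y, (hExt y).2 hy1, hy2⟩
  have hb' : ∃ I : Finset (Fin m), I.card ≤ 2 * r ∧
      ¬ ∃ y, Ext (∅ : Finset V) t C y ∧ ∀ e ∈ I, EqSat β E c y e := by
    obtain ⟨I, hI, hno⟩ := hb
    refine ⟨I, hI, ?_⟩
    rintro ⟨y, hy1, hy2⟩
    exact hno ⟨y, (hExt y).1 hy1, hy2⟩
  have key := free_blocks β E c hE (∅ : Finset V) C t ha' hb'
  refine lt_of_le_of_lt (Finset.card_le_card ?_) key
  intro j hj
  have hj' := (Finset.mem_filter.1 hj).2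
  refine Finset.mem_filter.2 ⟨mem_univ _, hj'.trans (Finset.card_le_card fun v hv => ?_)⟩
  obtain ⟨h1, h2, h3⟩ := (Finset.mem_filter.1 hv).2
  exact Finset.mem_filter.2 ⟨mem_univ _, h1, h2, fun h => if_neg h3⟩

end

end Pool.Agent.H27.GR
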