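import Pool.Agent.H27.GR.Res

/-!
# Free bits of a block realise every residue

PROOF. Choose D' subset of D with s.val elements (s.val <= p - 1 <= card D;
Finset.exists_subset_card_eq) and y = the indicator of D'; the sum is (s.val : ZMod p) = s
(ZMod.natCast_zmod_val).
-/

namespace Pool.Agent.H27.GR

open Finset

/-- `p - 1` free bits of a block realise every residue. -/
theorem bits {V : Type*} [DecidableEq V] {p : ℕ} [NeZero p] (D : Finset V) (hD : p - 1 ≤ D.card)
    (s : ZMod p) : ∃ y : V → Bool, (∑ v ∈ D, if y v then (1 : ZMod p) else 0) = s := by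
  have h1 : s.val ≤ D.card := by
    have := ZMod.val_lt s
    omega
  obtain ⟨P, hP, hc⟩ := Finset.exists_subset_card_eq h1
  refine ⟨fun v => decide (v ∈ P), ?_⟩
  have h2 : (∑ v ∈ D, if decide (v ∈ P) = true then (1 : ZMod p) else 0) =
      ((D.filter fun v => v ∈ P).card : ZMod p) := by
    rw [Finset.card_filter]
    push_cast
    refine sum_congr rfl fun v _ => ?_
    by_cases h : v ∈ P <;> simp [h]
  rw [h2]
  have h3 : D.filter (fun v => v ∈ P) = P := by
    ext v
    simp only [mem_filter]
    exact ⟨fun h => h.2, fun h => ⟨hP h, h⟩⟩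
  rw [h3, hc, ZMod.natCast_zmod_val]

end Pool.Agent.H27.GR
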