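import Pool.Agent.H27.GR.Res

/-!
# The formula of a linear system in block sums: unsatisfiability, width and number of clauses
-/

namespace Pool.Agent.H27.GR

open Finset

section
variable {V : Type*} [Fintype V] {M m p : ℕ} (β : V → Fin M)
  (E : Fin m → Fin M → ZMod p) (c : Fin m → ZMod p)

theorem mem_formula' {C : Finset (V × Bool)} : C ∈ formula β E c ↔
    ∃ e, ∃ y : V → Bool, ¬ EqSat β E c y e ∧
      ∀ l : V × Bool, l ∈ C ↔ l.1 ∈ evars β E e ∧ l.2 = !(y l.1) := by
  classical
  unfold formula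
  simp only [mem_biUnion, mem_univ, true_and, mem_image, mem_filter]
  constructor
  · rintro ⟨e, y, hy, rfl⟩
    refine ⟨e, y, hy, fun l => ?_⟩
    rw [mem_image]
    constructor
    · rintro ⟨v, hv, rfl⟩
      exact ⟨hv, rfl⟩
    · rintro ⟨h1, h2⟩
      exact ⟨l.1, h1, Prod.ext rfl h2.symm⟩
  · rintro ⟨e, y, hy, h⟩
    refine ⟨e, y, hy, ?_⟩
    ext l
    rw [h l, mem_image]
    constructor
    · rintro ⟨v, hv, rfl⟩
      exact ⟨hv, rfl⟩
    · rintro ⟨h1, h2⟩
      exact ⟨l.1, h1, Prod.ext rfl h2.symm⟩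

theorem evars_card {w b : ℕ} (hw : ∀ e, (univ.filter fun j => E e j ≠ 0).card ≤ w)
    (hb : ∀ j, (univ.filter fun v => β v = j).card ≤ b) (e : Fin m) :
    (evars β E e).card ≤ w * b := by
  classical
  have h1 : evars β E e =
      (univ.filter fun j => E e j ≠ 0).biUnion fun j => univ.filter fun v => β v = j := by
    ext v
    simp [evars]
  rw [h1]
  calc _ ≤ ∑ j ∈ univ.filter fun j => E e j ≠ 0, (univ.filter fun v => β v = j).card :=
        card_biUnion_le
    _ ≤ ∑ _j ∈ univ.filter fun j => E e j ≠ 0, b := sum_le_sum fun j _ => hb j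
    _ = (univ.filter fun j => E e j ≠ 0).card * b := by rw [sum_const, smul_eq_mul]
    _ ≤ w * b := Nat.mul_le_mul_right _ (hw e)

theorem formula_width' {w b : ℕ} (hw : ∀ e, (univ.filter fun j => E e j ≠ 0).card ≤ w)
    (hb : ∀ j, (univ.filter fun v => β v = j).card ≤ b) :
    ∀ C ∈ formula β E c, C.card ≤ w * b := by
  classical
  intro C hC
  obtain ⟨e, y, _, h⟩ := (mem_formula' β E c).1 hC
  refine le_trans ?_ (evars_card β E hw hb e)
  refine card_le_card_of_injOn Prod.fst (fun l hl => ((h l).1 hl).1) ?_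
  intro l hl l' hl' hll
  have h1 := ((h l).1 hl).2
  have h2 := ((h l').1 hl').2
  exact Prod.ext hll (by rw [h1, h2, hll])

theorem formula_card' {w b : ℕ} (hw : ∀ e, (univ.filter fun j => E e j ≠ 0).card ≤ w)
    (hb : ∀ j, (univ.filter fun v => β v = j).card ≤ b) :
    (formula β E c).card ≤ m * 2 ^ (w * b) := by
  classical
  have hsub : formula β E c ⊆ (univ : Finset (Fin m)).biUnion fun e =>
      ((evars β E e).powerset).image
        (fun T => (evars β E e).image fun v => (v, !(decide (v ∈ T)))) := by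
    intro C hC
    obtain ⟨e, y, _, h⟩ := (mem_formula' β E c).1 hC
    rw [mem_biUnion]
    refine ⟨e, mem_univ _, ?_⟩
    rw [mem_image]
    refine ⟨(evars β E e).filter fun v => y v = true, mem_powerset.2 (filter_subset _ _), ?_⟩
    ext l
    rw [h l, mem_image]
    constructor
    · rintro ⟨v, hv, rfl⟩
      refine ⟨hv, ?_⟩
      cases hy : y v <;> simp [hv, hy]
    · rintro ⟨h1, h2⟩
      refine ⟨l.1, h1, Prod.ext rfl ?_⟩
      rw [h2]
      cases hy : y l.1 <;> simp [h1, hy]
  refine (card_le_card hsub).trans (card_biUnion_le.trans ?_)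
  calc _ ≤ ∑ _e : Fin m, 2 ^ (w * b) := by
        refine sum_le_sum fun e _ => ?_
        calc _ ≤ ((evars β E e).powerset).card := card_image_le
          _ = 2 ^ (evars β E e).card := card_powerset _
          _ ≤ 2 ^ (w * b) := Nat.pow_le_pow_right (by norm_num) (evars_card β E hw hb e)
    _ = m * 2 ^ (w * b) := by rw [sum_const, smul_eq_mul, card_univ, Fintype.card_fin]

end

section
variable {V : Type*} [Fintype V] [DecidableEq V] {M m p : ℕ} (β : V → Fin M)
  (E : Fin m → Fin M → ZMod p) (c : Fin m → ZMod p)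

/-- The formula has no model. -/
theorem formula_unsat (hc : ¬ ∃ x : Fin M → ZMod p, ∀ e, ∑ j, E e j * x j = c e) :
    ¬ ∃ y : V → Bool, ∀ C ∈ formula β E c, ClauseSat y C := by
  rintro ⟨y, hy⟩
  apply hc
  refine ⟨fun j => bsum β p y j, fun e => ?_⟩
  by_contra hne
  have hmem : ((evars β E e).image fun v => (v, !(y v))) ∈ formula β E c := by
    refine (mem_formula' β E c).2 ⟨e, y, hne, fun l => ?_⟩
    rw [mem_image]
    constructor
    · rintro ⟨v, hv, rfl⟩
      exact ⟨hv, rfl⟩
    · rintro ⟨h1, h2⟩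
      exact ⟨l.1, h1, Prod.ext rfl h2.symm⟩
  obtain ⟨l, hl, hl2⟩ := hy _ hmem
  rw [mem_image] at hl
  obtain ⟨v, _, rfl⟩ := hl
  simp at hl2

theorem formula_width {w b : ℕ} (hw : ∀ e, (univ.filter fun j => E e j ≠ 0).card ≤ w)
    (hb : ∀ j, (univ.filter fun v => β v = j).card ≤ b) :
    ∀ C ∈ formula β E c, C.card ≤ w * b :=
  formula_width' β E c hw hb

theorem formula_card {w b : ℕ} (hw : ∀ e, (univ.filter fun j => E e j ≠ 0).card ≤ w)
    (hb : ∀ j, (univ.filter fun v => β v = j).card ≤ b) :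
    (formula β E c).card ≤ m * 2 ^ (w * b) :=
  formula_card' β E c hw hb

/-- A clause that contains a clause of the formula is refuted by one equation. -/
theorem leaf_bad {C D : Finset (V × Bool)} (hC : C ∈ formula β E c) (hD : C ⊆ D) :
    ∃ e, ∀ y, ¬ ClauseSat y D → ¬ EqSat β E c y e := by
  obtain ⟨e, y0, hy0, h⟩ := (mem_formula' β E c).1 hC
  refine ⟨e, fun y hy hsat => hy0 ?_⟩
  have hag : ∀ v ∈ evars β E e, y v = y0 v := by
    intro v hv
    by_contra hne
    apply hy
    refine ⟨(v, !(y0 v)), hD ((h _).2 ⟨hv, rfl⟩), ?_⟩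
    cases h1 : y v <;> cases h2 : y0 v <;> simp_all
  unfold EqSat at hsat ⊢
  rw [← hsat]
  refine sum_congr rfl fun j _ => ?_
  by_cases hj : E e j = 0
  · rw [hj, zero_mul, zero_mul]
  · congr 1
    unfold bsum
    refine sum_congr rfl fun v hv => ?_
    have hv' : β v = j := (mem_filter.1 hv).2
    rw [hag v (by simp [evars, hv', hj])]

end

end Pool.Agent.H27.GR
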