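import Pool.Agent.H27.GR.So
import Pool.Agent.H27.GR.Bi

/-!
# Free blocks can be solved for

PROOF. Let Y j = bsum of y in block j and d e = c e - sum_{j not in Z} E e j * Y j. Apply solve to
I, Z, d: for l with supp l in I and l E = 0 on Z: for e with l e <> 0 the equation e holds for y,
so l e * d e = l e * sum_{j in Z} E e j * Y j for every e (both sides are 0 if l e = 0), and the sum
over e is sum_{j in Z} Y j * (sum_e l e * E e j) = 0. We get x j for j in Z. For j in Z let
D_j = {v in D : beta v = j}; bits gives bits on D_j with sum x j - (sum of y over the block minus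
D_j). y' v = these bits if v in D and beta v in Z, y v otherwise. Then bsum y' j = x j for j in Z and
Y j for j not in Z, so sum_j E e j * bsum y' j = sum_{j in Z} E e j * x j + sum_{j not in Z} .. = c e.
-/

namespace Pool.Agent.H27.GR

open Finset

/-- Free blocks can be solved for. -/
theorem adjust {V : Type*} [Fintype V] [DecidableEq V] {M m p : ℕ} [Fact p.Prime]
    (β : V → Fin M) (E : Fin m → Fin M → ZMod p) (c : Fin m → ZMod p) (I : Finset (Fin m))
    (D : Finset V) (Z : Finset (Fin M)) (hZ : ∀ j ∈ Z, p - 1 ≤ (D.filter fun v => β v = j).card)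
    (y : V → Bool)
    (h : ∀ l : Fin m → ZMod p, supp l ⊆ I → (∀ j ∈ Z, ∑ e, l e * E e j = 0) →
      ∀ e, l e ≠ 0 → EqSat β E c y e) :
    ∃ y' : V → Bool, (∀ v, v ∉ D → y' v = y v) ∧ ∀ e ∈ I, EqSat β E c y' e := by
  classical
  -- the unknown part of the right side
  have hsplit : ∀ (f : Fin M → ZMod p), ∑ j, f j = ∑ j ∈ Z, f j + ∑ j ∈ univ \ Z, f j := by
    intro f
    rw [add_comm]
    exact (Finset.sum_sdiff (Finset.subset_univ Z)).symm
  obtain ⟨x, hx⟩ := solve E I Z
    (fun e => c e - ∑ j ∈ univ \ Z, E e j * bsum β p y j) (by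
      intro l hl hz
      have h1 : ∀ e, l e * (c e - ∑ j ∈ univ \ Z, E e j * bsum β p y j)
          = l e * ∑ j ∈ Z, E e j * bsum β p y j := by
        intro e
        by_cases hle : l e = 0
        · rw [hle, zero_mul, zero_mul]
        · have h2 : ∑ j, E e j * bsum β p y j = c e := h l hl hz e hle
          rw [hsplit] at h2
          rw [← h2, add_sub_cancel_right]
      calc ∑ e, l e * (c e - ∑ j ∈ univ \ Z, E e j * bsum β p y j)
          = ∑ e, ∑ j ∈ Z, l e * E e j * bsum β p y j := by
            refine Finset.sum_congr rfl fun e _ => ?_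
            rw [h1 e, Finset.mul_sum]
            exact Finset.sum_congr rfl fun j _ => by ring
        _ = ∑ j ∈ Z, ∑ e, l e * E e j * bsum β p y j := Finset.sum_comm
        _ = 0 := by
            refine Finset.sum_eq_zero fun j hj => ?_
            rw [← Finset.sum_mul, hz j hj, zero_mul])
  have hb : ∀ j, ∃ z : V → Bool, j ∈ Z →
      (∑ v ∈ D.filter (fun v => β v = j), if z v then (1 : ZMod p) else 0)
        = x j - ∑ v ∈ (univ.filter (fun v => β v = j)).filter (fun v => v ∉ D),
            if y v then (1 : ZMod p) else 0 := by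
    intro j
    by_cases hj : j ∈ Z
    · have : NeZero p := ⟨(Fact.out : p.Prime).ne_zero⟩
      obtain ⟨z, hz⟩ := bits (p := p) (D.filter fun v => β v = j) (hZ j hj)
        (x j - ∑ v ∈ (univ.filter (fun v => β v = j)).filter (fun v => v ∉ D),
            if y v then (1 : ZMod p) else 0)
      exact ⟨z, fun _ => hz⟩
    · exact ⟨y, fun h => absurd h hj⟩
  choose z hz using hb
  refine ⟨fun v => if v ∈ D ∧ β v ∈ Z then z (β v) v else y v, ?_, ?_⟩
  · intro v hv
    exact if_neg fun h => hv h.1
  · intro e he
    have hZs : ∀ j ∈ Z, bsum β p (fun v => if v ∈ D ∧ β v ∈ Z then z (β v) v else y v) j = x j := by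
      intro j hj
      unfold bsum
      rw [← Finset.sum_filter_add_sum_filter_not (univ.filter fun v => β v = j) (fun v => v ∈ D)]
      have e1 : (univ.filter fun v => β v = j).filter (fun v => v ∈ D)
          = D.filter (fun v => β v = j) := by
        ext v; simp [and_comm]
      have e2 : (∑ v ∈ (univ.filter fun v => β v = j).filter (fun v => v ∈ D),
          if (if v ∈ D ∧ β v ∈ Z then z (β v) v else y v) then (1 : ZMod p) else 0)
          = ∑ v ∈ D.filter (fun v => β v = j), if z j v then (1 : ZMod p) else 0 := by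
        rw [e1]
        refine Finset.sum_congr rfl fun v hv => ?_
        obtain ⟨hvD, hvj⟩ := Finset.mem_filter.1 hv
        rw [if_pos (⟨hvD, hvj ▸ hj⟩ : v ∈ D ∧ β v ∈ Z), hvj]
      have e3 : (∑ v ∈ (univ.filter fun v => β v = j).filter (fun v => v ∉ D),
          if (if v ∈ D ∧ β v ∈ Z then z (β v) v else y v) then (1 : ZMod p) else 0)
          = ∑ v ∈ (univ.filter (fun v => β v = j)).filter (fun v => v ∉ D),
            if y v then (1 : ZMod p) else 0 := by
        refine Finset.sum_congr rfl fun v hv => ?_
        rw [if_neg fun h : v ∈ D ∧ β v ∈ Z => (Finset.mem_filter.1 hv).2 h.1]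
      rw [e2, e3, hz j hj, sub_add_cancel]
    have hZn : ∀ j ∈ univ \ Z,
        bsum β p (fun v => if v ∈ D ∧ β v ∈ Z then z (β v) v else y v) j = bsum β p y j := by
      intro j hj
      have hj' : j ∉ Z := (Finset.mem_sdiff.1 hj).2
      unfold bsum
      refine Finset.sum_congr rfl fun v hv => ?_
      have hvj : β v = j := (Finset.mem_filter.1 hv).2
      show (if (if v ∈ D ∧ β v ∈ Z then z (β v) v else y v) then (1 : ZMod p) else 0) = _
      rw [if_neg fun h : v ∈ D ∧ β v ∈ Z => hj' (hvj ▸ h.2)]
    show ∑ j, E e j * bsum β p (fun v => if v ∈ D ∧ β v ∈ Z then z (β v) v else y v) j = c e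
    rw [hsplit]
    rw [Finset.sum_congr rfl fun j hj => by rw [hZs j hj],
      Finset.sum_congr rfl fun j (hj : j ∈ univ \ Z) => by rw [hZn j hj], hx e he, sub_add_cancel]

end Pool.Agent.H27.GR
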