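import Mathlib

/-!
# The min-max game: definitions

`t : K → Option Bool` is a subcube of the cube of all `K → Bool` (`none` is a free coordinate).
-/

namespace Pool.Agent.H27.GR

open Finset

/-- Number of coordinates in `S`, in the block `c`, where `t` is `true`. -/
def cnt {K B : Type*} [Fintype K] [DecidableEq K] [DecidableEq B] (β : K → B) (S : Finset K)
    (t : K → Option Bool) (c : B) : ℕ :=
  (univ.filter fun v => v ∈ S ∧ β v = c ∧ t v = some true).card

/-- A system of nodes: `S i` are the variables the node `i` does not mention, `a i` are its values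
on the others, `alive i t` says that the node `i` is possible in the subcube `t`. -/
structure Sys (K B : Type*) [Fintype K] [DecidableEq K] [DecidableEq B] (β : K → B) (N : ℕ) where
  /-- the free variables of a node -/
  S : Fin N → Finset K
  /-- the values of a node -/
  a : Fin N → K → Bool
  /-- which nodes are possible in a subcube -/
  alive : Fin N → (K → Option Bool) → Prop
  agree : ∀ i t, alive i t → ∀ v, v ∉ S i → t v = none ∨ t v = some (a i v)
  mono : ∀ i t t', (∀ v, t' v = none ∨ t' v = t v) → alive i t → alive i t'
  sums : ∀ i t t', alive i t → (∀ v ∈ S i, t' v = none ↔ t v = none) →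
    (∀ v, v ∉ S i → t' v = none ∨ t' v = some (a i v)) →
    (∀ c, cnt β (S i) t' c = cnt β (S i) t c) → alive i t'

/-- The node `i` is the first one that is possible in the subcube `t`. -/
def Sys.Low {K B : Type*} [Fintype K] [DecidableEq K] [DecidableEq B] {β : K → B} {N : ℕ}
    (A : Sys K B β N) (i : Fin N) (t : K → Option Bool) : Prop :=
  A.alive i t ∧ ∀ j < i, ¬ A.alive j t

/-- Weights of the first test: a free coordinate has weight `1 / 4`, a bit `3 / 8`. -/
noncomputable def w1 : Option Bool → ℝ
  | none => 1 / 4
  | some _ => 3 / 8

/-- Weights of the second test: `none` is a move of Max (`3 / 56`), `some none` is a move of Min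
(`29 / 112`), `some (some b)` is a fixed bit (`11 / 32`). -/
noncomputable def w2 : Option (Option Bool) → ℝ
  | none => 3 / 56
  | some none => 29 / 112
  | some (some _) => 11 / 32

/-- The subcube after the moves `ρ` of Min and `γ` of Max; the moves of Min outside `S` are left
free. -/
def mk {K : Type*} [DecidableEq K] (S : Finset K) (τ : K → Option (Option Bool)) (ρ γ : K → Bool) :
    K → Option Bool := fun v =>
  match τ v with
  | none => some (γ v)
  | some none => if v ∈ S then some (ρ v) else none
  | some (some b) => some b

/-- Outside `S` there is no move of Max, and the fixed bits are those of `a`. -/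
def Adm {K : Type*} (S : Finset K) (a : K → Bool) (τ : K → Option (Option Bool)) : Prop :=
  ∀ v, v ∉ S → τ v = some none ∨ τ v = some (some (a v))

/-- For all moves of Min there are moves of Max that lead into `Z`. -/
def Win {K : Type*} [DecidableEq K] (S : Finset K) (τ : K → Option (Option Bool))
    (Z : Set (K → Option Bool)) : Prop := ∀ ρ : K → Bool, ∃ γ : K → Bool, mk S τ ρ γ ∈ Z

/-- `t` has no free coordinate in `S` and is free or `a` outside. -/
def Cub {K : Type*} (S : Finset K) (a : K → Bool) (t : K → Option Bool) : Prop :=
  (∀ v ∈ S, t v ≠ none) ∧ ∀ v, v ∉ S → t v = none ∨ t v = some (a v)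

/-- The class of the node `i` and the block sums `s`. -/
def Sys.Cl {K B : Type*} [Fintype K] [DecidableEq K] [DecidableEq B] {β : K → B} {N : ℕ}
    (A : Sys K B β N) (i : Fin N) (s : B → ℕ) : Set (K → Option Bool) :=
  {t | A.Low i t ∧ (∀ v ∈ A.S i, t v ≠ none) ∧ ∀ c, cnt β (A.S i) t c = s c}

/-- The event of the second test. -/
def Sys.Ev {K B : Type*} [Fintype K] [DecidableEq K] [DecidableEq B] {β : K → B} {N : ℕ}
    (A : Sys K B β N) (i : Fin N) (s : B → ℕ) (τ : K → Option (Option Bool)) : Prop :=
  Adm (A.S i) (A.a i) τ ∧ Win (A.S i) τ (A.Cl i s)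

/-- Number of moves of Min in `S` in the block `c`. -/
def rc {K B : Type*} [Fintype K] [DecidableEq K] [DecidableEq B] (β : K → B) (S : Finset K)
    (τ : K → Option (Option Bool)) (c : B) : ℕ :=
  (univ.filter fun v => v ∈ S ∧ β v = c ∧ τ v = some none).card

/-- Number of fixed bits `true` in `S` in the block `c`. -/
def fc {K B : Type*} [Fintype K] [DecidableEq K] [DecidableEq B] (β : K → B) (S : Finset K)
    (τ : K → Option (Option Bool)) (c : B) : ℕ :=
  (univ.filter fun v => v ∈ S ∧ β v = c ∧ τ v = some (some true)).card

end Pool.Agent.H27.GR
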