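import Pool.Agent.H27.GR.Defs

/-!
# Two events of the second test with the same targets
-/

namespace Pool.Agent.H27.GR

open Finset

variable {K B : Type*} [Fintype K] [DecidableEq K] [DecidableEq B] {β : K → B} {N : ℕ}

/-- The point played. -/
private def play (τ : K → Option (Option Bool)) (ρ γ : K → Bool) : K → Option Bool := fun v =>
  match τ v with
  | none => some (γ v)
  | some none => some (ρ v)
  | some (some b) => some b

private theorem cnt_split (S : Finset K) (τ : K → Option (Option Bool)) (ρ γ : K → Bool)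
    (t : K → Option Bool) (hJ : ∀ v, v ∉ S → τ v ≠ none) (ht : ∀ v ∈ S, t v = play τ ρ γ v)
    (c : B) :
    cnt β S t c = (univ.filter fun v => β v = c ∧ τ v = none ∧ γ v = true).card +
      (univ.filter fun v => v ∈ S ∧ β v = c ∧ τ v = some none ∧ ρ v = true).card +
      fc β S τ c := by
  unfold cnt fc
  simp only [Finset.card_filter]
  rw [← sum_add_distrib, ← sum_add_distrib]
  refine sum_congr rfl fun v _ => ?_
  by_cases hv : v ∈ S
  · have h1 := ht v hv
    rw [h1]
    unfold play
    by_cases hc : β v = c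
    · rcases h2 : τ v with _ | _ | b
      · simp [hv, hc]
      · simp [hv, hc]
      · simp [hv, hc]
    · simp [hc]
  · have h1 := hJ v hv
    simp [hv, h1]

private theorem ev_lt (A : Sys K B β N) {i j : Fin N} {s s' : B → ℕ}
    {τ : K → Option (Option Bool)} (hij : i < j)
    (hi : A.Ev i s τ) (hj : A.Ev j s' τ) (hr : ∀ c, rc β (A.S i) τ c = rc β (A.S j) τ c)
    (hf : ∀ c, s c + fc β (A.S j) τ c = s' c + fc β (A.S i) τ c) : False := by
  classical
  -- the two difference sets in a block
  have hcard : ∀ c, (univ.filter fun v => (v ∈ A.S i ∧ v ∉ A.S j) ∧ β v = c ∧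
      τ v = some none).card = (univ.filter fun v => (v ∈ A.S j ∧ v ∉ A.S i) ∧ β v = c ∧
      τ v = some none).card := by
    intro c
    have h := hr c
    unfold rc at h
    have e1 : (univ.filter fun v => v ∈ A.S i ∧ β v = c ∧ τ v = some none).card =
        (univ.filter fun v => (v ∈ A.S i ∧ v ∉ A.S j) ∧ β v = c ∧ τ v = some none).card +
        (univ.filter fun v => (v ∈ A.S i ∧ v ∈ A.S j) ∧ β v = c ∧ τ v = some none).card := by
      simp only [Finset.card_filter]
      rw [← sum_add_distrib]
      refine sum_congr rfl fun v _ => ?_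
      by_cases h1 : v ∈ A.S i <;> by_cases h2 : v ∈ A.S j <;> simp [h1, h2]
    have e2 : (univ.filter fun v => v ∈ A.S j ∧ β v = c ∧ τ v = some none).card =
        (univ.filter fun v => (v ∈ A.S j ∧ v ∉ A.S i) ∧ β v = c ∧ τ v = some none).card +
        (univ.filter fun v => (v ∈ A.S i ∧ v ∈ A.S j) ∧ β v = c ∧ τ v = some none).card := by
      simp only [Finset.card_filter]
      rw [← sum_add_distrib]
      refine sum_congr rfl fun v _ => ?_
      by_cases h1 : v ∈ A.S i <;> by_cases h2 : v ∈ A.S j <;> simp [h1, h2]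
    omega
  -- the set of ones of Min
  have hP : ∀ c, ∃ P ⊆ (univ.filter fun v => (v ∈ A.S i ∧ v ∉ A.S j) ∧ β v = c ∧
      τ v = some none), P.card = (univ.filter fun v => v ∈ A.S j ∧ v ∉ A.S i ∧ β v = c ∧
      τ v = some none ∧ A.a i v = true).card := by
    intro c
    apply Finset.exists_subset_card_eq
    rw [hcard c]
    refine card_le_card ?_
    intro v hv
    simp only [mem_filter, mem_univ, true_and] at hv ⊢
    tauto
  choose P hPsub hPcard using hP
  let ρ : K → Bool := fun v => if v ∉ A.S i then A.a i v else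
    if v ∈ A.S j then false else decide (v ∈ P (β v))
  obtain ⟨γ, hγ⟩ := hj.2 ρ
  obtain ⟨γ', hγ'⟩ := hi.2 ρ
  have hJi : ∀ v, v ∉ A.S i → τ v ≠ none := by
    intro v hv
    rcases hi.1 v hv with h | h <;> simp [h]
  have hJj : ∀ v, v ∉ A.S j → τ v ≠ none := by
    intro v hv
    rcases hj.1 v hv with h | h <;> simp [h]
  have hx : ∀ v ∈ A.S j, mk (A.S j) τ ρ γ v = play τ ρ γ v := by
    intro v hv
    unfold mk play
    rcases τ v with _ | _ | b <;> simp [hv]
  have hcj := fun c => cnt_split (β := β) (A.S j) τ ρ γ (mk (A.S j) τ ρ γ) hJj hx c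
  have hci := fun c => cnt_split (β := β) (A.S i) τ ρ γ (play τ ρ γ) hJi (fun v _ => rfl) c
  -- the ones of Min in the two sets
  have hρi : ∀ c, (univ.filter fun v => v ∈ A.S i ∧ β v = c ∧ τ v = some none ∧ ρ v = true).card =
      (P c).card := by
    intro c
    congr 1
    ext v
    simp only [mem_filter, mem_univ, true_and]
    constructor
    · rintro ⟨h1, h2, h3, h4⟩
      by_cases h5 : v ∈ A.S j
      · simp [ρ, h1, h5] at h4
      · simp [ρ, h1, h5] at h4
        rw [h2] at h4
        exact h4
    · intro h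
      have h1 := hPsub c h
      simp only [mem_filter, mem_univ, true_and] at h1
      refine ⟨h1.1.1, h1.2.1, h1.2.2, ?_⟩
      simp [ρ, h1.1.1, h1.1.2]
      rw [h1.2.1]
      exact h
  have hρj : ∀ c, (univ.filter fun v => v ∈ A.S j ∧ β v = c ∧ τ v = some none ∧ ρ v = true).card =
      (P c).card := by
    intro c
    rw [hPcard c]
    congr 1
    ext v
    simp only [mem_filter, mem_univ, true_and]
    constructor
    · rintro ⟨h1, h2, h3, h4⟩
      by_cases h5 : v ∈ A.S i
      · simp [ρ, h1, h5] at h4
      · simp [ρ, h5] at h4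
        exact ⟨h1, h5, h2, h3, h4⟩
    · rintro ⟨h1, h2, h3, h4, h5⟩
      refine ⟨h1, h3, h4, ?_⟩
      simp [ρ, h2, h5]
  have hs : ∀ c, cnt β (A.S i) (play τ ρ γ) c = s c := by
    intro c
    have h1 := hcj c
    have h2 := hci c
    have h3 := hγ.2.2 c
    have h4 := hf c
    rw [hρj c] at h1
    rw [hρi c] at h2
    omega
  have halive : A.alive i (play τ ρ γ) := by
    refine A.sums i (mk (A.S i) τ ρ γ') _ hγ'.1.1 ?_ ?_ ?_
    · intro v hv
      have h1 := hγ'.2.1 v hv
      constructor
      · intro h
        exfalso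
        unfold play at h
        rcases h2 : τ v with _ | _ | b <;> simp [h2] at h
      · intro h
        exact absurd h h1
    · intro v hv
      right
      rcases hi.1 v hv with h | h
      · unfold play
        simp [h, ρ, hv]
      · unfold play
        simp [h]
    · intro c
      rw [hs c]
      exact (hγ'.2.2 c).symm
  refine hγ.1.2 i hij ?_
  refine A.mono i (play τ ρ γ) _ ?_ halive
  intro v
  unfold mk play
  rcases τ v with _ | _ | b
  · simp
  · by_cases h : v ∈ A.S j <;> simp [h]
  · simp

/-- Lemma A'. -/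
theorem ev_inj (A : Sys K B β N) {i j : Fin N} {s s' : B → ℕ} {τ : K → Option (Option Bool)}
    (hi : A.Ev i s τ) (hj : A.Ev j s' τ) (hr : ∀ c, rc β (A.S i) τ c = rc β (A.S j) τ c)
    (hf : ∀ c, s c + fc β (A.S j) τ c = s' c + fc β (A.S i) τ c) : i = j ∧ s = s' := by
  rcases lt_trichotomy i j with h | h | h
  · exact (ev_lt A h hi hj hr hf).elim
  · subst h
    refine ⟨rfl, ?_⟩
    funext c
    have := hf c
    omega
  · exact (ev_lt A h hj hi (fun c => (hr c).symm) (fun c => (hf c).symm)).elim

end Pool.Agent.H27.GR
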