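import Pool.Agent.H27.GR.Sz
import Pool.Agent.H27.GR.Nx
import Pool.Agent.H27.GR.Nu
import Pool.Agent.H27.GR.UpD
import Pool.Agent.H15.LD.Depth
import Pool.Agent.H19.GR.ExpB

/-!
# The theorem
-/

namespace Pool.Agent.H27.GR

open Finset

/-- Blocks of almost equal size. -/
theorem blocks (n b : ℕ) (hb : 1 ≤ b) (hn : b * b ≤ n) :
    ∃ β : Fin n → Fin (n / b), (∀ j, (univ.filter fun v => β v = j).card ≤ b + 1) ∧
      ∀ p ≤ b, ∃ X : Finset (Fin n), ∀ j, (X.filter fun v => β v = j).card = p := by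
  have hbM : b ≤ n / b := (Nat.le_div_iff_mul_le (by omega)).2 hn
  have hM : 0 < n / b := by omega
  have hlt : n < (n / b) * (b + 1) := by
    have h1 : n < b * (n / b + 1) := by
      have := Nat.lt_mul_div_succ n (show 0 < b by omega)
      simpa using this
    calc n < b * (n / b + 1) := h1
      _ = b * (n / b) + b := by ring
      _ ≤ b * (n / b) + n / b := Nat.add_le_add_left hbM _
      _ = (n / b) * (b + 1) := by ring
  have hle : b * (n / b) ≤ n := Nat.mul_div_le n b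
  refine ⟨fun v => ⟨v.1 % (n / b), Nat.mod_lt _ hM⟩, ?_, ?_⟩
  · intro j
    have h1 : (univ.filter fun v : Fin n => (⟨v.1 % (n / b), Nat.mod_lt _ hM⟩ : Fin (n / b)) = j).card ≤
        (range (b + 1)).card := by
      refine Finset.card_le_card_of_injOn (fun v => v.1 / (n / b)) ?_ ?_
      · intro v _
        rw [Finset.mem_coe, Finset.mem_range]
        exact Nat.div_lt_of_lt_mul (lt_trans v.2 hlt)
      · intro v hv v' hv' h
        rw [Finset.mem_coe, Finset.mem_filter] at hv hv'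
        have h2 : v.1 % (n / b) = v'.1 % (n / b) := by
          have h3 := congrArg Fin.val hv.2
          have h4 := congrArg Fin.val hv'.2
          simp only at h3 h4
          rw [h3, h4]
        have h5 : v.1 / (n / b) = v'.1 / (n / b) := h
        apply Fin.ext
        rw [← Nat.div_add_mod v.1 (n / b), ← Nat.div_add_mod v'.1 (n / b), h2, h5]
    rw [Finset.card_range] at h1
    exact h1
  · intro p hp
    refine ⟨univ.filter fun v => v.1 / (n / b) < p, ?_⟩
    intro j
    have hlt2 : ∀ q < p, q * (n / b) + j.1 < n := by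
      intro q hq
      calc q * (n / b) + j.1 < q * (n / b) + n / b := Nat.add_lt_add_left j.2 _
        _ = (q + 1) * (n / b) := by ring
        _ ≤ b * (n / b) := Nat.mul_le_mul_right _ (by omega)
        _ ≤ n := hle
    have hd : ∀ q, (q * (n / b) + j.1) / (n / b) = q ∧ (q * (n / b) + j.1) % (n / b) = j.1 := by
      intro q
      constructor
      · rw [mul_comm, Nat.mul_add_div hM, Nat.div_eq_of_lt j.2, add_zero]
      · rw [mul_comm, Nat.mul_add_mod, Nat.mod_eq_of_lt j.2]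
    have h1 : (range (p)).card = ((univ.filter fun v : Fin n => v.1 / (n / b) < p).filter
        fun v => (⟨v.1 % (n / b), Nat.mod_lt _ hM⟩ : Fin (n / b)) = j).card := by
      refine Finset.card_bij (fun q hq => (⟨q * (n / b) + j.1, hlt2 q (Finset.mem_range.1 hq)⟩ : Fin n)) ?_ ?_ ?_
      · intro q hq
        rw [Finset.mem_filter, Finset.mem_filter]
        refine ⟨⟨Finset.mem_univ _, ?_⟩, ?_⟩
        · change (q * (n / b) + j.1) / (n / b) < p
          rw [(hd q).1]
          exact Finset.mem_range.1 hq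
        · apply Fin.ext
          exact (hd q).2
      · intro q hq q' hq' h
        have h2 := congrArg Fin.val h
        have h3 : q * (n / b) + j.1 = q' * (n / b) + j.1 := h2
        have h4 : (q * (n / b) + j.1) / (n / b) = (q' * (n / b) + j.1) / (n / b) := by rw [h3]
        rw [(hd q).1, (hd q').1] at h4
        exact h4
      · intro v hv
        rw [Finset.mem_filter, Finset.mem_filter] at hv
        refine ⟨v.1 / (n / b), Finset.mem_range.2 hv.1.2, ?_⟩
        apply Fin.ext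
        have h2 : v.1 % (n / b) = j.1 := congrArg Fin.val hv.2
        change v.1 / (n / b) * (n / b) + j.1 = v.1
        rw [← h2, mul_comm]
        exact Nat.div_add_mod v.1 (n / b)
    rw [← h1, Finset.card_range]

/-- The final statement. -/
theorem final4 (ε : ℝ) (hε : 0 < ε) (hε1 : ε ≤ 1) : ∃ c : ℝ, 0 < c ∧ ∃ k₀ : ℕ, ∀ k ≥ k₀,
    ∃ n₀ : ℕ, ∀ n ≥ n₀,
    ∃ F : Finset (Finset (Fin n × Bool)), (∀ D ∈ F, D.card ≤ k) ∧ F.card ≤ 2 ^ k * n ∧
      (¬ ∃ x, ∀ D ∈ F, ClauseSat x D) ∧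
      (∀ R : Refutation F, (1537 / 1000 : ℝ) ^ n ≤ R.size) ∧
      (∃ R : DepthRefutation F (k * n), (R.size : ℝ) ≤ (√3 + ε) ^ n) ∧
      ∀ d : ℕ, (d : ℝ) ≤ c * k * n → ∀ R : DepthRefutation F d, (2 - ε) ^ n ≤ R.size := by
  obtain ⟨δ, hδ, hnum⟩ := numbers4 ε hε hε1
  obtain ⟨p, hp, w', M₀, hexp⟩ := Pool.Agent.H19.GR.B.expansion δ hδ
  obtain ⟨c, hc0, b₀, hb01, hpb0, x, hx0, hx1, hnum⟩ := hnum p hp.two_le
  have : Fact p.Prime := ⟨hp⟩
  obtain ⟨w, hw1⟩ : ∃ w : ℕ, w = w' + 1 := ⟨_, rfl⟩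
  have hwR : (1 : ℝ) ≤ w := by
    rw [hw1]; push_cast; linarith [Nat.cast_nonneg (α := ℝ) w']
  refine ⟨c / (2 * w), by positivity, w * (b₀ + 1) + 6 * w + 1, fun k hk => ?_⟩
  obtain ⟨b, hb⟩ : ∃ b : ℕ, b + 1 = (k - 1) / w := by
    refine ⟨(k - 1) / w - 1, ?_⟩
    have h1 : 1 ≤ (k - 1) / w := by
      rw [Nat.le_div_iff_mul_le (by omega)]
      have : w ≤ w * (b₀ + 1) := Nat.le_mul_of_pos_right _ (by omega)
      omega
    omega
  have hbk : w * (b + 1) + 1 ≤ k := by
    rw [hb]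
    have := Nat.mul_div_le (k - 1) w
    omega
  have hbb : b₀ ≤ b := by
    have h1 : b₀ + 1 ≤ (k - 1) / w := by
      rw [Nat.le_div_iff_mul_le (by omega), mul_comm]
      omega
    omega
  have hkb : (k : ℝ) ≤ 2 * w * b := by
    have h1 : k - 1 < w * (b + 1 + 1) := by
      rw [hb]
      exact Nat.lt_mul_div_succ _ (by omega)
    have h2 : k ≤ w * (b + 1 + 1) := by omega
    have h3 : 6 * w + 1 ≤ k := by omega
    have h4 : w * (b + 1 + 1) = w * b + 2 * w := by ring
    have h5 : k ≤ 2 * w * b := by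
      have h6 : 2 * w * b = w * b + w * b := by ring
      omega
    exact_mod_cast h5
  have hb1 : 1 ≤ b := hb01.trans hbb
  have hpb : p ≤ b := hpb0.trans hbb
  obtain ⟨n₀, hn0⟩ := hnum b hbb w
  refine ⟨max n₀ (max (b * (M₀ + 1)) (max (b * b) (w * (b + 1)))), fun n hn => ?_⟩
  have h1 : n₀ ≤ n := le_trans (le_max_left _ _) hn
  have h2 : b * (M₀ + 1) ≤ n := le_trans (le_trans (le_max_left _ _) (le_max_right _ _)) hn
  have h3 : b * b ≤ n := le_trans (le_trans (le_trans (le_max_left _ _) (le_max_right _ _))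
    (le_max_right _ _)) hn
  have h3' : w * (b + 1) ≤ n := le_trans (le_trans (le_trans (le_max_right _ _)
    (le_max_right _ _)) (le_max_right _ _)) hn
  have hM : M₀ ≤ n / b := by
    have h4 : M₀ + 1 ≤ n / b := (Nat.le_div_iff_mul_le (by omega)).2 (by rw [mul_comm]; exact h2)
    omega
  obtain ⟨β, hβ, hX⟩ := blocks n b hb1 h3
  obtain ⟨X, hX1⟩ := hX (p - 1) (by omega)
  have hfib : ∀ j, p - 1 ≤ (univ.filter fun v => β v = j).card := by
    intro j
    rw [← hX1 j]
    exact card_le_card (filter_subset_filter _ (subset_univ _))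
  obtain ⟨r, m, hr, hm, E, c', hw', hE, hc, hun⟩ := hexp (n / b) hM
  have hw : ∀ e, (univ.filter fun j => E e j ≠ 0).card ≤ w := fun e => (hw' e).trans (by omega)
  obtain ⟨hn1, hn2, f, S, hS, hn3⟩ := hn0 n h1
  refine ⟨formula β E c', fun D hD => (formula_width β E c' hw hβ D hD).trans (by omega), ?_,
    formula_unsat β E c' hun, ?_, ?_, ?_⟩
  · calc (formula β E c').card ≤ m * 2 ^ (w * (b + 1)) := formula_card β E c' hw hβ
      _ ≤ (2 * n) * 2 ^ (w * (b + 1)) :=
        Nat.mul_le_mul_right _ (le_trans hm (Nat.mul_le_mul_left 2 (Nat.div_le_self n b)))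
      _ = 2 ^ (w * (b + 1) + 1) * n := by ring
      _ ≤ 2 ^ k * n := Nat.mul_le_mul_right _ (Nat.pow_le_pow_right (by norm_num) hbk)
  · intro R
    have h4 := size_ge β E c' hr hE hc hβ X hX1 R
    have h5 := card_small (K := {v // v ∉ X}) (⌈δ * ((n / b : ℕ) : ℝ)⌉₊ * (b + 1) + p * (n / b)) x
      hx0 hx1
    have h6 : Fintype.card {v // v ∉ X} ≤ n := by
      have h7 := Fintype.card_subtype_le (fun v : Fin n => v ∉ X)
      rwa [Fintype.card_fin] at h7
    have h8 : (1 + x) ^ Fintype.card {v // v ∉ X} ≤ (1 + x) ^ n :=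
      pow_le_pow_right₀ (by linarith) h6
    refine hn1 (R.size : ℝ) _ (Nat.cast_nonneg _) (Nat.cast_nonneg _) (le_trans h5 h8) ?_
    rw [Fintype.card_fin] at h4
    have h9 : (((b + 1 : ℕ) : ℝ) + 1) = (b : ℝ) + 1 + 1 := by push_cast; ring
    rw [h9] at h4
    exact h4
  · obtain ⟨R, hR⟩ := upperD β E c' hw hβ hun
    have h4 : (R.size : ℝ) ≤ 3 ^ (n / 2) * 2 ^ (n / b + w * (b + 1) + 1) := by
      have hR' : R.size ≤ 3 ^ (n / 2) * 2 ^ (n / b + w * (b + 1) + 1) :=
        hR.trans_eq (by simp only [Fintype.card_fin])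
      exact_mod_cast hR'
    refine ⟨⟨R.size, R.line, R.height, R.step, ?_⟩, h4.trans hn2⟩
    obtain ⟨i, hi1, hi2⟩ := R.root
    refine ⟨i, hi1, hi2.trans ?_⟩
    rw [Fintype.card_fin]
    calc (n + 1) * (w * (b + 1)) = w * (b + 1) * n + w * (b + 1) := by ring
      _ ≤ w * (b + 1) * n + n := Nat.add_le_add_left h3' _
      _ = (w * (b + 1) + 1) * n := by ring
      _ ≤ k * n := Nat.mul_le_mul_right _ hbk
  · intro d hd R
    have hd' : (d : ℝ) ≤ c * b * n := by
      refine hd.trans (mul_le_mul_of_nonneg_right ?_ (Nat.cast_nonneg n))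
      have h4 : c / (2 * w) * k ≤ c / (2 * w) * (2 * w * b) :=
        mul_le_mul_of_nonneg_left hkb (by positivity)
      refine h4.trans (le_of_eq ?_)
      field_simp
    have h4 := Pool.Agent.H15.LD.depth_size_ge β E c' hr hE hc hfib hβ (f := f) (S := S) R (hS d hd')
    have h5 := card_small (K := Fin n) (f + (⌈δ * ((n / b : ℕ) : ℝ)⌉₊ * (b + 1) +
      (S + 2) * p * (n / b))) x hx0 hx1
    rw [Fintype.card_fin] at h4 h5
    exact hn3 (R.size : ℝ) _ (Nat.cast_nonneg _) (Nat.cast_nonneg _) h5 (by exact_mod_cast h4)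

end Pool.Agent.H27.GR
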