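import Pool.Agent.H27.GR.Fo

/-!
# The first clause that is alive is refuted by few equations

PROOF. Step of line i. Leaf: leaf_bad gives e with I = {e}, card 1 <= 2 r. Resolution: lines j, k < i
are not alive: I_j, I_k with at most r elements such that no extension of line j (of line k)
satisfies I_j (I_k). I = I_j union I_k. Let y be an extension of line i (Ext X t (line i) y) that
satisfies I. line j is contained in insert (v, true) (line i) and line k in
insert (v, false) (line i). If y v = false then y falsifies line j: Ext X t (line j) y,
contradiction to I_j; if y v = true then y falsifies line k, contradiction to I_k.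
-/

namespace Pool.Agent.H27.GR

open Finset

section
variable {V : Type*} [Fintype V] [DecidableEq V] {M m p : ℕ} (β : V → Fin M)
  (E : Fin m → Fin M → ZMod p) (c : Fin m → ZMod p)

/-- The first alive clause is refuted by at most `2 r` equations. -/
theorem low_bad {r : ℕ} (hr : 1 ≤ r) (R : Refutation (formula β E c)) (X : Finset V)
    (t : {v // v ∉ X} → Option Bool) (i : Fin R.size)
    (hlow : ∀ j < i, ¬ Alive β E c r X (R.line j) t) :
    ∃ I : Finset (Fin m), I.card ≤ 2 * r ∧
      ¬ ∃ y, Ext X t (R.line i) y ∧ ∀ e ∈ I, EqSat β E c y e := by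
  rcases R.step i with ⟨C, hC, hCi⟩ | ⟨j, hj, k, hk, v, _, _, hsub⟩
  · obtain ⟨e, he⟩ := leaf_bad β E c hC hCi
    refine ⟨{e}, ?_, ?_⟩
    · rw [card_singleton]
      omega
    · rintro ⟨y, hy, hye⟩
      exact he y hy.2 (hye e (mem_singleton_self e))
  · have hj' := hlow j hj
    have hk' := hlow k hk
    unfold Alive at hj' hk'
    push Not at hj' hk'
    obtain ⟨I, hI, hIb⟩ := hj'
    obtain ⟨J, hJ, hJb⟩ := hk'
    refine ⟨I ∪ J, ?_, ?_⟩
    · have := card_union_le I J
      omega
    · rintro ⟨y, hy, hye⟩
      have key : ∀ l : V × Bool, l ∈ R.line i → y l.1 ≠ l.2 := fun l hl h => hy.2 ⟨l, hl, h⟩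
      cases hv : y v with
      | false =>
        obtain ⟨e, he, hne⟩ := hIb y ⟨hy.1, by
          rintro ⟨l, hl, hle⟩
          by_cases hlv : l = (v, true)
          · rw [hlv] at hle
            simp only at hle
            rw [hv] at hle
            exact absurd hle (by simp)
          · exact key l (hsub (mem_union_left _ (mem_erase.2 ⟨hlv, hl⟩))) hle⟩
        exact hne (hye e (mem_union_left _ he))
      | true =>
        obtain ⟨e, he, hne⟩ := hJb y ⟨hy.1, by
          rintro ⟨l, hl, hle⟩
          by_cases hlv : l = (v, false)
          · rw [hlv] at hle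
            simp only at hle
            rw [hv] at hle
            exact absurd hle (by simp)
          · exact key l (hsub (mem_union_right _ (mem_erase.2 ⟨hlv, hl⟩))) hle⟩
        exact hne (hye e (mem_union_right _ he))

end

end Pool.Agent.H27.GR
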