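import Mathlib

/-!
# The numbers, with eps

PROOF (compare Nu.lean, which is the case of fixed constants). c0 = 638/415, log (c0 / 1.537) >= 0.00022.
Choose x = min (1/20000) (eps/4) and eta > 0 with eta <= 10^-6 and eta * (2 * log (1/x) + 2) <= min
(10^-4) (eps/4). delta = eta / 8. Given p: b >= p, b >= 8 p / eta, b >= 100 / eta^2 (so 3 log (b+2) <=
eta b, by log y <= 2 sqrt y), b >= 8 / eps. Given w, n0 large (n >= 4 (b+1) / eta, and
n * log (1 + eps / sqrt 3) / 2 >= (w (b+1) + 1) log 2). Let M = n / b (so M b <= n), e = ceil(delta M)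
(b+1) + p M <= (delta M + 1)(b+1) + p M <= eta n, (p-1) M <= eta n, (b+2)^(3 M) <= exp (eta n).
(1) T <= (1+x)^n x^-e, so c0^n <= s * exp (eta n) * c0^(2 eta n) * (1+x)^(2n) * x^(-2 eta n), and
eta + 2 eta log c0 + 2 x + 2 eta log (1/x) <= 0.00022: 1.537^n <= s.
(2) 3^(n/2) <= (sqrt 3)^n (natural division), 2^M <= 2^(n/b) <= (1 + eps/sqrt 3)^(n/2) (reals) as
log (1 + eps / sqrt 3) >= eps / 3 for eps <= 1 and b >= 8 / eps.
(3) 2^n <= s T <= s (1+x)^n x^(-2 e): log 2 - x - 2 eta log (1/x) >= log 2 - eps/2 >= log (2 - eps)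
(log (2 - eps) <= log 2 - eps / 2 by log (1 - eps/2) <= - eps/2).
-/

namespace Pool.Agent.H27.GR

open Finset

theorem numbers2 (ε : ℝ) (hε : 0 < ε) (hε1 : ε ≤ 1) : ∃ δ : ℝ, 0 < δ ∧ ∀ p : ℕ, 2 ≤ p →
    ∃ b : ℕ, 1 ≤ b ∧ p ≤ b ∧ ∃ x : ℝ, 0 < x ∧ x ≤ 1 ∧ ∀ w : ℕ, ∃ n₀ : ℕ, ∀ n ≥ n₀,
    (∀ s T : ℝ, 0 ≤ s → 0 ≤ T →
      T * x ^ (⌈δ * (n / b : ℕ)⌉₊ * (b + 1) + p * (n / b)) ≤ (1 + x) ^ n →
      (638 / 415 : ℝ) ^ (n - (p - 1) * (n / b)) ≤
        s * (b + 1 + 1) ^ (3 * (n / b)) *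
          (638 / 415) ^ (⌈δ * (n / b : ℕ)⌉₊ * (b + 1) + p * (n / b)) * T ^ 2 →
      (1537 / 1000 : ℝ) ^ n ≤ s) ∧
    (3 : ℝ) ^ (n / 2) * 2 ^ (n / b + w * (b + 1) + 1) ≤ (√3 + ε) ^ n ∧
    (∀ s T : ℝ, 0 ≤ s → 0 ≤ T →
      T * x ^ (2 * (⌈δ * (n / b : ℕ)⌉₊ * (b + 1) + p * (n / b))) ≤ (1 + x) ^ n →
      (2 : ℝ) ^ n ≤ s * T → (2 - ε) ^ n ≤ s) := by
  obtain ⟨x, hx0, hxa, hxb⟩ : ∃ x : ℝ, 0 < x ∧ x ≤ 1 / 20000 ∧ x ≤ ε / 4 :=
    ⟨min (1 / 20000) (ε / 4), lt_min (by norm_num) (by linarith), min_le_left _ _,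
      min_le_right _ _⟩
  obtain ⟨l, hl⟩ : ∃ l : ℝ, l = -Real.log x := ⟨_, rfl⟩
  have hl0 : 0 ≤ l := by
    have := Real.log_nonpos hx0.le (by linarith)
    linarith
  obtain ⟨η, hη0, hη1, hη2, hη3⟩ : ∃ η : ℝ, 0 < η ∧ η ≤ 1 / 1000000 ∧
      η * (2 * l + 2) ≤ 1 / 10000 ∧ η * (2 * l + 2) ≤ ε / 4 := by
    have hL : 0 < 2 * l + 2 := by linarith
    refine ⟨min (1 / 1000000) (min (1 / 10000) (ε / 4) / (2 * l + 2)),
      lt_min (by norm_num) (div_pos (lt_min (by norm_num) (by linarith)) hL),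
      min_le_left _ _, ?_, ?_⟩
    · have h1 : min (1 / 1000000) (min (1 / 10000) (ε / 4) / (2 * l + 2)) ≤
          min (1 / 10000) (ε / 4) / (2 * l + 2) := min_le_right _ _
      have h2 := (le_div_iff₀ hL).mp h1
      exact h2.trans (min_le_left _ _)
    · have h1 : min (1 / 1000000) (min (1 / 10000) (ε / 4) / (2 * l + 2)) ≤
          min (1 / 10000) (ε / 4) / (2 * l + 2) := min_le_right _ _
      have h2 := (le_div_iff₀ hL).mp h1
      exact h2.trans (min_le_right _ _)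
  refine ⟨η / 8, by positivity, ?_⟩
  intro p hp
  have hpR : (2 : ℝ) ≤ p := by exact_mod_cast hp
  obtain ⟨b, hb⟩ := exists_nat_ge (8 * (p : ℝ) / η + 100 / η ^ 2 + 8 / ε + p + 1)
  have t1 : 0 ≤ 8 * (p : ℝ) / η := by positivity
  have t2 : 0 ≤ 100 / η ^ 2 := by positivity
  have t3 : 0 ≤ 8 / ε := by positivity
  have hbp : (p : ℝ) ≤ b := by linarith
  have hb2 : (2 : ℝ) ≤ b := by linarith
  have hb0 : (0 : ℝ) < b := by linarith
  have hb3 : 8 * (p : ℝ) ≤ η * b := by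
    have h1 : 8 * (p : ℝ) / η ≤ b := by linarith
    have h2 := (div_le_iff₀ hη0).mp h1
    linarith
  have hb4 : 100 ≤ η ^ 2 * b := by
    have h1 : 100 / η ^ 2 ≤ b := by linarith
    have h2 := (div_le_iff₀ (by positivity)).mp h1
    linarith
  have hb5 : 8 ≤ ε * b := by
    have h1 : 8 / ε ≤ b := by linarith
    have h2 := (div_le_iff₀ hε).mp h1
    linarith
  refine ⟨b, ?_, ?_, x, hx0, by linarith, ?_⟩
  · have : (1 : ℝ) ≤ b := by linarith
    exact_mod_cast this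
  · exact_mod_cast hbp
  intro w
  obtain ⟨n₀, hn₀⟩ := exists_nat_ge (4 * ((b : ℝ) + 1) / η + 8 * ((w : ℝ) * (b + 1) + 1) / ε + 1)
  refine ⟨n₀, ?_⟩
  intro n hn
  have t4 : 0 ≤ 4 * ((b : ℝ) + 1) / η := by positivity
  have t5 : 0 ≤ 8 * ((w : ℝ) * (b + 1) + 1) / ε := by positivity
  have hnn : (n₀ : ℝ) ≤ n := by exact_mod_cast hn
  have hn0 : (0 : ℝ) < n := by linarith
  have hn1 : 4 * ((b : ℝ) + 1) ≤ η * n := by
    have h1 : 4 * ((b : ℝ) + 1) / η ≤ n := by linarith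
    have h2 := (div_le_iff₀ hη0).mp h1
    linarith
  have hn2 : 8 * ((w : ℝ) * (b + 1) + 1) ≤ ε * n := by
    have h1 : 8 * ((w : ℝ) * (b + 1) + 1) / ε ≤ n := by linarith
    have h2 := (div_le_iff₀ hε).mp h1
    linarith
  obtain ⟨M, hM⟩ : ∃ M : ℕ, M = n / b := ⟨_, rfl⟩
  have hMb : (M : ℝ) * b ≤ n := by
    have : M * b ≤ n := by rw [hM]; exact Nat.div_mul_le_self n b
    exact_mod_cast this
  have hM0 : (0 : ℝ) ≤ M := Nat.cast_nonneg _
  rw [← hM]
  obtain ⟨e, he⟩ : ∃ e : ℕ, e = ⌈η / 8 * (M : ℝ)⌉₊ * (b + 1) + p * M := ⟨_, rfl⟩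
  rw [← he]
  have he0 : (0 : ℝ) ≤ e := Nat.cast_nonneg _
  have hpM : (p : ℝ) * M ≤ η * n / 8 := by
    have h1 : 8 * (p : ℝ) * M ≤ η * b * M := mul_le_mul_of_nonneg_right hb3 hM0
    have h2 : η * (M * b) ≤ η * n := mul_le_mul_of_nonneg_left hMb hη0.le
    nlinarith
  have heR : (e : ℝ) ≤ η * n := by
    have hceil : (⌈η / 8 * (M : ℝ)⌉₊ : ℝ) ≤ η / 8 * M + 1 :=
      (Nat.ceil_lt_add_one (by positivity)).le
    have h3 : (e : ℝ) = (⌈η / 8 * (M : ℝ)⌉₊ : ℝ) * (b + 1) + p * M := by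
      rw [he]; push_cast; ring
    have h4 : (⌈η / 8 * (M : ℝ)⌉₊ : ℝ) * (b + 1) ≤ (η / 8 * M + 1) * (b + 1) :=
      mul_le_mul_of_nonneg_right hceil (by linarith)
    have h5 : (η / 8 * (M : ℝ) + 1) * (b + 1) = η / 8 * (M * b) + η / 8 * M + (b + 1) := by ring
    have h6 : η / 8 * ((M : ℝ) * b) ≤ η / 8 * n := mul_le_mul_of_nonneg_left hMb (by linarith)
    have h7 : η / 8 * (M : ℝ) ≤ η / 8 * n := by
      apply mul_le_mul_of_nonneg_left _ (by linarith)
      nlinarith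
    rw [h3]
    linarith
  have hkR : (((p - 1) * M : ℕ) : ℝ) ≤ η * n / 8 := by
    have h3 : (p - 1) * M ≤ p * M := Nat.mul_le_mul_right _ (Nat.sub_le _ _)
    have h4 : (((p - 1) * M : ℕ) : ℝ) ≤ ((p * M : ℕ) : ℝ) := by exact_mod_cast h3
    push_cast at h4 ⊢
    linarith
  obtain ⟨k, hk⟩ : ∃ k : ℕ, k = (p - 1) * M := ⟨_, rfl⟩
  rw [← hk] at hkR
  rw [← hk]
  have hk0 : (0 : ℝ) ≤ k := Nat.cast_nonneg _
  have lx1 : Real.log (1 + x) ≤ x := by
    have := Real.log_le_sub_one_of_pos (show (0 : ℝ) < 1 + x by linarith)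
    linarith
  refine ⟨?_, ?_, ?_⟩
  · intro s T hs hT h1 h2
    have lc0 : 0 ≤ Real.log (638 / 415) := Real.log_nonneg (by norm_num)
    have lc1 : Real.log (638 / 415) ≤ 1 := by
      have := Real.log_le_sub_one_of_pos (show (0 : ℝ) < 638 / 415 by norm_num)
      linarith
    have l1537 : Real.log (1537 / 1000) ≤ Real.log (638 / 415) - 0.00022 := by
      have h3 := Real.one_sub_inv_le_log_of_pos
        (show (0 : ℝ) < (638 / 415) / (1537 / 1000) by norm_num)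
      rw [Real.log_div (by norm_num) (by norm_num)] at h3
      norm_num at h3 ⊢
      linarith
    have lb : 3 * Real.log ((b : ℝ) + 1 + 1) ≤ η * b := by
      have hy : (0 : ℝ) < (b : ℝ) + 1 + 1 := by linarith
      have h3 : Real.log (Real.sqrt ((b : ℝ) + 1 + 1)) = Real.log ((b : ℝ) + 1 + 1) / 2 :=
        Real.log_sqrt hy.le
      have h4 := Real.log_le_sub_one_of_pos (Real.sqrt_pos.mpr hy)
      have h5 : Real.sqrt ((b : ℝ) + 1 + 1) ≤ η * b / 6 := by
        apply Real.sqrt_le_iff.mpr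
        refine ⟨by positivity, ?_⟩
        have h6 : 100 * (b : ℝ) ≤ η ^ 2 * b * b := mul_le_mul_of_nonneg_right hb4 hb0.le
        have h7 : (η * b / 6) ^ 2 = η ^ 2 * b * b / 36 := by ring
        rw [h7]
        linarith
      linarith
    have hMlb : (3 * (M : ℝ)) * Real.log ((b : ℝ) + 1 + 1) ≤ η * n := by
      calc (3 * (M : ℝ)) * Real.log ((b : ℝ) + 1 + 1) =
            M * (3 * Real.log ((b : ℝ) + 1 + 1)) := by ring
        _ ≤ M * (η * b) := mul_le_mul_of_nonneg_left lb hM0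
        _ = η * (M * b) := by ring
        _ ≤ η * n := mul_le_mul_of_nonneg_left hMb hη0.le
    by_contra hcon
    push Not at hcon
    have hx0' : (0 : ℝ) < x ^ e := by positivity
    have h3 : (638 / 415 : ℝ) ^ (n - k) * (x ^ e) ^ 2 ≤
        (1537 / 1000 : ℝ) ^ n * ((b : ℝ) + 1 + 1) ^ (3 * M) * (638 / 415 : ℝ) ^ e *
          ((1 + x : ℝ) ^ n) ^ 2 := by
      have h4 : (T * x ^ e) ^ 2 ≤ ((1 + x : ℝ) ^ n) ^ 2 :=
        pow_le_pow_left₀ (by positivity) h1 2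
      have h5 : s * ((b : ℝ) + 1 + 1) ^ (3 * M) * (638 / 415 : ℝ) ^ e * T ^ 2 *
          (x ^ e) ^ 2 ≤ (1537 / 1000 : ℝ) ^ n * ((b : ℝ) + 1 + 1) ^ (3 * M) *
            (638 / 415 : ℝ) ^ e * ((1 + x : ℝ) ^ n) ^ 2 := by
        calc s * ((b : ℝ) + 1 + 1) ^ (3 * M) * (638 / 415 : ℝ) ^ e * T ^ 2 *
            (x ^ e) ^ 2 = s * (((b : ℝ) + 1 + 1) ^ (3 * M) *
              (638 / 415 : ℝ) ^ e * (T * x ^ e) ^ 2) := by ring
          _ ≤ (1537 / 1000 : ℝ) ^ n * (((b : ℝ) + 1 + 1) ^ (3 * M) *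
              (638 / 415 : ℝ) ^ e * (T * x ^ e) ^ 2) :=
              mul_le_mul_of_nonneg_right hcon.le (by positivity)
          _ ≤ (1537 / 1000 : ℝ) ^ n * (((b : ℝ) + 1 + 1) ^ (3 * M) *
              (638 / 415 : ℝ) ^ e * ((1 + x : ℝ) ^ n) ^ 2) := by
              apply mul_le_mul_of_nonneg_left _ (by positivity)
              exact mul_le_mul_of_nonneg_left h4 (by positivity)
          _ = _ := by ring
      refine le_trans ?_ h5
      exact mul_le_mul_of_nonneg_right h2 (by positivity)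
    have h4 : (638 / 415 : ℝ) ^ n ≤ (638 / 415 : ℝ) ^ (n - k) * (638 / 415 : ℝ) ^ k := by
      rw [← pow_add]
      exact pow_le_pow_right₀ (by norm_num) (by omega)
    have h5 : (638 / 415 : ℝ) ^ n * (x ^ e) ^ 2 ≤
        (1537 / 1000 : ℝ) ^ n * ((b : ℝ) + 1 + 1) ^ (3 * M) * (638 / 415 : ℝ) ^ e *
          ((1 + x : ℝ) ^ n) ^ 2 * (638 / 415 : ℝ) ^ k := by
      calc (638 / 415 : ℝ) ^ n * (x ^ e) ^ 2 ≤
          (638 / 415 : ℝ) ^ (n - k) * (638 / 415 : ℝ) ^ k * (x ^ e) ^ 2 :=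
            mul_le_mul_of_nonneg_right h4 (by positivity)
        _ = (638 / 415 : ℝ) ^ (n - k) * (x ^ e) ^ 2 * (638 / 415 : ℝ) ^ k := by ring
        _ ≤ _ := mul_le_mul_of_nonneg_right h3 (by positivity)
    have h6 := Real.log_le_log (by positivity) h5
    rw [Real.log_mul (by positivity) (by positivity), Real.log_mul (by positivity) (by positivity),
      Real.log_mul (by positivity) (by positivity), Real.log_mul (by positivity) (by positivity),
      Real.log_mul (by positivity) (by positivity)] at h6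
    simp only [Real.log_pow] at h6
    push_cast at h6
    have hlx : Real.log x = -l := by rw [hl]; ring
    rw [hlx] at h6
    have q1 : (n : ℝ) * Real.log (1537 / 1000) ≤ n * (Real.log (638 / 415) - 0.00022) :=
      mul_le_mul_of_nonneg_left l1537 hn0.le
    have q2 : (e : ℝ) * Real.log (638 / 415) ≤ η * n := by
      calc (e : ℝ) * Real.log (638 / 415) ≤ e * 1 := mul_le_mul_of_nonneg_left lc1 he0
        _ ≤ _ := by linarith
    have q3 : (k : ℝ) * Real.log (638 / 415) ≤ η * n / 8 := by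
      calc (k : ℝ) * Real.log (638 / 415) ≤ k * 1 := mul_le_mul_of_nonneg_left lc1 hk0
        _ ≤ _ := by linarith
    have q4 : (e : ℝ) * l ≤ η * n * l := mul_le_mul_of_nonneg_right heR hl0
    have q5 : (n : ℝ) * Real.log (1 + x) ≤ n * x := mul_le_mul_of_nonneg_left lx1 hn0.le
    have q6 : (n : ℝ) * x ≤ n * (1 / 20000) := mul_le_mul_of_nonneg_left hxa hn0.le
    have q7 : η * (2 * l + 2) * n ≤ 1 / 10000 * n := mul_le_mul_of_nonneg_right hη2 hn0.le
    have q8 : η * n ≤ 1 / 1000000 * n := mul_le_mul_of_nonneg_right hη1 hn0.le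
    have q9 : η * (2 * l + 2) * n = 2 * (η * n * l) + 2 * (η * n) := by ring
    have q10 : (n : ℝ) * (Real.log (638 / 415) - 0.00022) =
        n * Real.log (638 / 415) - 0.00022 * n := by ring
    linarith
  · have h3 : (0 : ℝ) < √3 := Real.sqrt_pos.mpr (by norm_num)
    have h3' : √3 ≤ 2 := by
      rw [Real.sqrt_le_iff]
      norm_num
    have hl3 : Real.log (√3) = Real.log 3 / 2 := Real.log_sqrt (by norm_num)
    have hlog3 : 0 ≤ Real.log 3 := Real.log_nonneg (by norm_num)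
    have hlog2 : Real.log 2 ≤ 1 := by
      have := Real.log_le_sub_one_of_pos (show (0 : ℝ) < 2 by norm_num)
      linarith
    have hlog20 : 0 ≤ Real.log 2 := Real.log_nonneg (by norm_num)
    have hadd : Real.log (√3) + ε / 3 ≤ Real.log (√3 + ε) := by
      have h4 := Real.one_sub_inv_le_log_of_pos (show (0 : ℝ) < (√3 + ε) / √3 by positivity)
      rw [Real.log_div (by positivity) (by positivity)] at h4
      have h5 : ε / 3 ≤ 1 - ((√3 + ε) / √3)⁻¹ := by
        have h6 : 1 - ((√3 + ε) / √3)⁻¹ = ε / (√3 + ε) := by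
          field_simp
          ring
        rw [h6]
        exact div_le_div_of_nonneg_left hε.le (by positivity) (by linarith)
      linarith
    have hN2 : ((n / 2 : ℕ) : ℝ) ≤ n / 2 := Nat.cast_div_le
    have hlhs : (0 : ℝ) < (3 : ℝ) ^ (n / 2) * 2 ^ (M + w * (b + 1) + 1) := by positivity
    rw [← Real.log_le_log_iff hlhs (by positivity), Real.log_mul (by positivity) (by positivity),
      Real.log_pow, Real.log_pow, Real.log_pow]
    push_cast
    have r1 : ((n / 2 : ℕ) : ℝ) * Real.log 3 ≤ n / 2 * Real.log 3 :=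
      mul_le_mul_of_nonneg_right hN2 hlog3
    have r2 : ((M : ℝ) + w * (b + 1) + 1) * Real.log 2 ≤ (M : ℝ) + w * (b + 1) + 1 := by
      have : (0 : ℝ) ≤ (M : ℝ) + w * (b + 1) + 1 := by positivity
      nlinarith
    have r3 : 8 * (M : ℝ) ≤ ε * n := by
      have h7 : 8 * (M : ℝ) ≤ ε * b * M := mul_le_mul_of_nonneg_right hb5 hM0
      have h8 : ε * (M * b) ≤ ε * n := mul_le_mul_of_nonneg_left hMb hε.le
      nlinarith
    have r4 : (n : ℝ) * (Real.log (√3) + ε / 3) ≤ n * Real.log (√3 + ε) :=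
      mul_le_mul_of_nonneg_left hadd hn0.le
    have r5 : (n : ℝ) * (Real.log (√3) + ε / 3) = n / 2 * Real.log 3 + ε * n / 3 := by
      rw [hl3]; ring
    have r6 : 0 ≤ ε * n := by positivity
    linarith
  · intro s T hs hT h1 h2
    by_contra hcon
    push Not at hcon
    have h2e : (0 : ℝ) < 2 - ε := by linarith
    have hx0' : (0 : ℝ) < x ^ (2 * e) := by positivity
    have h3 : (2 : ℝ) ^ n * x ^ (2 * e) ≤ (2 - ε) ^ n * (1 + x) ^ n := by
      calc (2 : ℝ) ^ n * x ^ (2 * e) ≤ s * T * x ^ (2 * e) :=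
            mul_le_mul_of_nonneg_right h2 hx0'.le
        _ = s * (T * x ^ (2 * e)) := by ring
        _ ≤ (2 - ε) ^ n * (T * x ^ (2 * e)) :=
            mul_le_mul_of_nonneg_right hcon.le (by positivity)
        _ ≤ (2 - ε) ^ n * (1 + x) ^ n := mul_le_mul_of_nonneg_left h1 (by positivity)
    have h6 := Real.log_le_log (by positivity) h3
    rw [Real.log_mul (by positivity) (by positivity), Real.log_mul (by positivity) (by positivity),
      Real.log_pow, Real.log_pow, Real.log_pow, Real.log_pow] at h6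
    push_cast at h6
    have hlx : Real.log x = -l := by rw [hl]; ring
    rw [hlx] at h6
    have l2 : Real.log (2 - ε) ≤ Real.log 2 - ε / 2 := by
      have h7 := Real.log_le_sub_one_of_pos (show (0 : ℝ) < (2 - ε) / 2 by positivity)
      rw [Real.log_div (by positivity) (by norm_num)] at h7
      linarith
    have q1 : (n : ℝ) * Real.log (2 - ε) ≤ n * (Real.log 2 - ε / 2) :=
      mul_le_mul_of_nonneg_left l2 hn0.le
    have q4 : (e : ℝ) * l ≤ η * n * l := mul_le_mul_of_nonneg_right heR hl0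
    have q5 : (n : ℝ) * Real.log (1 + x) ≤ n * x := mul_le_mul_of_nonneg_left lx1 hn0.le
    have q6 : (n : ℝ) * x ≤ n * (ε / 4) := mul_le_mul_of_nonneg_left hxb hn0.le
    have q7 : η * (2 * l + 2) * n ≤ ε / 4 * n := mul_le_mul_of_nonneg_right hη3 hn0.le
    have q8 : 0 < η * n := by positivity
    have q9 : η * (2 * l + 2) * n = 2 * (η * n * l) + 2 * (η * n) := by ring
    have q10 : (n : ℝ) * (Real.log 2 - ε / 2) = n * Real.log 2 - n * (ε / 4) - ε / 4 * n := by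
      ring
    linarith

end Pool.Agent.H27.GR
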