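import Pool.Agent.H27.GR.Defs

/-!
# Lemma B for general weights
-/

namespace Pool.Agent.H27.GR

open Finset

section Gen

variable (W1 : Option Bool → ℝ) (W2 : Option (Option Bool) → ℝ)

open Classical in
/-- weight of the family `Z` in the first test -/
private noncomputable def Q1 {n : ℕ} (S : Finset (Fin n)) (a : Fin n → Bool)
    (Z : Set (Fin n → Option Bool)) : ℝ :=
  ∑ t : Fin n → Option Bool, if t ∈ Z ∧ Cub S a t then ∏ v, W1 (t v) else 0

open Classical in
/-- weight of an event in the second test -/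
private noncomputable def Q2 {n : ℕ} (E : Set (Fin n → Option (Option Bool))) : ℝ :=
  ∑ τ : Fin n → Option (Option Bool), if τ ∈ E then ∏ v, W2 (τ v) else 0

/-- the event -/
private def EE {n : ℕ} (S : Finset (Fin n)) (a : Fin n → Bool)
    (Z : Set (Fin n → Option Bool)) : Set (Fin n → Option (Option Bool)) :=
  {τ | Adm S a τ ∧ Win S τ Z}

private theorem sum_cons {α : Type*} [Fintype α] {n : ℕ} (F : (Fin (n + 1) → α) → ℝ) :
    ∑ t : Fin (n + 1) → α, F t = ∑ x : α, ∑ t : Fin n → α, F (Fin.cons x t) := by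
  rw [← (Fin.consEquiv (fun _ : Fin (n + 1) => α)).sum_comp, Fintype.sum_prod_type]
  rfl

/-- slice -/
private def sl {α : Type*} {n : ℕ} (x : α) (Z : Set (Fin (n + 1) → α)) : Set (Fin n → α) :=
  {t | (Fin.cons x t : Fin (n + 1) → α) ∈ Z}

/-- rest of `S` -/
private def SS {n : ℕ} (S : Finset (Fin (n + 1))) : Finset (Fin n) :=
  univ.filter fun i => i.succ ∈ S

private theorem mem_SS {n : ℕ} (S : Finset (Fin (n + 1))) (i : Fin n) :
    i ∈ SS S ↔ i.succ ∈ S := by
  simp [SS]

private theorem cub_cons_in {n : ℕ} {S : Finset (Fin (n + 1))} (h0 : (0 : Fin (n + 1)) ∈ S)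
    (a : Fin (n + 1) → Bool) (x : Option Bool) (t : Fin n → Option Bool) :
    Cub S a (Fin.cons x t : Fin (n + 1) → Option Bool) ↔
      x ≠ none ∧ Cub (SS S) (fun i => a i.succ) t := by
  unfold Cub
  rw [Fin.forall_fin_succ, Fin.forall_fin_succ]
  simp only [Fin.cons_zero, Fin.cons_succ, mem_SS, h0, not_true_eq_false, IsEmpty.forall_iff,
    true_and, forall_const]
  tauto

private theorem cub_cons_out {n : ℕ} {S : Finset (Fin (n + 1))} (h0 : (0 : Fin (n + 1)) ∉ S)
    (a : Fin (n + 1) → Bool) (x : Option Bool) (t : Fin n → Option Bool) :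
    Cub S a (Fin.cons x t : Fin (n + 1) → Option Bool) ↔
      (x = none ∨ x = some (a 0)) ∧ Cub (SS S) (fun i => a i.succ) t := by
  unfold Cub
  rw [Fin.forall_fin_succ, Fin.forall_fin_succ]
  simp only [Fin.cons_zero, Fin.cons_succ, mem_SS, h0, not_false_eq_true, IsEmpty.forall_iff,
    true_and, forall_const]
  tauto

private theorem adm_cons_in {n : ℕ} {S : Finset (Fin (n + 1))} (h0 : (0 : Fin (n + 1)) ∈ S)
    (a : Fin (n + 1) → Bool) (x : Option (Option Bool)) (t : Fin n → Option (Option Bool)) :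
    Adm S a (Fin.cons x t : Fin (n + 1) → Option (Option Bool)) ↔
      Adm (SS S) (fun i => a i.succ) t := by
  unfold Adm
  rw [Fin.forall_fin_succ]
  simp only [Fin.cons_zero, Fin.cons_succ, mem_SS, h0, not_true_eq_false, IsEmpty.forall_iff,
    true_and]

private theorem adm_cons_out {n : ℕ} {S : Finset (Fin (n + 1))} (h0 : (0 : Fin (n + 1)) ∉ S)
    (a : Fin (n + 1) → Bool) (x : Option (Option Bool)) (t : Fin n → Option (Option Bool)) :
    Adm S a (Fin.cons x t : Fin (n + 1) → Option (Option Bool)) ↔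
      (x = some none ∨ x = some (some (a 0))) ∧ Adm (SS S) (fun i => a i.succ) t := by
  unfold Adm
  rw [Fin.forall_fin_succ]
  simp only [Fin.cons_zero, Fin.cons_succ, mem_SS, h0, not_false_eq_true, forall_const]

private theorem mk_cons {n : ℕ} (S : Finset (Fin (n + 1))) (x : Option (Option Bool))
    (t : Fin n → Option (Option Bool)) (r g : Bool) (ρ γ : Fin n → Bool) :
    mk S (Fin.cons x t : Fin (n + 1) → Option (Option Bool)) (Fin.cons r ρ : Fin (n + 1) → Bool)
        (Fin.cons g γ : Fin (n + 1) → Bool) =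
      (Fin.cons (match x with
        | none => some g
        | some none => if (0 : Fin (n + 1)) ∈ S then some r else none
        | some (some b) => some b) (mk (SS S) t ρ γ) : Fin (n + 1) → Option Bool) := by
  funext v
  refine Fin.cases ?_ (fun i => ?_) v
  · rcases x with _ | _ | b <;> simp [mk]
  · simp [mk, mem_SS]

private theorem win_cons {n : ℕ} (S : Finset (Fin (n + 1))) (x : Option (Option Bool))
    (t : Fin n → Option (Option Bool)) (Z : Set (Fin (n + 1) → Option Bool)) :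
    Win S (Fin.cons x t : Fin (n + 1) → Option (Option Bool)) Z ↔
      ∀ r : Bool, ∀ ρ : Fin n → Bool, ∃ g : Bool, ∃ γ : Fin n → Bool,
        mk (SS S) t ρ γ ∈ sl (match x with
        | none => some g
        | some none => if (0 : Fin (n + 1)) ∈ S then some r else none
        | some (some b) => some b) Z := by
  unfold Win
  constructor
  · intro h r ρ
    obtain ⟨γ, hγ⟩ := h (Fin.cons r ρ)
    refine ⟨γ 0, Fin.tail γ, ?_⟩
    rw [← Fin.cons_self_tail γ, mk_cons] at hγ
    exact hγ
  · intro h ρ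
    obtain ⟨g, γ, hγ⟩ := h (ρ 0) (Fin.tail ρ)
    refine ⟨Fin.cons g γ, ?_⟩
    rw [← Fin.cons_self_tail ρ, mk_cons]
    exact hγ

private theorem win_none {n : ℕ} (S : Finset (Fin (n + 1)))
    (t : Fin n → Option (Option Bool)) (Z : Set (Fin (n + 1) → Option Bool)) :
    Win S (Fin.cons none t : Fin (n + 1) → Option (Option Bool)) Z ↔
      Win (SS S) t (sl (some false) Z ∪ sl (some true) Z) := by
  rw [win_cons]
  unfold Win
  simp only [Set.mem_union, forall_const, Bool.exists_bool]
  refine forall_congr' fun ρ => ?_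
  rw [exists_or]

private theorem win_rho {n : ℕ} {S : Finset (Fin (n + 1))} (h0 : (0 : Fin (n + 1)) ∈ S)
    (t : Fin n → Option (Option Bool)) (Z : Set (Fin (n + 1) → Option Bool)) :
    Win S (Fin.cons (some none) t : Fin (n + 1) → Option (Option Bool)) Z ↔
      Win (SS S) t (sl (some false) Z) ∧ Win (SS S) t (sl (some true) Z) := by
  rw [win_cons]
  unfold Win
  simp only [h0, if_true, Bool.forall_bool, exists_const]

private theorem win_out {n : ℕ} {S : Finset (Fin (n + 1))} (h0 : (0 : Fin (n + 1)) ∉ S)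
    (t : Fin n → Option (Option Bool)) (Z : Set (Fin (n + 1) → Option Bool)) :
    Win S (Fin.cons (some none) t : Fin (n + 1) → Option (Option Bool)) Z ↔
      Win (SS S) t (sl none Z) := by
  rw [win_cons]
  unfold Win
  simp only [h0, if_false, Bool.forall_bool, exists_const, and_self]

private theorem win_bit {n : ℕ} (S : Finset (Fin (n + 1))) (b : Bool)
    (t : Fin n → Option (Option Bool)) (Z : Set (Fin (n + 1) → Option Bool)) :
    Win S (Fin.cons (some (some b)) t : Fin (n + 1) → Option (Option Bool)) Z ↔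
      Win (SS S) t (sl (some b) Z) := by
  rw [win_cons]
  unfold Win
  simp only [Bool.forall_bool, exists_const, and_self]

private theorem Q1_nonneg (h1 : ∀ x, 0 ≤ W1 x) {n : ℕ} (S : Finset (Fin n)) (a : Fin n → Bool)
    (Z : Set (Fin n → Option Bool)) : 0 ≤ Q1 W1 S a Z := by
  classical
  unfold Q1
  refine Finset.sum_nonneg fun t _ => ?_
  split_ifs
  · exact Finset.prod_nonneg fun v _ => h1 _
  · exact le_rfl

private theorem Q2_mono (h2 : ∀ x, 0 ≤ W2 x) {n : ℕ} {E F : Set (Fin n → Option (Option Bool))}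
    (h : E ⊆ F) : Q2 W2 E ≤ Q2 W2 F := by
  classical
  unfold Q2
  refine Finset.sum_le_sum fun t _ => ?_
  by_cases h1 : t ∈ E
  · rw [if_pos h1, if_pos (h h1)]
  · rw [if_neg h1]
    split_ifs
    · exact Finset.prod_nonneg fun v _ => h2 _
    · exact le_rfl

private theorem Q1_union_inter {n : ℕ} (S : Finset (Fin n)) (a : Fin n → Bool)
    (Z Y : Set (Fin n → Option Bool)) :
    Q1 W1 S a (Z ∪ Y) + Q1 W1 S a (Z ∩ Y) = Q1 W1 S a Z + Q1 W1 S a Y := by
  classical
  unfold Q1
  rw [← Finset.sum_add_distrib, ← Finset.sum_add_distrib]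
  refine Finset.sum_congr rfl fun t _ => ?_
  by_cases hc : Cub S a t
  · by_cases h1 : t ∈ Z <;> by_cases h2 : t ∈ Y <;> simp [h1, h2, hc]
  · simp [hc]

private theorem Q1_in {n : ℕ} {S : Finset (Fin (n + 1))} (h0 : (0 : Fin (n + 1)) ∈ S)
    (a : Fin (n + 1) → Bool) (Z : Set (Fin (n + 1) → Option Bool)) :
    Q1 W1 S a Z = W1 (some false) * Q1 W1 (SS S) (fun i => a i.succ) (sl (some false) Z) +
      W1 (some true) * Q1 W1 (SS S) (fun i => a i.succ) (sl (some true) Z) := by
  classical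
  unfold Q1
  rw [sum_cons, Fintype.sum_option, Fintype.sum_bool]
  have e0 : ∑ t : Fin n → Option Bool, (if (Fin.cons none t : Fin (n + 1) → Option Bool) ∈ Z ∧
      Cub S a (Fin.cons none t : Fin (n + 1) → Option Bool) then
      ∏ v, W1 ((Fin.cons none t : Fin (n + 1) → Option Bool) v) else 0) = 0 := by
    refine Finset.sum_eq_zero fun t _ => ?_
    rw [if_neg]
    rw [cub_cons_in h0]
    tauto
  have e1 : ∀ b : Bool, ∑ t : Fin n → Option Bool,
      (if (Fin.cons (some b) t : Fin (n + 1) → Option Bool) ∈ Z ∧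
      Cub S a (Fin.cons (some b) t : Fin (n + 1) → Option Bool) then
      ∏ v, W1 ((Fin.cons (some b) t : Fin (n + 1) → Option Bool) v) else 0) =
      W1 (some b) * ∑ t : Fin n → Option Bool,
        (if t ∈ sl (some b) Z ∧ Cub (SS S) (fun i => a i.succ) t then ∏ v, W1 (t v) else 0) := by
    intro b
    rw [Finset.mul_sum]
    refine Finset.sum_congr rfl fun t _ => ?_
    rw [cub_cons_in h0, Fin.prod_univ_succ]
    simp only [Fin.cons_zero, Fin.cons_succ, sl, Set.mem_ofPred_eq, ne_eq, reduceCtorEq,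
      not_false_eq_true, true_and, mul_ite, mul_zero]
  rw [e0, e1 true, e1 false]
  ring

private theorem Q1_out {n : ℕ} {S : Finset (Fin (n + 1))} (h0 : (0 : Fin (n + 1)) ∉ S)
    (a : Fin (n + 1) → Bool) (Z : Set (Fin (n + 1) → Option Bool)) :
    Q1 W1 S a Z = W1 none * Q1 W1 (SS S) (fun i => a i.succ) (sl none Z) +
      W1 (some (a 0)) * Q1 W1 (SS S) (fun i => a i.succ) (sl (some (a 0)) Z) := by
  classical
  unfold Q1
  rw [sum_cons, Fintype.sum_option, Fintype.sum_bool]
  have e1 : ∀ x : Option Bool, (x = none ∨ x = some (a 0)) → ∑ t : Fin n → Option Bool,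
      (if (Fin.cons x t : Fin (n + 1) → Option Bool) ∈ Z ∧
      Cub S a (Fin.cons x t : Fin (n + 1) → Option Bool) then
      ∏ v, W1 ((Fin.cons x t : Fin (n + 1) → Option Bool) v) else 0) =
      W1 x * ∑ t : Fin n → Option Bool,
        (if t ∈ sl x Z ∧ Cub (SS S) (fun i => a i.succ) t then ∏ v, W1 (t v) else 0) := by
    intro x hx
    rw [Finset.mul_sum]
    refine Finset.sum_congr rfl fun t _ => ?_
    rw [cub_cons_out h0, Fin.prod_univ_succ]
    simp only [Fin.cons_zero, Fin.cons_succ, sl, Set.mem_ofPred_eq, hx, true_and, mul_ite, mul_zero]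
  have e0 : ∀ b : Bool, b ≠ a 0 → ∑ t : Fin n → Option Bool,
      (if (Fin.cons (some b) t : Fin (n + 1) → Option Bool) ∈ Z ∧
      Cub S a (Fin.cons (some b) t : Fin (n + 1) → Option Bool) then
      ∏ v, W1 ((Fin.cons (some b) t : Fin (n + 1) → Option Bool) v) else 0) = 0 := by
    intro b hb
    refine Finset.sum_eq_zero fun t _ => ?_
    rw [if_neg]
    rw [cub_cons_out h0]
    rintro ⟨_, h | h, _⟩
    · exact absurd h (by simp)
    · exact hb (Option.some.inj h)
  rw [e1 none (Or.inl rfl)]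
  rcases hb : a 0 with _ | _
  · rw [e1 false (Or.inr (by rw [hb])), e0 true (by rw [hb]; decide)]
    ring
  · rw [e1 true (Or.inr (by rw [hb])), e0 false (by rw [hb]; decide)]
    ring

/-- the event for two families -/
private def E2 {n : ℕ} (S : Finset (Fin n)) (a : Fin n → Bool)
    (Z Y : Set (Fin n → Option Bool)) : Set (Fin n → Option (Option Bool)) :=
  {τ | Adm S a τ ∧ Win S τ Z ∧ Win S τ Y}

private theorem Q2_cons {n : ℕ} (E : Set (Fin (n + 1) → Option (Option Bool))) :
    Q2 W2 E = W2 none * Q2 W2 (sl none E) + (W2 (some none) * Q2 W2 (sl (some none) E) +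
      (W2 (some (some true)) * Q2 W2 (sl (some (some true)) E) +
        W2 (some (some false)) * Q2 W2 (sl (some (some false)) E))) := by
  classical
  unfold Q2
  rw [sum_cons, Fintype.sum_option, Fintype.sum_option, Fintype.sum_bool]
  have e1 : ∀ x : Option (Option Bool), ∑ t : Fin n → Option (Option Bool),
      (if (Fin.cons x t : Fin (n + 1) → Option (Option Bool)) ∈ E then
      ∏ v, W2 ((Fin.cons x t : Fin (n + 1) → Option (Option Bool)) v) else 0) =
      W2 x * ∑ t : Fin n → Option (Option Bool),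
        (if t ∈ sl x E then ∏ v, W2 (t v) else 0) := by
    intro x
    rw [Finset.mul_sum]
    refine Finset.sum_congr rfl fun t _ => ?_
    rw [Fin.prod_univ_succ]
    simp only [Fin.cons_zero, Fin.cons_succ, sl, Set.mem_ofPred_eq, mul_ite, mul_zero]
  rw [e1, e1, e1, e1]

private theorem E2_sub {n : ℕ} (S : Finset (Fin n)) (a : Fin n → Bool)
    (Z Y : Set (Fin n → Option Bool)) : EE S a (Z ∩ Y) ⊆ E2 S a Z Y := by
  rintro τ ⟨h1, h2⟩
  refine ⟨h1, fun ρ => ?_, fun ρ => ?_⟩
  · obtain ⟨γ, h⟩ := h2 ρ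
    exact ⟨γ, h.1⟩
  · obtain ⟨γ, h⟩ := h2 ρ
    exact ⟨γ, h.2⟩

private theorem Q2_in {n : ℕ} {S : Finset (Fin (n + 1))} (h0 : (0 : Fin (n + 1)) ∈ S)
    (a : Fin (n + 1) → Bool) (Z : Set (Fin (n + 1) → Option Bool)) :
    Q2 W2 (EE S a Z) =
      W2 none * Q2 W2 (EE (SS S) (fun i => a i.succ) (sl (some false) Z ∪ sl (some true) Z)) +
      (W2 (some none) *
        Q2 W2 (E2 (SS S) (fun i => a i.succ) (sl (some false) Z) (sl (some true) Z)) +
      (W2 (some (some true)) * Q2 W2 (EE (SS S) (fun i => a i.succ) (sl (some true) Z)) +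
      W2 (some (some false)) * Q2 W2 (EE (SS S) (fun i => a i.succ) (sl (some false) Z)))) := by
  have e1 : sl none (EE S a Z) =
      EE (SS S) (fun i => a i.succ) (sl (some false) Z ∪ sl (some true) Z) := by
    ext t
    unfold sl EE
    simp only [Set.mem_ofPred_eq]
    rw [adm_cons_in h0, win_none]
    rfl
  have e2 : sl (some none) (EE S a Z) =
      E2 (SS S) (fun i => a i.succ) (sl (some false) Z) (sl (some true) Z) := by
    ext t
    unfold sl EE E2
    simp only [Set.mem_ofPred_eq]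
    rw [adm_cons_in h0, win_rho h0]
    rfl
  have e3 : ∀ b : Bool, sl (some (some b)) (EE S a Z) =
      EE (SS S) (fun i => a i.succ) (sl (some b) Z) := by
    intro b
    ext t
    unfold sl EE
    simp only [Set.mem_ofPred_eq]
    rw [adm_cons_in h0, win_bit]
    rfl
  rw [Q2_cons, e1, e2, e3 true, e3 false]

private theorem Q2_empty {n : ℕ} : Q2 W2 (∅ : Set (Fin n → Option (Option Bool))) = 0 := by
  classical
  unfold Q2
  refine Finset.sum_eq_zero fun t _ => ?_
  rw [if_neg (Set.notMem_empty t)]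

private theorem Q2_out {n : ℕ} {S : Finset (Fin (n + 1))} (h0 : (0 : Fin (n + 1)) ∉ S)
    (a : Fin (n + 1) → Bool) (Z : Set (Fin (n + 1) → Option Bool)) :
    Q2 W2 (EE S a Z) =
      W2 (some none) * Q2 W2 (EE (SS S) (fun i => a i.succ) (sl none Z)) +
      W2 (some (some (a 0))) * Q2 W2 (EE (SS S) (fun i => a i.succ) (sl (some (a 0)) Z)) := by
  have e1 : sl none (EE S a Z) = ∅ := by
    ext t
    unfold sl EE
    simp only [Set.mem_ofPred_eq, Set.mem_empty_iff_false, iff_false]
    rw [adm_cons_out h0]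
    rintro ⟨⟨h | h, _⟩, _⟩ <;> exact absurd h (by simp)
  have e2 : sl (some none) (EE S a Z) = EE (SS S) (fun i => a i.succ) (sl none Z) := by
    ext t
    unfold sl EE
    simp only [Set.mem_ofPred_eq]
    rw [adm_cons_out h0, win_out h0]
    simp only [true_or, true_and]
    rfl
  have e3 : sl (some (some (a 0))) (EE S a Z) =
      EE (SS S) (fun i => a i.succ) (sl (some (a 0)) Z) := by
    ext t
    unfold sl EE
    simp only [Set.mem_ofPred_eq]
    rw [adm_cons_out h0, win_bit]
    simp only [or_true, true_and]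
    rfl
  have e4 : ∀ b : Bool, b ≠ a 0 → sl (some (some b)) (EE S a Z) = ∅ := by
    intro b hb
    ext t
    unfold sl EE
    simp only [Set.mem_ofPred_eq, Set.mem_empty_iff_false, iff_false]
    rw [adm_cons_out h0]
    rintro ⟨⟨h | h, _⟩, _⟩
    · exact absurd h (by simp)
    · exact hb (Option.some.inj (Option.some.inj h))
  rw [Q2_cons, e1, e2, Q2_empty]
  rcases hb : a 0 with _ | _
  · rw [hb] at e3
    rw [e3, e4 true (by rw [hb]; decide), Q2_empty]
    ring
  · rw [hb] at e3
    rw [e3, e4 false (by rw [hb]; decide), Q2_empty]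
    ring

private theorem QQ_ge {g x0 x1 q r f : ℝ} (hg : 0 ≤ g)
    (hq : 0 ≤ q) (hr : 0 ≤ r) (hf : 0 ≤ f)
    (hW0 : W1 none = x0) (hW1 : ∀ b, W1 (some b) = x1)
    (hV0 : W2 none = q) (hV1 : W2 (some none) = r) (hV2 : ∀ b, W2 (some (some b)) = f)
    (hout : ∀ A B : ℝ, g * (x0 * A + x1 * B) ^ 2 ≤ r * A ^ 2 + f * B ^ 2)
    (hin : ∀ A B C : ℝ, g * (x1 * (A + B)) ^ 2 ≤
      f * (A ^ 2 + B ^ 2) + r * C ^ 2 + q * (A + B - C) ^ 2) (n : ℕ) :
    ∀ (S : Finset (Fin n)) (a : Fin n → Bool) (Z : Set (Fin n → Option Bool)),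
    g ^ n * Q1 W1 S a Z ^ 2 ≤ Q2 W2 (EE S a Z) := by
  have h2 : ∀ x, 0 ≤ W2 x := by
    rintro (_ | _ | b)
    · rw [hV0]; exact hq
    · rw [hV1]; exact hr
    · rw [hV2]; exact hf
  induction n with
  | zero =>
    intro S a Z
    classical
    unfold Q1 Q2 EE
    simp only [Set.mem_ofPred_eq, univ_eq_empty, prod_empty, pow_zero, one_mul]
    rw [Fintype.sum_unique, Fintype.sum_unique]
    have hc : ∀ t : Fin 0 → Option Bool, Cub S a t := fun t => ⟨fun v => v.elim0, fun v => v.elim0⟩
    have hA : ∀ t : Fin 0 → Option (Option Bool), Adm S a t := fun t v => v.elim0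
    by_cases h : (fun v => v.elim0 : Fin 0 → Option Bool) ∈ Z
    · have h' : ∀ t : Fin 0 → Option Bool, t ∈ Z := fun t => by
        rw [Subsingleton.elim t (fun v => v.elim0 : Fin 0 → Option Bool)]
        exact h
      have hWn : ∀ t : Fin 0 → Option (Option Bool), Win S t Z := fun t ρ => ⟨ρ, h' _⟩
      rw [if_pos ⟨h' _, hc _⟩, if_pos ⟨hA _, hWn _⟩]
      norm_num
    · have h' : ∀ t : Fin 0 → Option Bool, t ∉ Z := fun t => by
        rw [Subsingleton.elim t (fun v => v.elim0 : Fin 0 → Option Bool)]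
        exact h
      rw [if_neg (fun h'' => h' _ h''.1)]
      split_ifs <;> norm_num
  | succ n ih =>
    intro S a Z
    by_cases h0 : (0 : Fin (n + 1)) ∈ S
    · rw [Q1_in W1 h0, Q2_in W2 h0, hW1, hW1, hV0, hV1, hV2, hV2]
      have i1 := ih (SS S) (fun i => a i.succ) (sl (some false) Z)
      have i2 := ih (SS S) (fun i => a i.succ) (sl (some true) Z)
      have i3 := ih (SS S) (fun i => a i.succ) (sl (some false) Z ∩ sl (some true) Z)
      have i4 := ih (SS S) (fun i => a i.succ) (sl (some false) Z ∪ sl (some true) Z)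
      have i5 := Q2_mono W2 h2 (E2_sub (SS S) (fun i => a i.succ) (sl (some false) Z)
        (sl (some true) Z))
      have i6 := Q1_union_inter W1 (SS S) (fun i => a i.succ) (sl (some false) Z)
        (sl (some true) Z)
      have i7 := hin (Q1 W1 (SS S) (fun i => a i.succ) (sl (some false) Z))
        (Q1 W1 (SS S) (fun i => a i.succ) (sl (some true) Z))
        (Q1 W1 (SS S) (fun i => a i.succ) (sl (some false) Z ∩ sl (some true) Z))
      have i8 : Q1 W1 (SS S) (fun i => a i.succ) (sl (some false) Z ∪ sl (some true) Z) =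
        Q1 W1 (SS S) (fun i => a i.succ) (sl (some false) Z) +
        Q1 W1 (SS S) (fun i => a i.succ) (sl (some true) Z) -
        Q1 W1 (SS S) (fun i => a i.succ) (sl (some false) Z ∩ sl (some true) Z) := by
        linarith
      rw [i8] at i4
      generalize Q1 W1 (SS S) (fun i => a i.succ) (sl (some false) Z) = A at *
      generalize Q1 W1 (SS S) (fun i => a i.succ) (sl (some true) Z) = B at *
      generalize Q1 W1 (SS S) (fun i => a i.succ) (sl (some false) Z ∩ sl (some true) Z) = C at *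
      have hgn : 0 ≤ g ^ n := pow_nonneg hg n
      calc g ^ (n + 1) * (x1 * A + x1 * B) ^ 2 = g ^ n * (g * (x1 * (A + B)) ^ 2) := by ring
        _ ≤ g ^ n * (f * (A ^ 2 + B ^ 2) + r * C ^ 2 + q * (A + B - C) ^ 2) :=
          mul_le_mul_of_nonneg_left i7 hgn
        _ = q * (g ^ n * (A + B - C) ^ 2) + (r * (g ^ n * C ^ 2) + (f * (g ^ n * B ^ 2) +
            f * (g ^ n * A ^ 2))) := by ring
        _ ≤ _ := by
          refine add_le_add (mul_le_mul_of_nonneg_left i4 hq)
            (add_le_add (mul_le_mul_of_nonneg_left (i3.trans i5) hr)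
              (add_le_add (mul_le_mul_of_nonneg_left i2 hf) (mul_le_mul_of_nonneg_left i1 hf)))
    · rw [Q1_out W1 h0, Q2_out W2 h0, hW0, hW1, hV1, hV2]
      have i1 := ih (SS S) (fun i => a i.succ) (sl none Z)
      have i2 := ih (SS S) (fun i => a i.succ) (sl (some (a 0)) Z)
      have i3 := hout (Q1 W1 (SS S) (fun i => a i.succ) (sl none Z))
        (Q1 W1 (SS S) (fun i => a i.succ) (sl (some (a 0)) Z))
      generalize Q1 W1 (SS S) (fun i => a i.succ) (sl none Z) = A at *
      generalize Q1 W1 (SS S) (fun i => a i.succ) (sl (some (a 0)) Z) = B at *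
      have hgn : 0 ≤ g ^ n := pow_nonneg hg n
      calc g ^ (n + 1) * (x0 * A + x1 * B) ^ 2 = g ^ n * (g * (x0 * A + x1 * B) ^ 2) := by ring
        _ ≤ g ^ n * (r * A ^ 2 + f * B ^ 2) := mul_le_mul_of_nonneg_left i3 hgn
        _ = r * (g ^ n * A ^ 2) + f * (g ^ n * B ^ 2) := by ring
        _ ≤ _ := add_le_add (mul_le_mul_of_nonneg_left i1 hr) (mul_le_mul_of_nonneg_left i2 hf)

end Gen

open Classical in
/-- The two tests for general weights: a free coordinate has weight `x0` and a bit `x1` in the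
first test; in the second one a move of Max has weight `q`, a move of Min `r`, a fixed bit `f`. -/
theorem phi_gen_fin {W1 : Option Bool → ℝ} {W2 : Option (Option Bool) → ℝ} {g x0 x1 q r f : ℝ}
    (hg : 0 ≤ g) (hq : 0 ≤ q) (hr : 0 ≤ r) (hf : 0 ≤ f)
    (hW0 : W1 none = x0) (hW1 : ∀ b, W1 (some b) = x1)
    (hV0 : W2 none = q) (hV1 : W2 (some none) = r) (hV2 : ∀ b, W2 (some (some b)) = f)
    (hout : ∀ A B : ℝ, g * (x0 * A + x1 * B) ^ 2 ≤ r * A ^ 2 + f * B ^ 2)
    (hin : ∀ A B C : ℝ, g * (x1 * (A + B)) ^ 2 ≤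
      f * (A ^ 2 + B ^ 2) + r * C ^ 2 + q * (A + B - C) ^ 2)
    (n : ℕ) (S : Finset (Fin n)) (a : Fin n → Bool) (Z : Set (Fin n → Option Bool)) :
    g ^ n * (∑ t ∈ univ.filter (fun t => t ∈ Z ∧ Cub S a t), ∏ v, W1 (t v)) ^ 2 ≤
      ∑ τ ∈ univ.filter (fun τ => Adm S a τ ∧ Win S τ Z), ∏ v, W2 (τ v) := by
  have h := QQ_ge W1 W2 hg hq hr hf hW0 hW1 hV0 hV1 hV2 hout hin n S a Z
  unfold Q1 Q2 EE at h
  rw [Finset.sum_filter, Finset.sum_filter]
  refine h.trans (le_of_eq ?_)
  refine Finset.sum_congr rfl fun τ _ => ?_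
  by_cases hh : Adm S a τ ∧ Win S τ Z
  · rw [if_pos hh]
    exact if_pos hh
  · rw [if_neg hh]
    exact if_neg hh

open Classical in
/-- The same for any finite set of variables. -/
theorem phi_gen {W1 : Option Bool → ℝ} {W2 : Option (Option Bool) → ℝ} {g x0 x1 q r f : ℝ}
    (hg : 0 ≤ g) (hq : 0 ≤ q) (hr : 0 ≤ r) (hf : 0 ≤ f)
    (hW0 : W1 none = x0) (hW1 : ∀ b, W1 (some b) = x1)
    (hV0 : W2 none = q) (hV1 : W2 (some none) = r) (hV2 : ∀ b, W2 (some (some b)) = f)
    (hout : ∀ A B : ℝ, g * (x0 * A + x1 * B) ^ 2 ≤ r * A ^ 2 + f * B ^ 2)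
    (hin : ∀ A B C : ℝ, g * (x1 * (A + B)) ^ 2 ≤
      f * (A ^ 2 + B ^ 2) + r * C ^ 2 + q * (A + B - C) ^ 2)
    {K : Type*} [Fintype K] [DecidableEq K] (S : Finset K) (a : K → Bool)
    (Z : Set (K → Option Bool)) :
    g ^ Fintype.card K * (∑ t ∈ univ.filter (fun t => t ∈ Z ∧ Cub S a t), ∏ v, W1 (t v)) ^ 2 ≤
      ∑ τ ∈ univ.filter (fun τ => Adm S a τ ∧ Win S τ Z), ∏ v, W2 (τ v) := by
  have e : K ≃ Fin (Fintype.card K) := Fintype.equivFin K
  have h := phi_gen_fin hg hq hr hf hW0 hW1 hV0 hV1 hV2 hout hin (Fintype.card K)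
    (univ.filter fun i => e.symm i ∈ S) (fun i => a (e.symm i)) {t | (fun v => t (e v)) ∈ Z}
  rw [Finset.sum_filter, Finset.sum_filter] at h ⊢
  have e1 : ∑ t : K → Option Bool, (if t ∈ Z ∧ Cub S a t then ∏ v, W1 (t v) else 0) =
      ∑ t : Fin (Fintype.card K) → Option Bool,
        (if t ∈ {t : Fin (Fintype.card K) → Option Bool | (fun v => t (e v)) ∈ Z} ∧
          Cub (univ.filter fun i => e.symm i ∈ S) (fun i => a (e.symm i)) t then
          ∏ v, W1 (t v) else 0) := by
    refine (Fintype.sum_equiv (Equiv.arrowCongr e (Equiv.refl _)) _ _ fun t => ?_)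
    have c1 : (Equiv.arrowCongr e (Equiv.refl (Option Bool))) t = fun i => t (e.symm i) := rfl
    rw [c1]
    have c2 : ∏ v, W1 (t (e.symm v)) = ∏ v, W1 (t v) :=
      Fintype.prod_equiv e.symm _ _ fun v => rfl
    have c3 : (fun i => t (e.symm i)) ∈
        {t : Fin (Fintype.card K) → Option Bool | (fun v => t (e v)) ∈ Z} ↔ t ∈ Z := by
      simp only [Set.mem_ofPred_eq, Equiv.symm_apply_apply]
    have c4 : Cub (univ.filter fun i => e.symm i ∈ S) (fun i => a (e.symm i))
        (fun i => t (e.symm i)) ↔ Cub S a t := by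
      unfold Cub
      simp only [mem_filter, mem_univ, true_and]
      exact and_congr ⟨fun h v hv => by
          have := h (e v)
          rw [e.symm_apply_apply] at this
          exact this hv, fun h i hi => h _ hi⟩
        ⟨fun h v hv => by
          have := h (e v)
          rw [e.symm_apply_apply] at this
          exact this hv, fun h i hi => h _ hi⟩
    by_cases hh : t ∈ Z ∧ Cub S a t
    · rw [if_pos hh, if_pos ⟨c3.2 hh.1, c4.2 hh.2⟩, c2]
    · rw [if_neg hh, if_neg (fun h' => hh ⟨c3.1 h'.1, c4.1 h'.2⟩)]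
  have e2 : ∑ τ : Fin (Fintype.card K) → Option (Option Bool),
        (if Adm (univ.filter fun i => e.symm i ∈ S) (fun i => a (e.symm i)) τ ∧
          Win (univ.filter fun i => e.symm i ∈ S) τ
            {t : Fin (Fintype.card K) → Option Bool | (fun v => t (e v)) ∈ Z} then
          ∏ v, W2 (τ v) else 0) =
      ∑ τ : K → Option (Option Bool), (if Adm S a τ ∧ Win S τ Z then ∏ v, W2 (τ v) else 0) := by
    symm
    refine (Fintype.sum_equiv (Equiv.arrowCongr e (Equiv.refl _)) _ _ fun τ => ?_)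
    have c1 : (Equiv.arrowCongr e (Equiv.refl (Option (Option Bool)))) τ =
      fun i => τ (e.symm i) := rfl
    rw [c1]
    have c2 : ∏ v, W2 (τ (e.symm v)) = ∏ v, W2 (τ v) :=
      Fintype.prod_equiv e.symm _ _ fun v => rfl
    have c3 : Adm (univ.filter fun i => e.symm i ∈ S) (fun i => a (e.symm i))
        (fun i => τ (e.symm i)) ↔ Adm S a τ := by
      unfold Adm
      simp only [mem_filter, mem_univ, true_and]
      exact ⟨fun h v hv => by
          have := h (e v)
          rw [e.symm_apply_apply] at this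
          exact this hv, fun h i hi => h _ hi⟩
    have c5 : ∀ (ρ γ : Fin (Fintype.card K) → Bool),
        (fun v => mk (univ.filter fun i => e.symm i ∈ S) (fun i => τ (e.symm i)) ρ γ (e v)) =
          mk S τ (fun v => ρ (e v)) (fun v => γ (e v)) := by
      intro ρ γ
      funext v
      unfold mk
      simp only [mem_filter, mem_univ, true_and, Equiv.symm_apply_apply]
    have c4 : Win (univ.filter fun i => e.symm i ∈ S) (fun i => τ (e.symm i))
        {t : Fin (Fintype.card K) → Option Bool | (fun v => t (e v)) ∈ Z} ↔ Win S τ Z := by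
      unfold Win
      simp only [Set.mem_ofPred_eq, c5]
      constructor
      · intro h ρ
        obtain ⟨γ, hγ⟩ := h (fun i => ρ (e.symm i))
        refine ⟨fun v => γ (e v), ?_⟩
        simp only [Equiv.symm_apply_apply] at hγ
        exact hγ
      · intro h ρ
        obtain ⟨γ, hγ⟩ := h (fun v => ρ (e v))
        refine ⟨fun i => γ (e.symm i), ?_⟩
        simp only [Equiv.symm_apply_apply]
        exact hγ
    by_cases hh : Adm S a τ ∧ Win S τ Z
    · rw [if_pos hh, if_pos ⟨c3.2 hh.1, c4.2 hh.2⟩, c2]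
    · rw [if_neg hh, if_neg (fun h' => hh ⟨c3.1 h'.1, c4.1 h'.2⟩)]
  rw [e1, ← e2]
  exact h

open Classical in
/-- Lemma B and its corollary in one induction (over `Fin n`). -/
theorem phi_ge_fin (n : ℕ) (S : Finset (Fin n)) (a : Fin n → Bool)
    (Z : Set (Fin n → Option Bool)) :
    (638 / 415 : ℝ) ^ n * (∑ t ∈ univ.filter (fun t => t ∈ Z ∧ Cub S a t), ∏ v, w1 (t v)) ^ 2 ≤
      ∑ τ ∈ univ.filter (fun τ => Adm S a τ ∧ Win S τ Z), ∏ v, w2 (τ v) := by
  refine phi_gen_fin (W1 := w1) (W2 := w2) (x0 := 1 / 4) (x1 := 3 / 8) (q := 3 / 56)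
    (r := 29 / 112) (f := 11 / 32) (by norm_num) (by norm_num) (by norm_num) (by norm_num)
    rfl (fun _ => rfl) rfl rfl (fun _ => rfl) ?_ ?_ n S a Z
  · intro A B
    nlinarith [sq_nonneg (87 * A - 77 * B)]
  · intro A B C
    nlinarith [sq_nonneg (A - B), sq_nonneg (35 * C - 6 * (A + B)), sq_nonneg (A + B)]

open Classical in
theorem phi_ge {K : Type*} [Fintype K] [DecidableEq K] (S : Finset K) (a : K → Bool)
    (Z : Set (K → Option Bool)) :
    (638 / 415 : ℝ) ^ Fintype.card K *
      (∑ t ∈ univ.filter (fun t => t ∈ Z ∧ Cub S a t), ∏ v, w1 (t v)) ^ 2 ≤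
      ∑ τ ∈ univ.filter (fun τ => Adm S a τ ∧ Win S τ Z), ∏ v, w2 (τ v) := by
  refine phi_gen (W1 := w1) (W2 := w2) (x0 := 1 / 4) (x1 := 3 / 8) (q := 3 / 56)
    (r := 29 / 112) (f := 11 / 32) (by norm_num) (by norm_num) (by norm_num) (by norm_num)
    rfl (fun _ => rfl) rfl rfl (fun _ => rfl) ?_ ?_ S a Z
  · intro A B
    nlinarith [sq_nonneg (87 * A - 77 * B)]
  · intro A B C
    nlinarith [sq_nonneg (A - B), sq_nonneg (35 * C - 6 * (A + B)), sq_nonneg (A + B)]

end Pool.Agent.H27.GR
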