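import Pool.Agent.H27.GR.Res

/-!
# Regular resolution: definitions
-/

namespace Pool.Agent.H27.GR

open Finset

/-- A regular resolution refutation of `F`: a sequence of clauses with the empty clause among them,
in which every clause contains a clause of `F`, or it contains the resolvent of two earlier clauses
`line j` and `line k` on some variable `v` that has not been resolved in their derivations; `res i`
contains the variables that are resolved in the derivation of `line i`. -/
structure RegRefutation {V : Type*} [DecidableEq V] (F : Finset (Finset (V × Bool))) where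
  /-- the number of clauses -/
  size : ℕ
  /-- the clauses -/
  line : Fin size → Finset (V × Bool)
  /-- the variables that are resolved in the derivation of a clause -/
  res : Fin size → Finset V
  step : ∀ i, (∃ C ∈ F, C ⊆ line i) ∨ ∃ j < i, ∃ k < i, ∃ v, (v, true) ∈ line j ∧
    (v, false) ∈ line k ∧ (line j).erase (v, true) ∪ (line k).erase (v, false) ⊆ line i ∧
    v ∉ res j ∧ v ∉ res k ∧ v ∈ res i ∧ res j ⊆ res i ∧ res k ⊆ res i
  root : ∃ i, line i = ∅

section
variable {V : Type*} [Fintype V] [DecidableEq V] {M m p : ℕ} (β : V → Fin M)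
  (E : Fin m → Fin M → ZMod p) (c : Fin m → ZMod p)

/-- `y` agrees with `x` on `St` and falsifies `C`. -/
def ExtS (St : Finset V) (x : V → Bool) (C : Finset (V × Bool)) (y : V → Bool) : Prop :=
  (∀ v ∈ St, y v = x v) ∧ ¬ ClauseSat y C

/-- At most `r` equations never exclude all extensions. -/
def AliveS (r : ℕ) (St : Finset V) (x : V → Bool) (C : Finset (V × Bool)) : Prop :=
  ∀ I : Finset (Fin m), I.card ≤ r → ∃ y, ExtS St x C y ∧ ∀ e ∈ I, EqSat β E c y e

/-- Some `r` equations exclude all extensions. -/
def BadS (r : ℕ) (St : Finset V) (x : V → Bool) (C : Finset (V × Bool)) : Prop :=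
  ∃ I : Finset (Fin m), I.card ≤ r ∧ ¬ ∃ y, ExtS St x C y ∧ ∀ e ∈ I, EqSat β E c y e

/-- The blocks with at least `p - 1` variables outside `St` that `C` does not mention. -/
def freeS (St : Finset V) (C : Finset (V × Bool)) : Finset (Fin M) :=
  univ.filter fun j => p - 1 ≤ (univ.filter fun v : V => β v = j ∧ v ∉ C.image Prod.fst ∧
    v ∉ St).card

end

end Pool.Agent.H27.GR
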