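import Pool.Agent.H27.GR.RDefs
import Pool.Agent.H27.GR.Fo

/-!
# Going down with a fixed static set

PROOF. Strong induction on i. If line i is bad take j = i. Otherwise it is not a leaf: for C in the
formula with C contained in line i, leaf_bad gives e with I = {e}, 1 <= 2 r, bad. So line i comes from
lines j, k < i by resolution on v. line j is contained in insert (v, true) (line i), line k in
insert (v, false) (line i). If both were not alive (I_j, I_k) then I = I_j union I_k (card <= 2 r) would
be bad for line i: an extension y of line i that satisfies I falsifies line j if y v = false and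
line k if y v = true. So one of them, say line j, is alive: apply the induction hypothesis. Variables:
vars (line j) is contained in vars (line i) and v, v in res i, res j in res i.
-/

namespace Pool.Agent.H27.GR

open Finset

section
variable {V : Type*} [Fintype V] [DecidableEq V] {M m p : ℕ} (β : V → Fin M)
  (E : Fin m → Fin M → ZMod p) (c : Fin m → ZMod p)

/-- Below an alive clause there is a clause that is alive and bad. -/
theorem reg_low {r : ℕ} (hr : 1 ≤ r) (R : RegRefutation (formula β E c)) (St : Finset V)
    (x : V → Bool) (i : Fin R.size) (ha : AliveS β E c r St x (R.line i)) :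
    ∃ j : Fin R.size, AliveS β E c r St x (R.line j) ∧ BadS β E c (2 * r) St x (R.line j) ∧
      (R.line j).image Prod.fst ⊆ (R.line i).image Prod.fst ∪ R.res i := by
  obtain ⟨n, hn⟩ : ∃ n, n = (i : ℕ) := ⟨_, rfl⟩
  induction n using Nat.strong_induction_on generalizing i with
  | _ n ih =>
    by_cases hb : BadS β E c (2 * r) St x (R.line i)
    · exact ⟨i, ha, hb, subset_union_left⟩
    rcases R.step i with ⟨C, hC, hCi⟩ | ⟨j, hj, k, hk, v, hvj, hvk, hsub, hv1, hv2, hv3, hrj, hrk⟩
    · exfalso
      apply hb
      obtain ⟨e, he⟩ := leaf_bad β E c hC hCi
      refine ⟨{e}, ?_, ?_⟩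
      · rw [card_singleton]
        omega
      · rintro ⟨y, hy, hye⟩
        exact he y hy.2 (hye e (mem_singleton_self e))
    · by_cases hja : AliveS β E c r St x (R.line j)
      · obtain ⟨a, ha1, ha2, ha3⟩ := ih j (by rw [hn]; exact hj) j hja rfl
        refine ⟨a, ha1, ha2, ha3.trans ?_⟩
        intro u hu
        rcases mem_union.1 hu with hu | hu
        · obtain ⟨l, hl, hlu⟩ := mem_image.1 hu
          by_cases hlv : l = (v, true)
          · rw [← hlu, hlv]
            exact mem_union_right _ hv3
          · exact mem_union_left _ (mem_image.2
              ⟨l, hsub (mem_union_left _ (mem_erase.2 ⟨hlv, hl⟩)), hlu⟩)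
        · exact mem_union_right _ (hrj hu)
      · by_cases hka : AliveS β E c r St x (R.line k)
        · obtain ⟨a, ha1, ha2, ha3⟩ := ih k (by rw [hn]; exact hk) k hka rfl
          refine ⟨a, ha1, ha2, ha3.trans ?_⟩
          intro u hu
          rcases mem_union.1 hu with hu | hu
          · obtain ⟨l, hl, hlu⟩ := mem_image.1 hu
            by_cases hlv : l = (v, false)
            · rw [← hlu, hlv]
              exact mem_union_right _ hv3
            · exact mem_union_left _ (mem_image.2
                ⟨l, hsub (mem_union_right _ (mem_erase.2 ⟨hlv, hl⟩)), hlu⟩)
          · exact mem_union_right _ (hrk hu)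
        · exfalso
          apply hb
          unfold AliveS at hja hka
          push Not at hja hka
          obtain ⟨I, hI, hIb⟩ := hja
          obtain ⟨J, hJ, hJb⟩ := hka
          refine ⟨I ∪ J, ?_, ?_⟩
          · have := card_union_le I J
            omega
          · rintro ⟨y, hy, hye⟩
            have key : ∀ l : V × Bool, l ∈ R.line i → y l.1 ≠ l.2 :=
              fun l hl h => hy.2 ⟨l, hl, h⟩
            cases hv : y v with
            | false =>
              obtain ⟨e, he, hne⟩ := hIb y ⟨hy.1, by
                rintro ⟨l, hl, hle⟩
                by_cases hlv : l = (v, true)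
                · rw [hlv] at hle
                  simp only at hle
                  rw [hv] at hle
                  exact absurd hle (by simp)
                · exact key l (hsub (mem_union_left _ (mem_erase.2 ⟨hlv, hl⟩))) hle⟩
              exact hne (hye e (mem_union_left _ he))
            | true =>
              obtain ⟨e, he, hne⟩ := hJb y ⟨hy.1, by
                rintro ⟨l, hl, hle⟩
                by_cases hlv : l = (v, false)
                · rw [hlv] at hle
                  simp only at hle
                  rw [hv] at hle
                  exact absurd hle (by simp)
                · exact key l (hsub (mem_union_right _ (mem_erase.2 ⟨hlv, hl⟩))) hle⟩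
              exact hne (hye e (mem_union_right _ he))

end

end Pool.Agent.H27.GR
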