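import Pool.Agent.H27.GR.RDefs
import Pool.Agent.H27.GR.Fo
import Pool.Agent.H27.GR.Bi

/-!
# The walk of an assignment through a regular refutation

PROOF. reg_step_walk by strong induction on i: if line i is bad take (i, Kt, L). Otherwise it is not a
leaf (leaf_bad, I = {e}, 1 <= 2 r). Resolution on v from lines j, k < i; v is in res i, so v is not in
Kt and not in L (hres). Let b be the block of v, s_b its size.
CASE 1: card (Kt cap b) + p < s_b. By hL no variable of L is in b. Kt' = insert v Kt, L' = L, and the
next clause is line j if x v = false, line k if x v = true; it is contained in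
insert (v, !(x v)) (line i). Alive: given I with card <= r <= 2 r there is y (line i is not bad) with
y = x on Kt, y falsifies line i, y satisfies I. Change y only in the block b outside Kt: y' v = x v and
the variables of b outside insert v Kt (at least p - 1 of them, none of them is in vars (line i) since
vars (line i) is contained in Kt union L) by bits such that the sum of the block is the same. Then
bsum y' = bsum y, y' = x on Kt', y' falsifies line i (its variables in b are in Kt, unchanged) and the
new literal (v, !(x v)). Invariants: card (Kt' cap b) + p <= s_b.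
CASE 2: card (Kt cap b) + p = s_b (it is <= s_b by hq). Kt' = Kt, L' = insert v L. One of line j, line k
is alive with the static set Kt (otherwise line i is bad, as in reg_low): go there. hL: for v itself
the quota of its block is exhausted.
In both cases res j, res k are contained in res i and v is not in res j, res k; Kt', L' are disjoint
from the new res; the variables of the new clause are in Kt' union L'; x falsifies the literals of the
new clause on Kt' (the new literal is (v, !(x v)) in case 1; in case 2 v is not in Kt).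
reg_walk: start at the root, Kt = L = empty; alive: I has a solution z (hc); by bits choose in every
block (s_b >= p >= p - 1 variables) values with sum z_b.
-/

namespace Pool.Agent.H27.GR

open Finset

section
variable {V : Type*} [Fintype V] [DecidableEq V] {M m p : ℕ} (β : V → Fin M)
  (E : Fin m → Fin M → ZMod p) (c : Fin m → ZMod p)

theorem rwa_adjust [Fact p.Prime] (x y : V → Bool) (v : V) (Kt : Finset V) (hv : v ∉ Kt)
    (hlt : (Kt.filter fun u => β u = β v).card + p < (univ.filter fun u => β u = β v).card) :
    ∃ y' : V → Bool, y' v = x v ∧ (∀ u, β u ≠ β v → y' u = y u) ∧ (∀ u ∈ Kt, y' u = y u) ∧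
      ∀ j, bsum β p y' j = bsum β p y j := by
  classical
  have hp : 0 < p := (Fact.out : p.Prime).pos
  have : NeZero p := ⟨hp.ne'⟩
  set Bl := univ.filter fun u : V => β u = β v with hBl
  set Kb := Kt.filter fun u => β u = β v with hKb
  set D := Bl \ insert v Kt with hD
  have hsplit : Bl = insert v (Kb ∪ D) := by
    ext u
    simp only [hBl, hKb, hD, mem_filter, mem_univ, true_and, mem_insert, mem_union, mem_sdiff]
    constructor
    · intro h
      by_cases h1 : u = v
      · exact Or.inl h1
      · by_cases h2 : u ∈ Kt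
        · exact Or.inr (Or.inl ⟨h2, h⟩)
        · exact Or.inr (Or.inr ⟨h, fun h3 => h3.elim h1 h2⟩)
    · rintro (h | h | h)
      · rw [h]
      · exact h.2
      · exact h.1
  have hvn : v ∉ Kb ∪ D := by
    simp only [hKb, hD, mem_union, mem_filter, mem_sdiff, mem_insert]
    rintro (h | h)
    · exact hv h.1
    · exact h.2 (Or.inl trivial)
  have hdis : Disjoint Kb D := by
    rw [Finset.disjoint_left]
    intro u hu hu2
    simp only [hKb, mem_filter] at hu
    simp only [hD, mem_sdiff, mem_insert] at hu2
    exact hu2.2 (Or.inr hu.1)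
  have hcard : Bl.card = Kb.card + D.card + 1 := by
    rw [hsplit, card_insert_of_notMem hvn, card_union_of_disjoint hdis]
  have hDc : p - 1 ≤ D.card := by omega
  obtain ⟨z, hz⟩ := bits D hDc (bsum β p y (β v) -
    (∑ u ∈ Kb, if y u then (1 : ZMod p) else 0) - (if x v then (1 : ZMod p) else 0))
  refine ⟨fun u => if u = v then x v else if u ∈ D then z u else y u, by simp, ?_, ?_, ?_⟩
  · intro u hu
    have h1 : u ≠ v := fun h => hu (by rw [h])
    have h2 : u ∉ D := by
      simp only [hD, hBl, mem_sdiff, mem_filter, mem_univ, true_and]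
      exact fun h => hu h.1
    simp [h1, h2]
  · intro u hu
    have h1 : u ≠ v := fun h => hv (by rw [← h]; exact hu)
    have h2 : u ∉ D := by
      simp only [hD, mem_sdiff, mem_insert]
      exact fun h => h.2 (Or.inr hu)
    simp [h1, h2]
  · intro j
    by_cases hj : j = β v
    · subst hj
      unfold bsum
      rw [← hBl]
      have e1 : (∑ u ∈ Bl, if (if u = v then x v else if u ∈ D then z u else y u) = true
          then (1 : ZMod p) else 0) = (if x v = true then 1 else 0) +
          ((∑ u ∈ Kb, if y u = true then (1 : ZMod p) else 0) +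
            ∑ u ∈ D, if z u = true then (1 : ZMod p) else 0) := by
        rw [hsplit, sum_insert hvn, sum_union hdis]
        congr 1
        · simp
        · congr 1
          · refine sum_congr rfl fun u hu => ?_
            have h1 : u ≠ v := fun h => hvn (by rw [← h]; exact mem_union_left _ hu)
            have h2 : u ∉ D := Finset.disjoint_left.1 hdis hu
            simp [h1, h2]
          · refine sum_congr rfl fun u hu => ?_
            have h1 : u ≠ v := fun h => hvn (by rw [← h]; exact mem_union_right _ hu)
            simp [h1, hu]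
      rw [e1, hz]
      unfold bsum
      rw [← hBl]
      ring
    · unfold bsum
      refine sum_congr rfl fun u hu => ?_
      have hu' : β u = j := (mem_filter.1 hu).2
      have h0 : β u ≠ β v := fun h => hj (by rw [← hu', h])
      have h1 : u ≠ v := fun h => h0 (by rw [h])
      have h2 : u ∉ D := by
        simp only [hD, hBl, mem_sdiff, mem_filter, mem_univ, true_and]
        exact fun h => h0 h.1
      simp [h1, h2]

theorem rwa_aux [Fact p.Prime] {r : ℕ} (hr : 1 ≤ r) (R : RegRefutation (formula β E c))
    (x : V → Bool) : ∀ (n : ℕ) (i : Fin R.size), i.val = n → ∀ (Kt L : Finset V),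
    AliveS β E c r Kt x (R.line i) → (∀ v ∈ R.res i, v ∉ Kt ∧ v ∉ L) →
    (R.line i).image Prod.fst ⊆ Kt ∪ L →
    (∀ l ∈ R.line i, l.1 ∈ Kt → x l.1 ≠ l.2) →
    (∀ j, (Kt.filter fun v => β v = j).card + p ≤ (univ.filter fun v => β v = j).card) →
    (∀ v ∈ L, (Kt.filter fun u => β u = β v).card + p =
      (univ.filter fun u => β u = β v).card) →
    ∃ (j : Fin R.size) (Kt' L' : Finset V), AliveS β E c r Kt' x (R.line j) ∧
      BadS β E c (2 * r) Kt' x (R.line j) ∧ (∀ v ∈ R.res j, v ∉ Kt' ∧ v ∉ L') ∧
      (R.line j).image Prod.fst ⊆ Kt' ∪ L' ∧ (∀ l ∈ R.line j, l.1 ∈ Kt' → x l.1 ≠ l.2) ∧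
      (∀ j, (Kt'.filter fun v => β v = j).card + p ≤ (univ.filter fun v => β v = j).card) ∧
      (∀ v ∈ L', (Kt'.filter fun u => β u = β v).card + p =
        (univ.filter fun u => β u = β v).card) := by
  classical
  intro n
  induction n using Nat.strong_induction_on with
  | _ n IH =>
  intro i hin Kt L ha hres hvars hx hq hL
  by_cases hbad : BadS β E c (2 * r) Kt x (R.line i)
  · exact ⟨i, Kt, L, ha, hbad, hres, hvars, hx, hq, hL⟩
  have hgood : ∀ I : Finset (Fin m), I.card ≤ 2 * r →
      ∃ y, ExtS Kt x (R.line i) y ∧ ∀ e ∈ I, EqSat β E c y e := by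
    intro I hI
    by_contra h
    exact hbad ⟨I, hI, h⟩
  rcases R.step i with ⟨C, hC, hCi⟩ | ⟨j, hj, k, hk, v, hvj, hvk, hsub, hrj, hrk, hri, hji, hki⟩
  · obtain ⟨e, he⟩ := leaf_bad β E c hC hCi
    obtain ⟨y, hy, hy2⟩ := hgood {e} (by rw [card_singleton]; omega)
    exact (he y hy.2 (hy2 e (mem_singleton_self e))).elim
  have hvK : v ∉ Kt := (hres v hri).1
  have hvL : v ∉ L := (hres v hri).2
  have hprem : ∀ a : Bool, ∃ q : Fin R.size, q < i ∧ R.line q ⊆ insert (v, !a) (R.line i) ∧
      v ∉ R.res q ∧ R.res q ⊆ R.res i := by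
    intro a
    cases a
    · refine ⟨j, hj, fun l hl => ?_, hrj, hji⟩
      by_cases h : l = (v, true)
      · rw [h]; exact mem_insert_self _ _
      · exact mem_insert_of_mem (hsub (mem_union_left _ (mem_erase.2 ⟨h, hl⟩)))
    · refine ⟨k, hk, fun l hl => ?_, hrk, hki⟩
      by_cases h : l = (v, false)
      · rw [h]; exact mem_insert_self _ _
      · exact mem_insert_of_mem (hsub (mem_union_right _ (mem_erase.2 ⟨h, hl⟩)))
  have hli : ∀ l ∈ R.line i, l.1 ∈ Kt ∪ L := fun l hl => hvars (mem_image_of_mem _ hl)
  have hliv : ∀ l ∈ R.line i, l.1 ≠ v := by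
    intro l hl h
    rcases mem_union.1 (hli l hl) with h1 | h1
    · exact hvK (h ▸ h1)
    · exact hvL (h ▸ h1)
  by_cases hlt : (Kt.filter fun u => β u = β v).card + p < (univ.filter fun u => β u = β v).card
  · -- case 1
    have hLb : ∀ u ∈ L, β u ≠ β v := by
      intro u hu h
      have h1 := hL u hu
      rw [h] at h1
      omega
    obtain ⟨q, hqi, hql, hqr, hqR⟩ := hprem (x v)
    refine IH q.val (by have := Fin.lt_def.1 hqi; omega) q rfl (insert v Kt) L ?_ ?_ ?_ ?_ ?_ ?_
    · intro I hI
      obtain ⟨y, hy, hyI⟩ := hgood I (by omega)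
      obtain ⟨y', h1, h2, h3, h4⟩ := rwa_adjust β x y v Kt hvK hlt
      refine ⟨y', ⟨?_, ?_⟩, ?_⟩
      · intro u hu
        rcases mem_insert.1 hu with rfl | hu
        · exact h1
        · rw [h3 u hu]; exact hy.1 u hu
      · rintro ⟨l, hl, hl2⟩
        rcases mem_insert.1 (hql hl) with h | h
        · rw [h] at hl2
          simp only [h1] at hl2
          exact Bool.not_ne_self (x v) hl2.symm
        · apply hy.2
          refine ⟨l, h, ?_⟩
          rcases mem_union.1 (hli l h) with h5 | h5
          · rw [← h3 _ h5]; exact hl2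
          · rw [← h2 _ (hLb _ h5)]; exact hl2
      · intro e he
        have h5 := hyI e he
        unfold EqSat at h5 ⊢
        simp only [h4]
        exact h5
    · intro u hu
      refine ⟨fun h => ?_, (hres u (hqR hu)).2⟩
      rcases mem_insert.1 h with rfl | h
      · exact hqr hu
      · exact (hres u (hqR hu)).1 h
    · intro u hu
      obtain ⟨l, hl, rfl⟩ := mem_image.1 hu
      rcases mem_insert.1 (hql hl) with h | h
      · rw [h]; exact mem_union_left _ (mem_insert_self _ _)
      · rcases mem_union.1 (hli l h) with h5 | h5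
        · exact mem_union_left _ (mem_insert_of_mem h5)
        · exact mem_union_right _ h5
    · intro l hl hlK
      rcases mem_insert.1 (hql hl) with h | h
      · rw [h]
        exact (Bool.not_ne_self (x v)).symm
      · rcases mem_insert.1 hlK with h5 | h5
        · exact (hliv l h h5).elim
        · exact hx l h h5
    · intro b
      by_cases hb : β v = b
      · subst hb
        have h1 : ((insert v Kt).filter fun u => β u = β v).card ≤
            (Kt.filter fun u => β u = β v).card + 1 := by
          rw [filter_insert]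
          split_ifs
          · exact card_insert_le _ _
          · omega
        omega
      · rw [filter_insert, if_neg hb]
        exact hq b
    · intro u hu
      rw [filter_insert, if_neg (hLb u hu).symm]
      exact hL u hu
  · -- case 2
    have heq : (Kt.filter fun u => β u = β v).card + p = (univ.filter fun u => β u = β v).card := by
      have := hq (β v)
      omega
    have hal : ∃ q : Fin R.size, q < i ∧ (∃ a : Bool, R.line q ⊆ insert (v, !a) (R.line i)) ∧
        v ∉ R.res q ∧ R.res q ⊆ R.res i ∧ AliveS β E c r Kt x (R.line q) := by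
      obtain ⟨q0, a1, a2, a3, a4⟩ := hprem false
      obtain ⟨q1, b1, b2, b3, b4⟩ := hprem true
      by_contra hcon
      have c0 : ¬ AliveS β E c r Kt x (R.line q0) := fun h => hcon ⟨q0, a1, ⟨_, a2⟩, a3, a4, h⟩
      have c1 : ¬ AliveS β E c r Kt x (R.line q1) := fun h => hcon ⟨q1, b1, ⟨_, b2⟩, b3, b4, h⟩
      unfold AliveS at c0 c1
      push Not at c0 c1
      obtain ⟨I0, hI0, d0⟩ := c0
      obtain ⟨I1, hI1, d1⟩ := c1
      obtain ⟨y, hy, hyI⟩ := hgood (I0 ∪ I1) (by have := card_union_le I0 I1; omega)
      cases hyv : y v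
      · have hE : ExtS Kt x (R.line q0) y := by
          refine ⟨hy.1, ?_⟩
          rintro ⟨l, hl, hl2⟩
          rcases mem_insert.1 (a2 hl) with h | h
          · rw [h] at hl2; simp [hyv] at hl2
          · exact hy.2 ⟨l, h, hl2⟩
        obtain ⟨e, he, he2⟩ := d0 y hE
        exact he2 (hyI e (mem_union_left _ he))
      · have hE : ExtS Kt x (R.line q1) y := by
          refine ⟨hy.1, ?_⟩
          rintro ⟨l, hl, hl2⟩
          rcases mem_insert.1 (b2 hl) with h | h
          · rw [h] at hl2; simp [hyv] at hl2
          · exact hy.2 ⟨l, h, hl2⟩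
        obtain ⟨e, he, he2⟩ := d1 y hE
        exact he2 (hyI e (mem_union_right _ he))
    obtain ⟨q, hqi, ⟨a, hql⟩, hqr, hqR, hqa⟩ := hal
    refine IH q.val (by have := Fin.lt_def.1 hqi; omega) q rfl Kt (insert v L) hqa ?_ ?_ ?_ hq ?_
    · intro u hu
      refine ⟨(hres u (hqR hu)).1, fun h => ?_⟩
      rcases mem_insert.1 h with rfl | h
      · exact hqr hu
      · exact (hres u (hqR hu)).2 h
    · intro u hu
      obtain ⟨l, hl, rfl⟩ := mem_image.1 hu
      rcases mem_insert.1 (hql hl) with h | h
      · rw [h]; exact mem_union_right _ (mem_insert_self _ _)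
      · rcases mem_union.1 (hli l h) with h5 | h5
        · exact mem_union_left _ h5
        · exact mem_union_right _ (mem_insert_of_mem h5)
    · intro l hl hlK
      rcases mem_insert.1 (hql hl) with h | h
      · rw [h] at hlK
        exact (hvK hlK).elim
      · exact hx l h hlK
    · intro u hu
      rcases mem_insert.1 hu with rfl | hu
      · exact heq
      · exact hL u hu

theorem reg_step_walk [Fact p.Prime] {r : ℕ} (hr : 1 ≤ r) (R : RegRefutation (formula β E c))
    (x : V → Bool) (i : Fin R.size) (Kt L : Finset V)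
    (ha : AliveS β E c r Kt x (R.line i)) (hres : ∀ v ∈ R.res i, v ∉ Kt ∧ v ∉ L)
    (hvars : (R.line i).image Prod.fst ⊆ Kt ∪ L)
    (hx : ∀ l ∈ R.line i, l.1 ∈ Kt → x l.1 ≠ l.2)
    (hq : ∀ j, (Kt.filter fun v => β v = j).card + p ≤ (univ.filter fun v => β v = j).card)
    (hL : ∀ v ∈ L, (Kt.filter fun u => β u = β v).card + p =
      (univ.filter fun u => β u = β v).card) :
    ∃ (j : Fin R.size) (Kt' L' : Finset V), AliveS β E c r Kt' x (R.line j) ∧
      BadS β E c (2 * r) Kt' x (R.line j) ∧ (∀ v ∈ R.res j, v ∉ Kt' ∧ v ∉ L') ∧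
      (R.line j).image Prod.fst ⊆ Kt' ∪ L' ∧ (∀ l ∈ R.line j, l.1 ∈ Kt' → x l.1 ≠ l.2) ∧
      (∀ j, (Kt'.filter fun v => β v = j).card + p ≤ (univ.filter fun v => β v = j).card) ∧
      (∀ v ∈ L', (Kt'.filter fun u => β u = β v).card + p =
        (univ.filter fun u => β u = β v).card) :=
  rwa_aux β E c hr R x i.val i rfl Kt L ha hres hvars hx hq hL

theorem reg_walk [Fact p.Prime] {r : ℕ} (hr : 1 ≤ r) (R : RegRefutation (formula β E c))
    (hc : ∀ I : Finset (Fin m), I.card ≤ r → ∃ x : Fin M → ZMod p, ∀ e ∈ I, ∑ j, E e j * x j = c e)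
    (hp : ∀ j, p ≤ (univ.filter fun v => β v = j).card) (x : V → Bool) :
    ∃ (j : Fin R.size) (Kt' L' : Finset V), AliveS β E c r Kt' x (R.line j) ∧
      BadS β E c (2 * r) Kt' x (R.line j) ∧ (∀ v ∈ R.res j, v ∉ Kt' ∧ v ∉ L') ∧
      (R.line j).image Prod.fst ⊆ Kt' ∪ L' ∧ (∀ l ∈ R.line j, l.1 ∈ Kt' → x l.1 ≠ l.2) ∧
      (∀ j, (Kt'.filter fun v => β v = j).card + p ≤ (univ.filter fun v => β v = j).card) ∧
      (∀ v ∈ L', (Kt'.filter fun u => β u = β v).card + p =
        (univ.filter fun u => β u = β v).card) := by
  classical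
  have hp0 : 0 < p := (Fact.out : p.Prime).pos
  have : NeZero p := ⟨hp0.ne'⟩
  obtain ⟨i0, hi0⟩ := R.root
  refine reg_step_walk β E c hr R x i0 ∅ ∅ ?_ ?_ ?_ ?_ ?_ ?_
  · intro I hI
    obtain ⟨z, hz⟩ := hc I hI
    have hY : ∀ j, ∃ y : V → Bool,
        (∑ v ∈ univ.filter (fun v => β v = j), if y v then (1 : ZMod p) else 0) = z j := by
      intro j
      exact bits _ (by have := hp j; omega) (z j)
    choose Y hY using hY
    have hb : ∀ j, bsum β p (fun v => Y (β v) v) j = z j := by
      intro j
      rw [← hY j]
      unfold bsum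
      refine sum_congr rfl fun v hv => ?_
      have hv2 : β v = j := (mem_filter.1 hv).2
      subst hv2
      rfl
    refine ⟨fun v => Y (β v) v, ⟨?_, ?_⟩, ?_⟩
    · intro v hv; exact absurd hv (notMem_empty v)
    · rintro ⟨l, hl, _⟩
      rw [hi0] at hl
      exact absurd hl (notMem_empty l)
    · intro e he
      unfold EqSat
      simp only [hb]
      exact hz e he
  · intro v _
    exact ⟨notMem_empty v, notMem_empty v⟩
  · rw [hi0]
    simp
  · intro l hl
    rw [hi0] at hl
    exact absurd hl (notMem_empty l)
  · intro j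
    have := hp j
    simp only [filter_empty, card_empty]
    omega
  · intro v hv
    exact absurd hv (notMem_empty v)

end

end Pool.Agent.H27.GR
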