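import Pool.Agent.H27.GR.RFb
import Pool.Agent.H27.GR.RLo
import Pool.Agent.H27.GR.RWa

/-!
# The size of regular refutations

PROOF. Put e = z * b + p * M. CLAIM: for every x there is i with
card {v : x v <> decide ((v, false) in line i)} <= 2 e. Take (i, Kt, L) from reg_walk.
(1) free_blocksS: fewer than z blocks are free for (Kt, line i). A block j that is not free has at
most p - 2 variables outside Kt that are not in vars (line i); it has at least p variables outside Kt
(hq), so some variable of line i in the block is not in Kt, hence in L, and by hL card (Kt cap j) + p =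
s_j. So the variables outside Kt number at most z * b + p * M = e.
(2) F = Kt minus vars (line i). St = Kt minus F. line i is AliveS for St (fewer constraints; St is
contained in Kt). reg_low gives j, alive and bad for St, vars (line j) contained in vars (line i) union
res i, so F is disjoint from vars (line j) (F is disjoint from vars (line i), and from res i since F is
contained in Kt). free_blocksS for (St, line j): fewer than z free blocks; F is contained in
{v not in St, not in vars (line j)}, so card F <= z * b + (p - 2) * M <= e.
(3) For v in Kt cap vars (line i): (v, c) in line i with x v <> c (hx), and not both (v, true) and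
(v, false) are in line i (line i is alive: some y falsifies it); so x v = decide ((v, false) in line i).
The exceptions are outside Kt (at most e) or in F (at most e).
COUNTING. Map x to (i, {v : x v <> decide ((v, false) in line i)}): injective, so
2 ^ card V <= R.size * card {Theta : card Theta <= 2 e}.
-/

namespace Pool.Agent.H27.GR

open Finset

/-- A set with at most `b` elements in the blocks of `Fr` and at most `p` elements in the others. -/
private theorem RSz_sum {V : Type*} [Fintype V] [DecidableEq V] {M : ℕ} (β : V → Fin M)
    {b z p : ℕ} (U : Finset V) (Fr : Finset (Fin M)) (hF : Fr.card ≤ z)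
    (h1 : ∀ j, (U.filter fun v => β v = j).card ≤ b)
    (h2 : ∀ j, j ∉ Fr → (U.filter fun v => β v = j).card ≤ p) : U.card ≤ z * b + p * M := by
  have h0 : U.card = ∑ j : Fin M, (U.filter fun v => β v = j).card :=
    Finset.card_eq_sum_card_fiberwise fun v _ => Finset.mem_coe.2 (Finset.mem_univ (β v))
  have h3 : ∀ j ∈ (univ : Finset (Fin M)), (U.filter fun v => β v = j).card ≤
      (if j ∈ Fr then b else 0) + p := by
    intro j _
    by_cases hj : j ∈ Fr
    · rw [if_pos hj]
      exact (h1 j).trans (Nat.le_add_right _ _)
    · rw [if_neg hj, Nat.zero_add]
      exact h2 j hj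
  calc U.card = ∑ j : Fin M, (U.filter fun v => β v = j).card := h0
    _ ≤ ∑ j : Fin M, ((if j ∈ Fr then b else 0) + p) := Finset.sum_le_sum h3
    _ = Fr.card * b + M * p := by
        rw [Finset.sum_add_distrib, Finset.sum_ite_mem, Finset.univ_inter, Finset.sum_const,
          Finset.sum_const, Finset.card_univ, Fintype.card_fin, smul_eq_mul, smul_eq_mul]
    _ ≤ z * b + p * M := by
        rw [Nat.mul_comm M p]
        exact Nat.add_le_add_right (Nat.mul_le_mul_right b hF) _

section
variable {V : Type*} [Fintype V] [DecidableEq V] {M m p : ℕ} (β : V → Fin M)
  (E : Fin m → Fin M → ZMod p) (c : Fin m → ZMod p)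

/-- Regular refutations are large. -/
theorem reg_size_ge [Fact p.Prime] {r z b : ℕ} (hr : 1 ≤ r) (hE : Exp E r z)
    (hc : ∀ I : Finset (Fin m), I.card ≤ r → ∃ x : Fin M → ZMod p, ∀ e ∈ I, ∑ j, E e j * x j = c e)
    (hp : ∀ j, p ≤ (univ.filter fun v => β v = j).card)
    (hb : ∀ j, (univ.filter fun v => β v = j).card ≤ b) (R : RegRefutation (formula β E c)) :
    2 ^ Fintype.card V ≤ R.size *
      (univ.filter fun Θ : Finset V => Θ.card ≤ 2 * (z * b + p * M)).card := by
  classical
  have hp2 : 2 ≤ p := (Fact.out : p.Prime).two_le
  have key : ∀ x : V → Bool, ∃ i : Fin R.size,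
      (univ.filter fun v => x v ≠ decide ((v, false) ∈ R.line i)).card ≤
        2 * (z * b + p * M) := by
    intro x
    obtain ⟨i, Kt, L, ha, hbad, hres, hvars, hx, hq, hL⟩ := reg_walk β E c hr R hc hp x
    refine ⟨i, ?_⟩
    -- the variables outside `Kt`
    have hout : (univ.filter fun v => v ∉ Kt).card ≤ z * b + p * M := by
      refine RSz_sum β _ (freeS (p := p) β Kt (R.line i))
        (le_of_lt (free_blocksS β E c hE Kt x (R.line i) ha hbad)) ?_ ?_
      · intro j
        refine le_trans (Finset.card_le_card ?_) (hb j)
        intro v hv
        rw [Finset.mem_filter] at hv ⊢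
        exact ⟨Finset.mem_univ _, hv.2⟩
      · intro j hj
        have hsplit : ((univ.filter fun v => v ∉ Kt).filter fun v => β v = j).card +
            (Kt.filter fun v => β v = j).card = (univ.filter fun v => β v = j).card := by
          rw [← Finset.card_union_of_disjoint]
          · congr 1
            ext v
            simp only [Finset.mem_union, Finset.mem_filter, Finset.mem_univ, true_and]
            by_cases hv : v ∈ Kt
            · simp [hv]
            · simp [hv]
          · rw [Finset.disjoint_left]
            intro v hv hv'
            simp only [Finset.mem_filter, Finset.mem_univ, true_and] at hv hv'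
            exact hv.1 hv'.1
        have hqj := hq j
        -- there is a variable of `line i` in the block outside `Kt`
        have hex : ∃ v, β v = j ∧ v ∉ Kt ∧ v ∈ (R.line i).image Prod.fst := by
          by_contra hno
          have hsub : ((univ.filter fun v => v ∉ Kt).filter fun v => β v = j) ⊆
              (univ.filter fun v : V => β v = j ∧ v ∉ (R.line i).image Prod.fst ∧ v ∉ Kt) := by
            intro v hv
            simp only [Finset.mem_filter, Finset.mem_univ, true_and] at hv ⊢
            exact ⟨hv.2, fun h' => hno ⟨v, hv.2, hv.1, h'⟩, hv.1⟩
          have hcard := Finset.card_le_card hsub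
          apply hj
          unfold freeS
          rw [Finset.mem_filter]
          refine ⟨Finset.mem_univ _, ?_⟩
          omega
        obtain ⟨v, hvj, hvK, hvi⟩ := hex
        have hvL : v ∈ L := by
          rcases Finset.mem_union.1 (hvars hvi) with h' | h'
          · exact absurd h' hvK
          · exact h'
        have hLv := hL v hvL
        rw [hvj] at hLv
        omega
    -- the variables of `Kt` that `line i` does not mention
    have hF : (univ.filter fun v => v ∈ Kt ∧ v ∉ (R.line i).image Prod.fst).card ≤
        z * b + p * M := by
      have ha' : AliveS β E c r (Kt.filter fun v => v ∈ (R.line i).image Prod.fst) x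
          (R.line i) := by
        intro I hI
        obtain ⟨y, hy, hy'⟩ := ha I hI
        exact ⟨y, ⟨fun v hv => hy.1 v (Finset.mem_filter.1 hv).1, hy.2⟩, hy'⟩
      obtain ⟨j, hja, hjb, hjv⟩ := reg_low β E c hr R _ x i ha'
      refine RSz_sum β _ (freeS (p := p) β (Kt.filter fun v => v ∈ (R.line i).image Prod.fst)
        (R.line j)) (le_of_lt (free_blocksS β E c hE _ x (R.line j) hja hjb)) ?_ ?_
      · intro k
        refine le_trans (Finset.card_le_card ?_) (hb k)
        intro v hv
        rw [Finset.mem_filter] at hv ⊢
        exact ⟨Finset.mem_univ _, hv.2⟩
      · intro k hk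
        have hsub : ((univ.filter fun v => v ∈ Kt ∧ v ∉ (R.line i).image Prod.fst).filter
            fun v => β v = k) ⊆ (univ.filter fun v : V => β v = k ∧
              v ∉ (R.line j).image Prod.fst ∧
              v ∉ Kt.filter fun v => v ∈ (R.line i).image Prod.fst) := by
          intro v hv
          simp only [Finset.mem_filter, Finset.mem_univ, true_and] at hv ⊢
          obtain ⟨⟨hvK, hvi⟩, hvk⟩ := hv
          refine ⟨hvk, ?_, fun h' => hvi h'.2⟩
          intro hvj
          rcases Finset.mem_union.1 (hjv hvj) with h' | h'
          · exact hvi h'
          · exact (hres v h').1 hvK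
        have hcard := Finset.card_le_card hsub
        by_contra hlt
        apply hk
        unfold freeS
        rw [Finset.mem_filter]
        refine ⟨Finset.mem_univ _, ?_⟩
        omega
    have hsub : (univ.filter fun v => x v ≠ decide ((v, false) ∈ R.line i)) ⊆
        (univ.filter fun v => v ∉ Kt) ∪
          (univ.filter fun v => v ∈ Kt ∧ v ∉ (R.line i).image Prod.fst) := by
      intro v hv
      rw [Finset.mem_filter] at hv
      rw [Finset.mem_union, Finset.mem_filter, Finset.mem_filter]
      by_cases hvK : v ∈ Kt
      · by_cases hvi : v ∈ (R.line i).image Prod.fst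
        · exfalso
          apply hv.2
          by_cases hf : (v, false) ∈ R.line i
          · have h1 : x v ≠ false := hx (v, false) hf hvK
            rw [decide_eq_true hf]
            cases hxv : x v
            · exact absurd hxv h1
            · rfl
          · obtain ⟨l, hl, hlv⟩ := Finset.mem_image.1 hvi
            have hl2 : l.2 = true := by
              cases h2 : l.2
              · exfalso
                apply hf
                have : l = (v, false) := Prod.ext hlv h2
                rw [← this]
                exact hl
              · rfl
            have h1 : x l.1 ≠ l.2 := hx l hl (by rw [hlv]; exact hvK)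
            rw [hlv, hl2] at h1
            rw [decide_eq_false hf]
            cases hxv : x v
            · rfl
            · exact absurd hxv h1
        · exact Or.inr ⟨Finset.mem_univ _, hvK, hvi⟩
      · exact Or.inl ⟨Finset.mem_univ _, hvK⟩
    have h1 := Finset.card_le_card hsub
    have h2 := Finset.card_union_le (univ.filter fun v => v ∉ Kt)
      (univ.filter fun v => v ∈ Kt ∧ v ∉ (R.line i).image Prod.fst)
    omega
  choose f hf using key
  have hinj : Function.Injective fun x : V → Bool =>
      (f x, univ.filter fun v => x v ≠ decide ((v, false) ∈ R.line (f x))) := by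
    intro x y hxy
    have h1 : f x = f y := congrArg Prod.fst hxy
    have h2 : (univ.filter fun v => x v ≠ decide ((v, false) ∈ R.line (f x))) =
        univ.filter fun v => y v ≠ decide ((v, false) ∈ R.line (f y)) := congrArg Prod.snd hxy
    rw [h1] at h2
    funext v
    have h3 : x v ≠ decide ((v, false) ∈ R.line (f y)) ↔
        y v ≠ decide ((v, false) ∈ R.line (f y)) := by
      have := Finset.ext_iff.1 h2 v
      simp only [Finset.mem_filter, Finset.mem_univ, true_and] at this
      exact this
    cases hxv : x v <;> cases hyv : y v <;> cases hd : decide ((v, false) ∈ R.line (f y)) <;>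
      simp [hxv, hyv, hd] at h3 ⊢
  have hcard : (univ : Finset (V → Bool)).card ≤
      ((univ : Finset (Fin R.size)) ×ˢ
        (univ.filter fun Θ : Finset V => Θ.card ≤ 2 * (z * b + p * M))).card := by
    refine Finset.card_le_card_of_injOn (fun x : V → Bool =>
      (f x, univ.filter fun v => x v ≠ decide ((v, false) ∈ R.line (f x)))) ?_
      (fun x _ y _ hxy => hinj hxy)
    intro x _
    rw [Finset.mem_coe, Finset.mem_product, Finset.mem_filter]
    exact ⟨Finset.mem_univ _, Finset.mem_univ _, hf x⟩
  rw [Finset.card_product, Finset.card_univ, Finset.card_univ, Fintype.card_fin,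
    Fintype.card_fun, Fintype.card_bool] at hcard
  exact hcard

end

end Pool.Agent.H27.GR
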