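import Pool.Agent.H27.GR.Defs

/-!
# Resolution, linear systems over `ZMod p` in block sums, and the statements of Parts II and III
-/

namespace Pool.Agent.H27.GR

open Finset

/-- The assignment `x` satisfies the clause `C`, a set of literals; the literal `(v, c)` says that
the variable `v` has the value `c`. -/
def ClauseSat {V : Type*} (x : V → Bool) (C : Finset (V × Bool)) : Prop := ∃ l ∈ C, x l.1 = l.2

/-- A resolution refutation of `F`: a sequence of clauses with the empty clause among them, in which
every clause contains a clause of `F`, or it contains the resolvent of two earlier clauses `line j`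
and `line k` on some variable `v`. -/
structure Refutation {V : Type*} [DecidableEq V] (F : Finset (Finset (V × Bool))) where
  /-- the number of clauses -/
  size : ℕ
  /-- the clauses -/
  line : Fin size → Finset (V × Bool)
  step : ∀ i, (∃ C ∈ F, C ⊆ line i) ∨ ∃ j < i, ∃ k < i, ∃ v, (v, true) ∈ line j ∧
    (v, false) ∈ line k ∧ (line j).erase (v, true) ∪ (line k).erase (v, false) ⊆ line i
  root : ∃ i, line i = ∅

/-- The sum modulo `p` of the variables of the block `j`. -/
def bsum {V : Type*} [Fintype V] {M : ℕ} (β : V → Fin M) (p : ℕ) (y : V → Bool) (j : Fin M) :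
    ZMod p := ∑ v ∈ univ.filter (fun v => β v = j), if y v then 1 else 0

/-- The assignment `y` satisfies the equation `e` of the system `E z = c` in the block sums. -/
def EqSat {V : Type*} [Fintype V] {M m p : ℕ} (β : V → Fin M) (E : Fin m → Fin M → ZMod p)
    (c : Fin m → ZMod p) (y : V → Bool) (e : Fin m) : Prop := ∑ j, E e j * bsum β p y j = c e

/-- The variables of the equation `e`. -/
def evars {V : Type*} [Fintype V] {M m p : ℕ} (β : V → Fin M) (E : Fin m → Fin M → ZMod p)
    (e : Fin m) : Finset V := univ.filter fun v => E e (β v) ≠ 0

open Classical in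
/-- The formula that says `E z = c`: for every equation and every assignment that violates it, the
clause on the variables of the equation that forbids the assignment. -/
noncomputable def formula {V : Type*} [Fintype V] {M m p : ℕ} (β : V → Fin M)
    (E : Fin m → Fin M → ZMod p) (c : Fin m → ZMod p) : Finset (Finset (V × Bool)) :=
  univ.biUnion fun e => (univ.filter fun y : V → Bool => ¬ EqSat β E c y e).image
    fun y => (evars β E e).image fun v => (v, !(y v))

/-- The support of `l`. -/
def supp {m p : ℕ} (l : Fin m → ZMod p) : Finset (Fin m) := univ.filter fun e => l e ≠ 0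

/-- The zeros of the combination `l E` of the rows. -/
def zeros {M m p : ℕ} (E : Fin m → Fin M → ZMod p) (l : Fin m → ZMod p) : Finset (Fin M) :=
  univ.filter fun j => ∑ e, l e * E e j = 0

/-- Every combination of more than `r / 2` and at most `2 r` rows has fewer than `z` zeros. -/
def Exp {M m p : ℕ} (E : Fin m → Fin M → ZMod p) (r z : ℕ) : Prop :=
  ∀ l : Fin m → ZMod p, r < 2 * (supp l).card → (supp l).card ≤ 2 * r → (zeros E l).card < z

/-- The right side `c` is orthogonal to all small dependencies of the rows. -/
def Orth {M m p : ℕ} (E : Fin m → Fin M → ZMod p) (c : Fin m → ZMod p) (r : ℕ) : Prop :=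
  ∀ l : Fin m → ZMod p, (∀ j, ∑ e, l e * E e j = 0) → (supp l).card ≤ 2 * r → ∑ e, l e * c e = 0

/-- The assignment `y` agrees with the subcube `t` of the variables outside `X`, and falsifies the
clause `C`. -/
def Ext {V : Type*} (X : Finset V) (t : {v // v ∉ X} → Option Bool) (C : Finset (V × Bool))
    (y : V → Bool) : Prop := (∀ v, t v = none ∨ t v = some (y v)) ∧ ¬ ClauseSat y C

/-- The clause `C` is alive: at most `r` equations never exclude all extensions. -/
def Alive {V : Type*} [Fintype V] {M m p : ℕ} (β : V → Fin M) (E : Fin m → Fin M → ZMod p)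
    (c : Fin m → ZMod p) (r : ℕ) (X : Finset V) (C : Finset (V × Bool))
    (t : {v // v ∉ X} → Option Bool) : Prop :=
  ∀ I : Finset (Fin m), I.card ≤ r → ∃ y, Ext X t C y ∧ ∀ e ∈ I, EqSat β E c y e

end Pool.Agent.H27.GR
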