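import Pool.Agent.H27.GR.Bi

/-!
# The empty clause is alive

PROOF. Let I have at most r elements, x a solution of the equations in I (hc). Let y0 be any
assignment that agrees with t outside X (y0 v = (t v).getD false). For every block j choose by bits
values on X cap block j with sum x j - (sum of y0 over the block minus X). The resulting y agrees with
y0 outside X, so with t; the empty clause is not satisfied by y; bsum y j = x j for all j.
-/

namespace Pool.Agent.H27.GR

open Finset

section
variable {V : Type*} [Fintype V] [DecidableEq V] {M m p : ℕ} (β : V → Fin M)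
  (E : Fin m → Fin M → ZMod p) (c : Fin m → ZMod p)

/-- The empty clause is alive. -/
theorem root_alive [NeZero p] {r : ℕ} (X : Finset V)
    (hc : ∀ I : Finset (Fin m), I.card ≤ r → ∃ x : Fin M → ZMod p, ∀ e ∈ I, ∑ j, E e j * x j = c e)
    (hX : ∀ j, p - 1 ≤ (X.filter fun v => β v = j).card) (t : {v // v ∉ X} → Option Bool) :
    Alive β E c r X ∅ t := by
  classical
  intro I hI
  obtain ⟨x, hx⟩ := hc I hI
  obtain ⟨y0, hy0⟩ : ∃ y0 : V → Bool, ∀ v : {v // v ∉ X}, y0 v = (t v).getD false :=
    ⟨fun v => if h : v ∈ X then false else (t ⟨v, h⟩).getD false, fun v => by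
      simp [v.2]⟩
  have hb : ∀ j, ∃ y : V → Bool,
      (∑ v ∈ X.filter (fun v => β v = j), if y v then (1 : ZMod p) else 0) =
        x j - ∑ v ∈ univ.filter (fun v => β v = j ∧ v ∉ X), if y0 v then (1 : ZMod p) else 0 :=
    fun j => bits _ (hX j) _
  choose y hy using hb
  have hsum : ∀ j, bsum β p (fun v => if v ∈ X then y (β v) v else y0 v) j = x j := by
    intro j
    have h1 : univ.filter (fun v => β v = j) =
        X.filter (fun v => β v = j) ∪ univ.filter (fun v => β v = j ∧ v ∉ X) := by
      ext v
      simp only [mem_filter, mem_univ, true_and, mem_union]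
      tauto
    have h2 : Disjoint (X.filter (fun v => β v = j)) (univ.filter (fun v => β v = j ∧ v ∉ X)) := by
      rw [Finset.disjoint_left]
      intro v h h'
      simp only [mem_filter, mem_univ, true_and] at h h'
      exact h'.2 h.1
    unfold bsum
    rw [h1, Finset.sum_union h2]
    have h3 : (∑ v ∈ X.filter (fun v => β v = j),
        if (if v ∈ X then y (β v) v else y0 v) then (1 : ZMod p) else 0) =
        ∑ v ∈ X.filter (fun v => β v = j), if y j v then (1 : ZMod p) else 0 := by
      refine Finset.sum_congr rfl fun v hv => ?_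
      rw [mem_filter] at hv
      rw [if_pos hv.1, hv.2]
    have h4 : (∑ v ∈ univ.filter (fun v => β v = j ∧ v ∉ X),
        if (if v ∈ X then y (β v) v else y0 v) then (1 : ZMod p) else 0) =
        ∑ v ∈ univ.filter (fun v => β v = j ∧ v ∉ X), if y0 v then (1 : ZMod p) else 0 := by
      refine Finset.sum_congr rfl fun v hv => ?_
      rw [mem_filter] at hv
      rw [if_neg hv.2.2]
    rw [h3, h4, hy j]
    ring
  refine ⟨fun v => if v ∈ X then y (β v) v else y0 v, ⟨?_, ?_⟩, ?_⟩
  · intro v
    rcases h : t v with _ | b
    · exact Or.inl rfl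
    · refine Or.inr ?_
      show some b = some (if (v : V) ∈ X then y (β v) v else y0 v)
      rw [if_neg v.2, hy0 v, h]
      rfl
  · rintro ⟨l, hl, -⟩
    simp at hl
  · intro e he
    show ∑ j, E e j * bsum β p _ j = c e
    rw [← hx e he]
    exact Finset.sum_congr rfl fun j _ => by rw [hsum j]

end

end Pool.Agent.H27.GR
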