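import Pool.Agent.H27.GR.Res

/-!
# Solving a system in some of the unknowns

PROOF. Let A : (Z -> F) -> (I -> F) be the linear map x |-> (e |-> sum_{j in Z} E e j * x j). If
d restricted to I is not in the range W of A, some linear functional f on (I -> F) vanishes on W and
not at d (Submodule.exists_le_ker_of_notMem or Submodule.exists_dual_map_eq_bot_of_notMem; over a
field). Put l e = f (Pi.single e 1) for e in I and 0 otherwise: f y = sum_e l e * y e
(LinearMap.pi_apply_eq_sum_univ). f = 0 on the columns gives sum_e l e * E e j = 0 for j in Z, and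
f d = sum_e l e * d e <> 0: contradiction with h.
-/

namespace Pool.Agent.H27.GR

open Finset

/-- Solving a system in the unknowns `Z`. -/
theorem solve {M m p : ℕ} [Fact p.Prime] (E : Fin m → Fin M → ZMod p) (I : Finset (Fin m))
    (Z : Finset (Fin M)) (d : Fin m → ZMod p)
    (h : ∀ l : Fin m → ZMod p, supp l ⊆ I → (∀ j ∈ Z, ∑ e, l e * E e j = 0) →
      ∑ e, l e * d e = 0) :
    ∃ x : Fin M → ZMod p, ∀ e ∈ I, ∑ j ∈ Z, E e j * x j = d e := by
  classical
  -- the linear map
  let A : (Fin M → ZMod p) →ₗ[ZMod p] ({e // e ∈ I} → ZMod p) :=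
    { toFun := fun x e => ∑ j ∈ Z, E e.1 j * x j
      map_add' := by
        intro x y
        funext e
        simp [mul_add, sum_add_distrib]
      map_smul' := by
        intro a x
        funext e
        simp only [Pi.smul_apply, smul_eq_mul, RingHom.id_apply, mul_sum]
        exact sum_congr rfl fun j _ => by ring }
  by_cases hd : (fun e : {e // e ∈ I} => d e.1) ∈ LinearMap.range A
  · obtain ⟨x, hx⟩ := hd
    exact ⟨x, fun e he => congrFun hx ⟨e, he⟩⟩
  · exfalso
    obtain ⟨f, hf1, hf2⟩ := Submodule.exists_le_ker_of_notMem hd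
    have hf : ∀ y : {e // e ∈ I} → ZMod p, f y = ∑ e, y e * f (Pi.single e 1) := by
      intro y
      rw [LinearMap.pi_apply_eq_sum_univ f y]
      refine sum_congr rfl fun e _ => ?_
      rw [smul_eq_mul]
      congr 2
      funext j
      by_cases hj : e = j
      · subst hj; simp
      · simp [hj, Pi.single_apply, eq_comm]
    let l : Fin m → ZMod p := fun e => if he : e ∈ I then f (Pi.single ⟨e, he⟩ 1) else 0
    have hl : ∀ y : Fin m → ZMod p, ∑ e, l e * y e = f fun e => y e.1 := by
      intro y
      rw [hf, ← Finset.sum_subset (Finset.subset_univ I) (f := fun e => l e * y e), ← Finset.sum_coe_sort I]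
      · refine sum_congr rfl fun e _ => ?_
        simp [l, e.2, mul_comm]
      · intro e _ he
        simp [l, he]
    apply hf1
    rw [← hl]
    refine h l ?_ ?_
    · intro e he
      by_contra hI
      simp [supp, l, hI] at he
    · intro j hj
      rw [hl]
      have h1 : (fun e : {e // e ∈ I} => E e.1 j) = A (Pi.single j 1) := by
        funext e
        show E e.1 j = ∑ j' ∈ Z, E e.1 j' * (Pi.single j 1 : Fin M → ZMod p) j'
        rw [sum_eq_single j]
        · simp
        · intro b _ hb
          simp [Pi.single_eq_of_ne hb]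
        · intro hj'
          exact absurd hj hj'
      rw [h1]
      exact hf2 ⟨_, rfl⟩

end Pool.Agent.H27.GR
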