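import Pool.Agent.H27.GR.Res

/-!
# The system of nodes of a refutation

PROOFS. agree: I = empty gives y with Ext; v is not in S i, so (v, c) is in line i for some c and
y v <> c; so y v = decide ((v, false) in line i) (if (v, false) is in the line, y v = true; otherwise
(v, true) is in it and y v = false), and t v = none or t v = some (y v).
mono: the same y. sums: given I take y for t and put y' v = y v if v in X; for v outside X: if v is not
in S i (v occurs in the line): y' v = y v; if v in S i: y' v = the value of t' v if t' v <> none, else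
y v. Ext X t' (line i) y': for v not in S i: t' v = none or some (a i v) = some (y v) as in agree; the
variables of the line have y' = y (those outside X are not in S i). Block sums: bsum y' j - bsum y j =
(number of v in S i, beta v = j, t' v = some true) - (the same for t) = 0: on S i, t' v = none iff
t v = none, there y' v = y v, otherwise y' v is the value of t' v and y v is the value of t v; split
the block into {v in S i (outside X), t v <> none} and the rest.
-/

namespace Pool.Agent.H27.GR

open Finset

section
variable {V : Type*} [Fintype V] [DecidableEq V] {M m p : ℕ} (β : V → Fin M)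
  (E : Fin m → Fin M → ZMod p) (c : Fin m → ZMod p)

/-- The node `i` of a refutation does not mention the variables in this set. -/
def unm (X : Finset V) (C : Finset (V × Bool)) : Finset {v // v ∉ X} :=
  univ.filter fun v => v.1 ∉ C.image Prod.fst

private theorem mem_unm_aux (X : Finset V) (C : Finset (V × Bool)) :
    ∀ v : {v // v ∉ X}, v ∈ unm X C ↔ v.1 ∉ C.image Prod.fst := fun v => by
  rw [unm, Finset.mem_filter]
  exact ⟨fun h => h.2, fun h => ⟨mem_univ _, h⟩⟩

omit [Fintype V] in
private theorem sys_val {C : Finset (V × Bool)} {y : V → Bool} (h : ¬ ClauseSat y C) {v : V}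
    (hv : v ∈ C.image Prod.fst) : y v = decide ((v, false) ∈ C) := by
  obtain ⟨l, hl, rfl⟩ := Finset.mem_image.1 hv
  have key : ∀ l ∈ C, y l.1 ≠ l.2 := fun l hl he => h ⟨l, hl, he⟩
  by_cases hf : (l.1, false) ∈ C
  · have h1 := key _ hf
    rw [decide_eq_true hf]
    simpa using h1
  · rw [decide_eq_false hf]
    obtain ⟨v, b⟩ := l
    cases b with
    | false => exact absurd hl hf
    | true => simpa using key _ hl

private theorem sys_bsum (y : V → Bool) (j : Fin M) (X : Finset V) :
    bsum β p y j = (∑ v : {v // v ∈ X}, if β v.1 = j then (if y v.1 then (1 : ZMod p) else 0) else 0)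
      + ∑ v : {v // v ∉ X}, if β v.1 = j then (if y v.1 then (1 : ZMod p) else 0) else 0 := by
  unfold bsum
  rw [Finset.sum_filter]
  have h := (Fintype.sum_subtype_add_sum_subtype (fun v => v ∈ X)
    (fun v => if β v = j then (if y v then (1 : ZMod p) else 0) else 0)).symm
  convert h using 2; exact Finset.sum_congr (by ext; simp) fun _ _ => rfl

private theorem sys_cnt (X : Finset V) (S : Finset {v // v ∉ X}) (t : {v // v ∉ X} → Option Bool)
    (j : Fin M) : ((cnt (fun v : {v // v ∉ X} => β v.1) S t j : ℕ) : ZMod p) =
      ∑ v : {v // v ∉ X}, if v ∈ S ∧ β v.1 = j ∧ t v = some true then (1 : ZMod p) else 0 := by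
  unfold cnt
  rw [Finset.sum_boole]

theorem alive_agree (r : ℕ) (X : Finset V) (C : Finset (V × Bool)) (t : {v // v ∉ X} → Option Bool)
    (h : Alive β E c r X C t) (v : {v // v ∉ X}) (hv : v ∉ unm X C) :
    t v = none ∨ t v = some (decide ((v.1, false) ∈ C)) := by
  obtain ⟨y, ⟨hy1, hy2⟩, -⟩ := h ∅ (by simp)
  have hv' : v.1 ∈ C.image Prod.fst := by
    by_contra h'
    exact hv ((mem_unm_aux X C v).2 h')
  rcases hy1 v with h | h
  · exact Or.inl h
  · refine Or.inr ?_
    rw [h, sys_val hy2 hv']

theorem alive_mono (r : ℕ) (X : Finset V) (C : Finset (V × Bool))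
    (t t' : {v // v ∉ X} → Option Bool) (ht : ∀ v, t' v = none ∨ t' v = t v)
    (h : Alive β E c r X C t) : Alive β E c r X C t' := by
  intro I hI
  obtain ⟨y, ⟨hy1, hy2⟩, hy3⟩ := h I hI
  refine ⟨y, ⟨fun v => ?_, hy2⟩, hy3⟩
  rcases ht v with h | h
  · exact Or.inl h
  · rw [h]
    exact hy1 v

theorem alive_sums (r : ℕ) (X : Finset V) (C : Finset (V × Bool))
    (t t' : {v // v ∉ X} → Option Bool) (h : Alive β E c r X C t)
    (h1 : ∀ v ∈ unm X C, t' v = none ↔ t v = none)
    (h2 : ∀ v, v ∉ unm X C → t' v = none ∨ t' v = some (decide ((v.1, false) ∈ C)))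
    (h3 : ∀ j, cnt (fun v : {v // v ∉ X} => β v.1) (unm X C) t' j =
      cnt (fun v : {v // v ∉ X} => β v.1) (unm X C) t j) : Alive β E c r X C t' := by
  intro I hI
  obtain ⟨y, ⟨hy1, hy2⟩, hy3⟩ := h I hI
  have hmem := mem_unm_aux X C
  generalize unm X C = S at *
  let y' : V → Bool := fun v => if h : v ∉ X then
    (if (⟨v, h⟩ : {v // v ∉ X}) ∈ S then (t' ⟨v, h⟩).getD (y v) else y v) else y v
  have e0 : ∀ v : {v // v ∉ X}, y' v.1 = if v ∈ S then (t' v).getD (y v.1) else y v.1 :=
    fun v => dif_pos v.2
  have e1 : ∀ v ∈ X, y' v = y v := fun v hv => dif_neg (fun h => h hv)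
  have hC : ¬ ClauseSat y' (C) := by
    rintro ⟨l, hl, hle⟩
    refine hy2 ⟨l, hl, ?_⟩
    rw [← hle]
    by_cases hX : l.1 ∈ X
    · exact (e1 _ hX).symm
    · rw [e0 ⟨l.1, hX⟩, if_neg]
      rw [hmem]
      exact fun h => h (Finset.mem_image_of_mem _ hl)
  refine ⟨y', ⟨fun v => ?_, hC⟩, fun e he => ?_⟩
  · by_cases hv : v ∈ S
    · rw [e0 v, if_pos hv]
      rcases h : t' v with _ | b
      · exact Or.inl rfl
      · exact Or.inr rfl
    · rcases h2 v hv with h | h
      · exact Or.inl h
      · refine Or.inr ?_
        rw [h, e0 v, if_neg hv]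
        have hv' : v.1 ∈ (C).image Prod.fst := by
          by_contra h'
          exact hv ((hmem v).2 h')
        rw [sys_val hy2 hv']
  · have hb : ∀ j, bsum β p y' j = bsum β p y j := by
      intro j
      have hc := congrArg (Nat.cast : ℕ → ZMod p) (h3 j)
      rw [sys_cnt, sys_cnt] at hc
      rw [sys_bsum β y' j X, sys_bsum β y j X]
      have g1 : (∑ v : {v // v ∈ X}, if β v.1 = j then
          (if y' v.1 then (1 : ZMod p) else 0) else 0) = ∑ v : {v // v ∈ X},
          if β v.1 = j then (if y v.1 then (1 : ZMod p) else 0) else 0 :=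
        Finset.sum_congr rfl fun v _ => by rw [e1 v.1 v.2]
      have g2 : (∑ v : {v // v ∉ X}, if β v.1 = j then
          (if y' v.1 then (1 : ZMod p) else 0) else 0) +
          (∑ v : {v // v ∉ X}, if v ∈ S ∧ β v.1 = j ∧ t v = some true then
            (1 : ZMod p) else 0) =
          (∑ v : {v // v ∉ X}, if β v.1 = j then
            (if y v.1 then (1 : ZMod p) else 0) else 0) +
          ∑ v : {v // v ∉ X}, if v ∈ S ∧ β v.1 = j ∧ t' v = some true then
            (1 : ZMod p) else 0 := by
        rw [← Finset.sum_add_distrib, ← Finset.sum_add_distrib]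
        refine Finset.sum_congr rfl fun v _ => ?_
        rw [e0 v]
        by_cases hj : β v.1 = j
        · by_cases hv : v ∈ S
          · have hf := h1 v hv
            rcases ht : t v with _ | b
            · have ht' : t' v = none := hf.2 ht
              simp [hj, hv, ht']
            · rcases ht' : t' v with _ | b'
              · rw [hf.1 ht'] at ht
                exact absurd ht (by simp)
              · rcases hy1 v with h | h
                · rw [h] at ht
                  exact absurd ht (by simp)
                · rw [ht] at h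
                  have hyb : y v.1 = b := (Option.some.inj h).symm
                  rw [hyb]
                  cases b <;> cases b' <;> simp [hj, hv]
          · simp [hv]
        · simp [hj]
      rw [hc] at g2
      rw [g1, add_right_cancel g2]
    have := hy3 e he
    unfold EqSat at this ⊢
    rw [← this]
    exact Finset.sum_congr rfl fun j _ => by rw [hb j]

/-- The system of nodes of a refutation. -/
noncomputable def sys (R : Refutation (formula β E c)) (r : ℕ) (X : Finset V) :
    Sys {v // v ∉ X} (Fin M) (fun v => β v.1) R.size where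
  S i := unm X (R.line i)
  a i v := decide ((v.1, false) ∈ R.line i)
  alive i t := Alive β E c r X (R.line i) t
  agree i t h v hv := alive_agree β E c r X _ t h v hv
  mono i t t' ht h := alive_mono β E c r X _ t t' ht h
  sums i t t' h h1 h2 h3 := alive_sums β E c r X _ t t' h h1 h2 h3

end

end Pool.Agent.H27.GR
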