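import Pool.Agent.H27.GR.Sy
import Pool.Agent.H27.GR.Ro
import Pool.Agent.H27.GR.Lo
import Pool.Agent.H27.GR.Fb
import Pool.Agent.H27.GR.Core

/-!
# The size of a refutation

PROOF. Apply main to sys with K = {v // v not in X}, B = Fin M, e = z * b + p * M. hb: fibres of the
restricted map are images of the fibres of beta. hl: for t the set of i with Alive is nonempty
(root_alive for R.root), take the least one i (Fin.find or Finset.min'); low_bad and free_blocks:
fewer than z blocks j are free. The v in unm X (line i) with t v = none all lie in the set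
{v : beta v = j, v not in vars, t v = none} of their block; blocks that are not free contribute at most
p - 2 <= p each (card <= p - 1 - 1), free ones at most b: total <= z * b + p * M
(card_eq_sum_card_fiberwise, or card_le_mul_card_image). card K = card V - card X and
card X = (p - 1) * M (sum over the blocks of hX).
-/

namespace Pool.Agent.H27.GR

open Finset

section
variable {V : Type*} [Fintype V] [DecidableEq V] {M m p : ℕ} (β : V → Fin M)
  (E : Fin m → Fin M → ZMod p) (c : Fin m → ZMod p)

/-- Part III. -/
theorem size_ge [Fact p.Prime] {r z b : ℕ} (hr : 1 ≤ r) (hE : Exp E r z)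
    (hc : ∀ I : Finset (Fin m), I.card ≤ r → ∃ x : Fin M → ZMod p, ∀ e ∈ I, ∑ j, E e j * x j = c e)
    (hb : ∀ j, (univ.filter fun v => β v = j).card ≤ b) (X : Finset V)
    (hX : ∀ j, (X.filter fun v => β v = j).card = p - 1) (R : Refutation (formula β E c)) :
    (638 / 415 : ℝ) ^ (Fintype.card V - (p - 1) * M) ≤
      R.size * (b + 1) ^ (3 * M) * (638 / 415) ^ (z * b + p * M) *
        ((univ.filter fun Θ : Finset {v // v ∉ X} => Θ.card ≤ z * b + p * M).card) ^ 2 := by
  classical
  have hX' : ∀ j, p - 1 ≤ (X.filter fun v => β v = j).card := fun j => (hX j).ge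
  -- the blocks outside X
  have hbK : ∀ j, (univ.filter fun v : {v // v ∉ X} => β v.1 = j).card ≤ b := by
    intro j
    refine le_trans ?_ (hb j)
    refine card_le_card_of_injOn (fun v => v.1) ?_ ?_
    · intro v hv
      have := (mem_filter.1 (mem_coe.1 hv)).2
      exact mem_coe.2 (mem_filter.2 ⟨mem_univ _, this⟩)
    · intro v _ w _ h
      exact Subtype.ext h
  have hl : ∀ t : {v // v ∉ X} → Option Bool, ∃ i, (sys β E c R r X).Low i t ∧
      (((sys β E c R r X).S i).filter fun v => t v = none).card ≤ z * b + p * M := by
    intro t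
    obtain ⟨i₀, hi₀⟩ := R.root
    have hne : {i : Fin R.size | Alive β E c r X (R.line i) t}.Nonempty := by
      refine ⟨i₀, ?_⟩
      show Alive β E c r X (R.line i₀) t
      rw [hi₀]
      exact root_alive β E c X hc hX' t
    obtain ⟨i, hi, hmin⟩ := WellFounded.has_min
      (wellFounded_lt : WellFounded (fun a b : Fin R.size => a < b)) _ hne
    have hlow : ∀ j < i, ¬ Alive β E c r X (R.line j) t := fun j hj hj' => hmin j hj' hj
    refine ⟨i, ⟨hi, hlow⟩, ?_⟩
    have hF := free_blocks β E c hE X (R.line i) t hi (low_bad β E c hr R X t i hlow)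
    have hsum : (((sys β E c R r X).S i).filter fun v => t v = none).card =
        ∑ j : Fin M, ((((sys β E c R r X).S i).filter fun v => t v = none).filter
          fun v => β v.1 = j).card :=
      card_eq_sum_card_fiberwise (fun v _ => mem_coe.2 (mem_univ (β v.1)))
    rw [hsum]
    have hle : ∀ j : Fin M, ((((sys β E c R r X).S i).filter fun v => t v = none).filter
          fun v => β v.1 = j).card ≤ (univ.filter fun v : V => β v = j ∧
          v ∉ (R.line i).image Prod.fst ∧ ∀ h : v ∉ X, t ⟨v, h⟩ = none).card := by
      intro j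
      refine card_le_card_of_injOn (fun v => v.1) ?_ ?_
      · intro v hv
        have h1 := mem_filter.1 (mem_coe.1 hv)
        have h2 := mem_filter.1 h1.1
        have h3 : v.1 ∉ (R.line i).image Prod.fst := (mem_filter.1 h2.1).2
        exact mem_coe.2 (mem_filter.2 ⟨mem_univ _, h1.2, h3, fun _ => h2.2⟩)
      · intro v _ w _ h
        exact Subtype.ext h
    have hle2 : ∀ j : Fin M, ((((sys β E c R r X).S i).filter fun v => t v = none).filter
          fun v => β v.1 = j).card ≤ (if p - 1 ≤ (univ.filter fun v : V => β v = j ∧
          v ∉ (R.line i).image Prod.fst ∧ ∀ h : v ∉ X, t ⟨v, h⟩ = none).card then b else 0) + p := by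
      intro j
      have h1 := hle j
      by_cases h : p - 1 ≤ (univ.filter fun v : V => β v = j ∧
          v ∉ (R.line i).image Prod.fst ∧ ∀ h : v ∉ X, t ⟨v, h⟩ = none).card
      · rw [if_pos h]
        have h2 : (univ.filter fun v : V => β v = j ∧
          v ∉ (R.line i).image Prod.fst ∧ ∀ h : v ∉ X, t ⟨v, h⟩ = none).card ≤
          (univ.filter fun v : V => β v = j).card := by
          refine card_le_card ?_
          intro v hv
          exact mem_filter.2 ⟨mem_univ _, (mem_filter.1 hv).2.1⟩
        have h3 := hb j
        omega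
      · rw [if_neg h]
        omega
    refine le_trans (sum_le_sum fun j _ => hle2 j) ?_
    rw [sum_add_distrib, sum_const, card_univ, Fintype.card_fin, smul_eq_mul, ← sum_filter,
      sum_const, smul_eq_mul]
    have h4 : (univ.filter fun j => p - 1 ≤ (univ.filter fun v : V => β v = j ∧
      v ∉ (R.line i).image Prod.fst ∧ ∀ h : v ∉ X, t ⟨v, h⟩ = none).card).card * b ≤ z * b :=
      Nat.mul_le_mul_right _ hF.le
    have h5 : M * p = p * M := Nat.mul_comm _ _
    omega
  have hmain := main (sys β E c R r X) hbK hl
  have hcardX : X.card = (p - 1) * M := by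
    have h1 : X.card = ∑ j : Fin M, (X.filter fun v => β v = j).card :=
      card_eq_sum_card_fiberwise (fun v _ => mem_coe.2 (mem_univ (β v)))
    rw [h1, sum_congr rfl (fun j _ => hX j), sum_const, card_univ, Fintype.card_fin, smul_eq_mul,
      Nat.mul_comm]
  have hcardK : Fintype.card {v // v ∉ X} = Fintype.card V - (p - 1) * M := by
    rw [← hcardX, Fintype.card_subtype_compl, Fintype.card_coe]
  rw [hcardK, Fintype.card_fin] at hmain
  exact hmain

end

end Pool.Agent.H27.GR
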