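import Pool.Agent.H27.GR.Fo

/-!
# The formulas have refutations of size about `3 ^ (n / 2)`

PROOF. Pair up the variables of every block (at most one variable of a block stays single). A state
assigns to every pair one of E (not mentioned, supposed sum 1), 00, 11, and to every single variable
one of E (not mentioned, supposed value 0), 1. The clause of a state forbids its recorded values. The
supposed block sums of a state violate some equation e (hc). Query the variables of the E pairs and E
singles in the blocks of e: a decision tree with at most 2 ^ (w b) leaves. If all E pairs answer 01 or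
10 and all E singles answer 0, then the clause of the formula for e and these values is falsified:
leaf. Otherwise record one new pair 00 / 11 or one new single 1 and forget the rest: a state with
fewer E. The number of states is at most 3 ^ (pairs) * 2 ^ (singles).
-/

namespace Pool.Agent.H27.GR

open Finset

namespace Up

/-! ## Lists of clauses -/

section lists
variable {V : Type*} [DecidableEq V]

/-- A list of clauses (the last derived one first) each of which contains a clause of `F` or the
resolvent of two later members of the list. -/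
inductive Good (F : Finset (Finset (V × Bool))) : List (Finset (V × Bool)) → Prop
  | nil : Good F []
  | ax {l : List (Finset (V × Bool))} {D C : Finset (V × Bool)} : Good F l → C ∈ F → C ⊆ D →
      Good F (D :: l)
  | res {l : List (Finset (V × Bool))} {D C C' : Finset (V × Bool)} {v : V} : Good F l → C ∈ l →
      C' ∈ l → (v, true) ∈ C → (v, false) ∈ C' → C.erase (v, true) ∪ C'.erase (v, false) ⊆ D →
      Good F (D :: l)

theorem good_step {F : Finset (Finset (V × Bool))} {l : List (Finset (V × Bool))}
    (h : Good F l) : ∀ i : Fin l.length, (∃ C ∈ F, C ⊆ l.get i) ∨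
      ∃ j, i < j ∧ ∃ k, i < k ∧ ∃ v, (v, true) ∈ l.get j ∧ (v, false) ∈ l.get k ∧
      (l.get j).erase (v, true) ∪ (l.get k).erase (v, false) ⊆ l.get i := by
  have key : ∀ (D : Finset (V × Bool)) (l : List (Finset (V × Bool))),
      (∀ i : Fin l.length, (∃ C ∈ F, C ⊆ l.get i) ∨
      ∃ j, i < j ∧ ∃ k, i < k ∧ ∃ v, (v, true) ∈ l.get j ∧ (v, false) ∈ l.get k ∧
      (l.get j).erase (v, true) ∪ (l.get k).erase (v, false) ⊆ l.get i) →
      ((∃ C ∈ F, C ⊆ D) ∨ ∃ j, ∃ k, ∃ v, (v, true) ∈ l.get j ∧ (v, false) ∈ l.get k ∧
      (l.get j).erase (v, true) ∪ (l.get k).erase (v, false) ⊆ D) →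
      ∀ i : Fin (D :: l).length, (∃ C ∈ F, C ⊆ (D :: l).get i) ∨
      ∃ j, i < j ∧ ∃ k, i < k ∧ ∃ v, (v, true) ∈ (D :: l).get j ∧ (v, false) ∈ (D :: l).get k ∧
      ((D :: l).get j).erase (v, true) ∪ ((D :: l).get k).erase (v, false) ⊆ (D :: l).get i := by
    intro D l ih hD i
    refine Fin.cases ?_ (fun i' => ?_) i
    · rcases hD with h | ⟨j, k, v, h1, h2, h3⟩
      · exact Or.inl h
      · exact Or.inr ⟨j.succ, Fin.succ_pos _, k.succ, Fin.succ_pos _, v, h1, h2, h3⟩
    · rcases ih i' with h | ⟨j, hj, k, hk, v, h1, h2, h3⟩
      · exact Or.inl h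
      · exact Or.inr ⟨j.succ, Fin.succ_lt_succ_iff.2 hj, k.succ, Fin.succ_lt_succ_iff.2 hk, v,
          h1, h2, h3⟩
  induction h with
  | nil => intro i; exact absurd i.2 (by simp)
  | @ax l D C hl hC hCD ih => exact key D l ih (Or.inl ⟨C, hC, hCD⟩)
  | @res l D C C' v hl hC hC' h1 h2 h3 ih =>
    obtain ⟨j, rfl⟩ := List.mem_iff_get.1 hC
    obtain ⟨k, rfl⟩ := List.mem_iff_get.1 hC'
    exact key D l ih (Or.inr ⟨j, k, v, h1, h2, h3⟩)

/-- A good list that contains the empty clause is a refutation. -/
theorem good_refutation {F : Finset (Finset (V × Bool))} {l : List (Finset (V × Bool))}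
    (h : Good F l) (h0 : ∅ ∈ l) : ∃ R : Refutation F, R.size = l.length := by
  obtain ⟨i0, hi0⟩ := List.mem_iff_get.1 h0
  refine ⟨⟨l.length, fun i => l.get i.rev, fun i => ?_, i0.rev, ?_⟩, rfl⟩
  · rcases good_step h i.rev with h | ⟨j, hj, k, hk, v, h1, h2, h3⟩
    · exact Or.inl h
    · refine Or.inr ⟨j.rev, ?_, k.rev, ?_, v, ?_, ?_, ?_⟩
      · rw [← Fin.rev_lt_rev, Fin.rev_rev]; exact hj
      · rw [← Fin.rev_lt_rev, Fin.rev_rev]; exact hk
      · rw [Fin.rev_rev]; exact h1
      · rw [Fin.rev_rev]; exact h2
      · rw [Fin.rev_rev, Fin.rev_rev]; exact h3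
  · simp only [Fin.rev_rev]
    exact hi0

/-- The literals of the assignment `z` falsified on `U`. -/
def lit (U : Finset V) (z : V → Bool) : Finset (V × Bool) := U.image fun v => (v, !(z v))

theorem mem_lit {U : Finset V} {z : V → Bool} {l : V × Bool} :
    l ∈ lit U z ↔ l.1 ∈ U ∧ l.2 = !(z l.1) := by
  unfold lit
  rw [mem_image]
  constructor
  · rintro ⟨v, hv, rfl⟩
    exact ⟨hv, rfl⟩
  · rintro ⟨h1, h2⟩
    exact ⟨l.1, h1, Prod.ext rfl h2.symm⟩

/-- A decision tree on `U` at the clause `D`. -/
theorem tree {F : Finset (Finset (V × Bool))} (U : Finset V) :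
    ∀ (l : List (Finset (V × Bool))) (D : Finset (V × Bool)), Good F l →
      (∀ z : V → Bool, (∃ C ∈ F, C ⊆ D ∪ lit U z) ∨ ∃ C ∈ l, C ⊆ D ∪ lit U z) →
      ∃ l', Good F l' ∧ l ⊆ l' ∧ l'.length + 1 ≤ l.length + 2 ^ (U.card + 1) ∧ ∃ C ∈ l', C ⊆ D := by
  induction U using Finset.induction_on with
  | empty =>
    intro l D hl h
    have h2 : lit (∅ : Finset V) (fun _ => true) = ∅ := by simp [lit]
    rcases h (fun _ => true) with ⟨C, hC, hCD⟩ | ⟨C, hC, hCD⟩
    · rw [h2, union_empty] at hCD
      refine ⟨D :: l, Good.ax hl hC hCD, List.subset_cons_self _ _, ?_, D, List.mem_cons_self, subset_rfl⟩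
      simp
    · rw [h2, union_empty] at hCD
      exact ⟨l, hl, List.Subset.refl _, by simp, C, hC, hCD⟩
  | @insert v U hv ih =>
    intro l D hl h
    have hb : ∀ (b : Bool) (l : List (Finset (V × Bool))) (l0 : List (Finset (V × Bool))),
        l0 ⊆ l →
        (∀ z : V → Bool, (∃ C ∈ F, C ⊆ D ∪ lit (insert v U) z) ∨
          ∃ C ∈ l0, C ⊆ D ∪ lit (insert v U) z) →
        ∀ z : V → Bool, (∃ C ∈ F, C ⊆ insert (v, b) D ∪ lit U z) ∨
          ∃ C ∈ l, C ⊆ insert (v, b) D ∪ lit U z := by
      intro b l l0 hl0 h z
      have hz : D ∪ lit (insert v U) (Function.update z v (!b)) ⊆ insert (v, b) D ∪ lit U z := by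
        intro x hx
        rw [mem_union, mem_lit] at hx
        rw [mem_union, mem_insert, mem_lit]
        rcases hx with hx | ⟨hx, hx2⟩
        · exact Or.inl (Or.inr hx)
        · by_cases hxv : x.1 = v
          · left; left
            rw [hxv, Function.update_self, Bool.not_not] at hx2
            exact Prod.ext hxv hx2
          · right
            rw [Function.update_of_ne hxv] at hx2
            exact ⟨(mem_insert.1 hx).resolve_left hxv, hx2⟩
      rcases h (Function.update z v (!b)) with ⟨C, hC, hCD⟩ | ⟨C, hC, hCD⟩
      · exact Or.inl ⟨C, hC, hCD.trans hz⟩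
      · exact Or.inr ⟨C, hl0 hC, hCD.trans hz⟩
    obtain ⟨l1, hl1, hll1, hc1, C1, hC1, hCD1⟩ := ih l (insert (v, true) D) hl
      (hb true l l (List.Subset.refl _) h)
    obtain ⟨l2, hl2, hll2, hc2, C2, hC2, hCD2⟩ := ih l1 (insert (v, false) D) hl1
      (hb false l1 l hll1 h)
    have hcard : (insert v U).card = U.card + 1 := card_insert_of_notMem hv
    have hpow : 2 ^ ((insert v U).card + 1) = 2 ^ (U.card + 1) + 2 ^ (U.card + 1) := by
      rw [hcard, pow_succ 2 (U.card + 1)]; ring
    by_cases h1 : (v, true) ∈ C1
    · by_cases h2 : (v, false) ∈ C2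
      · refine ⟨D :: l2, Good.res hl2 (hll2 hC1) hC2 h1 h2 ?_,
          List.Subset.trans (List.Subset.trans hll1 hll2) (List.subset_cons_self _ _), ?_, D, List.mem_cons_self,
          subset_rfl⟩
        · intro x hx
          rw [mem_union, mem_erase, mem_erase] at hx
          rcases hx with ⟨hx1, hx2⟩ | ⟨hx1, hx2⟩
          · exact (mem_insert.1 (hCD1 hx2)).resolve_left hx1
          · exact (mem_insert.1 (hCD2 hx2)).resolve_left hx1
        · rw [hpow, List.length_cons]; omega
      · refine ⟨l2, hl2, List.Subset.trans hll1 hll2, by rw [hpow]; omega, C2, hC2, fun x hx => ?_⟩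
        exact (mem_insert.1 (hCD2 hx)).resolve_left fun h => h2 (h ▸ hx)
    · refine ⟨l2, hl2, List.Subset.trans hll1 hll2, by rw [hpow]; omega, C1, hll2 hC1, fun x hx => ?_⟩
      exact (mem_insert.1 (hCD1 hx)).resolve_left fun h => h1 (h ▸ hx)

/-- A branching program gives a refutation. -/
theorem exists_refutation {F : Finset (Finset (V × Bool))} {L : Type*} [Fintype L]
    (cl : L → Finset (V × Bool)) (rank : L → ℕ) (U : L → Finset V) (a : ℕ)
    (hU : ∀ x, (U x).card ≤ a)
    (h : ∀ x (z : V → Bool), (∃ C ∈ F, C ⊆ cl x ∪ lit (U x) z) ∨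
      ∃ y, rank y < rank x ∧ cl y ⊆ cl x ∪ lit (U x) z)
    (x0 : L) (h0 : cl x0 = ∅) :
    ∃ R : Refutation F, R.size ≤ Fintype.card L * 2 ^ (a + 1) := by
  classical
  have key : ∀ r : ℕ, ∀ T : Finset L, (∀ x ∈ T, rank x ≤ r) →
      (∀ x ∈ T, ∀ y, rank y < rank x → y ∈ T) →
      ∃ l, Good F l ∧ l.length ≤ T.card * 2 ^ (a + 1) ∧ ∀ x ∈ T, ∃ C ∈ l, C ⊆ cl x := by
    intro r T
    induction T using Finset.strongInduction with
    | H T ih =>
    intro hr hT
    rcases T.eq_empty_or_nonempty with rfl | hne
    · exact ⟨[], Good.nil, by simp, by simp⟩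
    · obtain ⟨x, hx, hmax⟩ := exists_max_image T rank hne
      obtain ⟨l, hl, hlen, hcl⟩ := ih (T.erase x) (erase_ssubset hx)
        (fun y hy => hr y (mem_of_mem_erase hy))
        (fun y hy y' hy' => mem_erase.2 ⟨by
          rintro rfl
          exact absurd (hmax y (mem_of_mem_erase hy)) (not_le.2 hy'),
          hT y (mem_of_mem_erase hy) y' hy'⟩)
      obtain ⟨l', hl', hll', hlen', C, hC, hCD⟩ := tree (F := F) (U x) l (cl x) hl (by
        intro z
        rcases h x z with h | ⟨y, hy, hyc⟩
        · exact Or.inl h
        · obtain ⟨C, hC, hCy⟩ := hcl y (mem_erase.2 ⟨by rintro rfl; exact absurd hy (lt_irrefl _),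
            hT x hx y hy⟩)
          exact Or.inr ⟨C, hC, hCy.trans hyc⟩)
      refine ⟨l', hl', ?_, ?_⟩
      · have h1 : (2 : ℕ) ^ ((U x).card + 1) ≤ 2 ^ (a + 1) :=
          Nat.pow_le_pow_right (by norm_num) (Nat.succ_le_succ (hU x))
        have h2 : T.card = (T.erase x).card + 1 := (card_erase_add_one hx).symm
        rw [h2, Nat.add_mul, Nat.one_mul]
        omega
      · intro y hy
        by_cases hyx : y = x
        · subst hyx; exact ⟨C, hC, hCD⟩
        · obtain ⟨C', hC', h'⟩ := hcl y (mem_erase.2 ⟨hyx, hy⟩)
          exact ⟨C', hll' hC', h'⟩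
  obtain ⟨l, hl, hlen, hcl⟩ := key (univ.sup rank) univ (fun x hx => le_sup hx)
    (fun x _ y _ => mem_univ y)
  obtain ⟨C, hC, hC0⟩ := hcl x0 (mem_univ _)
  rw [h0, subset_empty] at hC0
  subst hC0
  obtain ⟨R, hR⟩ := good_refutation hl hC
  exact ⟨R, by rw [hR]; exact hlen⟩

end lists

/-! ## Pairing up -/

/-- The elements of a finite set can be paired up. -/
theorem exists_pairing {V : Type*} [DecidableEq V] (s : Finset V) : ∃ μ : V → V,
    (∀ v, μ (μ v) = v) ∧ (∀ v ∈ s, μ v ∈ s) ∧
    ∀ v ∈ s, ∀ v' ∈ s, μ v = v → μ v' = v' → v = v' := by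
  induction s using Finset.strongInduction with
  | H s ih =>
  by_cases h : ∃ a ∈ s, ∃ b ∈ s, a ≠ b
  · obtain ⟨a, ha, b, hb, hab⟩ := h
    obtain ⟨μ, h1, h2, h3⟩ := ih ((s.erase a).erase b)
      (lt_of_le_of_lt (erase_subset _ _) (erase_ssubset ha))
    have hmem : ∀ v, v ∈ (s.erase a).erase b ↔ v ≠ b ∧ v ≠ a ∧ v ∈ s := by
      intro v; rw [mem_erase, mem_erase]
    refine ⟨fun v => if v ∈ (s.erase a).erase b then μ v else
      if v = a then b else if v = b then a else v, ?_, ?_, ?_⟩
    · intro v
      by_cases hv : v ∈ (s.erase a).erase b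
      · simp only [hv, if_true, h2 v hv, h1]
      · by_cases hva : v = a
        · subst hva
          simp [hmem, hab.symm]
        · by_cases hvb : v = b
          · subst hvb
            simp [hmem, hva]
          · simp [hv, hva, hvb]
    · intro v hv
      by_cases hv' : v ∈ (s.erase a).erase b
      · simp only [hv', if_true]
        exact ((hmem _).1 (h2 v hv')).2.2
      · simp only [hv', if_false]
        split_ifs
        · exact hb
        · exact ha
        · exact hv
    · intro v hv v' hv' hμ hμ'
      by_cases hm : v ∈ (s.erase a).erase b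
      · by_cases hm' : v' ∈ (s.erase a).erase b
        · simp only [hm, hm', if_true] at hμ hμ'
          exact h3 v hm v' hm' hμ hμ'
        · exfalso
          simp only [hm', if_false] at hμ'
          rw [hmem] at hm'
          split_ifs at hμ' with h4 h5
          · exact hab (h4 ▸ hμ'.symm)
          · exact hab (h5 ▸ hμ')
          · exact hm' ⟨h5, h4, hv'⟩
      · exfalso
        simp only [hm, if_false] at hμ
        rw [hmem] at hm
        split_ifs at hμ with h4 h5
        · exact hab (h4 ▸ hμ.symm)
        · exact hab (h5 ▸ hμ)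
        · exact hm ⟨h5, h4, hv⟩
  · push Not at h
    exact ⟨id, fun v => rfl, fun v hv => hv, fun v hv v' hv' _ _ => h v hv v' hv'⟩

/-- The pairing of all blocks. -/
theorem exists_pairing_blocks {V : Type*} [Fintype V] [DecidableEq V] {M : ℕ} (β : V → Fin M) :
    ∃ μ : V → V, (∀ v, μ (μ v) = v) ∧ (∀ v, β (μ v) = β v) ∧
      ∀ v v', β v = β v' → μ v = v → μ v' = v' → v = v' := by
  choose μ h1 h2 h3 using fun j : Fin M => exists_pairing (univ.filter fun v => β v = j)
  have hβ : ∀ v, β (μ (β v) v) = β v := fun v =>
    (mem_filter.1 (h2 (β v) v (mem_filter.2 ⟨mem_univ _, rfl⟩))).2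
  refine ⟨fun v => μ (β v) v, fun v => ?_, hβ, fun v v' h hv hv' => ?_⟩
  · simp only [hβ, h1]
  · have hv2 : μ (β v) v' = v' := by rw [h]; exact hv'
    exact h3 (β v) v (mem_filter.2 ⟨mem_univ _, rfl⟩) v' (mem_filter.2 ⟨mem_univ _, h.symm⟩) hv hv2

end Up

open Up in
theorem upper {V : Type*} [Fintype V] [DecidableEq V] {M m p w b : ℕ} (β : V → Fin M)
    (E : Fin m → Fin M → ZMod p) (c : Fin m → ZMod p)
    (hw : ∀ e, (univ.filter fun j => E e j ≠ 0).card ≤ w)
    (hb : ∀ j, (univ.filter fun v => β v = j).card ≤ b)
    (hc : ¬ ∃ x : Fin M → ZMod p, ∀ e, ∑ j, E e j * x j = c e) :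
    ∃ R : Refutation (formula β E c),
      R.size ≤ 3 ^ (Fintype.card V / 2) * 2 ^ (M + w * b + 1) := by
  classical
  obtain ⟨μ, hμ1, hμ2, hμ3⟩ := exists_pairing_blocks β
  -- the first elements of the pairs
  set eV := Fintype.equivFin V with heV
  set lo : Finset V := univ.filter fun v => eV v < eV (μ v) with hlo
  have hlo_iff : ∀ v, μ v ≠ v → (v ∈ lo ↔ μ v ∉ lo) := by
    intro v hv
    have hne : eV v ≠ eV (μ v) := fun h => hv (eV.injective h).symm
    simp only [hlo, mem_filter, mem_univ, true_and, hμ1]
    constructor
    · intro h; exact not_lt.2 h.le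
    · intro h; exact lt_of_le_of_ne (not_lt.1 h) hne
  have hlo_single : ∀ v, μ v = v → v ∉ lo := by
    intro v hv
    simp only [hlo, mem_filter, mem_univ, true_and, hv, lt_self_iff_false, not_false_iff]
  have hlo_card : lo.card ≤ Fintype.card V / 2 := by
    rw [Nat.le_div_iff_mul_le (by norm_num)]
    have hinj : Function.Injective μ := fun a b h => by rw [← hμ1 a, ← hμ1 b, h]
    have hd : Disjoint lo (lo.image μ) := by
      rw [disjoint_left]
      intro v hv hv'
      obtain ⟨u, hu, rfl⟩ := mem_image.1 hv'
      by_cases h : μ u = u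
      · exact hlo_single u h hu
      · exact (hlo_iff u h).1 hu hv
    calc lo.card * 2 = lo.card + (lo.image μ).card := by
          rw [card_image_of_injective _ hinj]; ring
      _ = (lo ∪ lo.image μ).card := (card_union_of_disjoint hd).symm
      _ ≤ Fintype.card V := card_le_univ _
  -- the states
  let L := {ρ : V → Option Bool // (∀ v, μ v ≠ v → ρ (μ v) = ρ v) ∧
    ∀ v, μ v = v → ρ v ≠ some false}
  have hL : Fintype.card L ≤ 3 ^ (Fintype.card V / 2) * 2 ^ M := by
    let f : L → (lo → Option Bool) × (Fin M → Bool) := fun ρ =>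
      (fun v => ρ.1 v.1, fun j => decide (∃ v, β v = j ∧ μ v = v ∧ ρ.1 v = some true))
    have hf : Function.Injective f := by
      intro ρ ρ' h
      have h1 : ∀ v ∈ lo, ρ.1 v = ρ'.1 v := fun v hv => congrFun (congrArg Prod.fst h) ⟨v, hv⟩
      have h2 : ∀ j, (∃ v, β v = j ∧ μ v = v ∧ ρ.1 v = some true) ↔
          (∃ v, β v = j ∧ μ v = v ∧ ρ'.1 v = some true) := by
        intro j
        have := congrFun (congrArg Prod.snd h) j
        simpa only [f, decide_eq_decide] using this
      apply Subtype.ext
      funext v
      by_cases hv : μ v = v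
      · have e1 : ρ.1 v = some true ↔ ρ'.1 v = some true := by
          constructor
          · intro hr
            obtain ⟨v', hv1, hv2, hv3⟩ := (h2 (β v)).1 ⟨v, rfl, hv, hr⟩
            rwa [hμ3 v v' hv1.symm hv hv2]
          · intro hr
            obtain ⟨v', hv1, hv2, hv3⟩ := (h2 (β v)).2 ⟨v, rfl, hv, hr⟩
            rwa [hμ3 v v' hv1.symm hv hv2]
        have e2 := ρ.2.2 v hv
        have e3 := ρ'.2.2 v hv
        rcases hr : ρ.1 v with _ | _ | _
        · rcases hr' : ρ'.1 v with _ | _ | _
          · rfl
          · exact absurd hr' e3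
          · rw [hr, hr'] at e1; simp at e1
        · exact absurd hr e2
        · exact (e1.1 hr).symm
      · by_cases hvl : v ∈ lo
        · exact h1 v hvl
        · have hl : μ v ∈ lo := by
            by_contra hn
            exact hvl ((hlo_iff v hv).2 hn)
          rw [← ρ.2.1 v hv, ← ρ'.2.1 v hv]
          exact h1 _ hl
    refine (Fintype.card_le_of_injective f hf).trans ?_
    rw [Fintype.card_prod, Fintype.card_fun, Fintype.card_fun, Fintype.card_option,
      Fintype.card_bool, Fintype.card_fin, Fintype.card_coe]
    exact Nat.mul_le_mul_right _ (Nat.pow_le_pow_right (by norm_num) hlo_card)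
  -- the supposed assignment
  let y : L → V → Bool := fun ρ v => (ρ.1 v).getD (decide (v ∈ lo))
  have hy : ∀ ρ : L, ∃ e, ¬ EqSat β E c (y ρ) e := by
    intro ρ
    by_contra hcon
    push Not at hcon
    exact hc ⟨fun j => bsum β p (y ρ) j, hcon⟩
  choose e he using hy
  let U : L → Finset V := fun ρ => (evars β E (e ρ)).filter fun v => ρ.1 v = none
  let cl : L → Finset (V × Bool) := fun ρ => univ.filter fun l => ρ.1 l.1 = some (!l.2)
  let rank : L → ℕ := fun ρ => (univ.filter fun v => ρ.1 v = none).card
  obtain ⟨R, hR⟩ := exists_refutation (F := formula β E c) cl rank U (w * b)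
    (fun ρ => (card_filter_le _ _).trans (evars_card β E hw hb _)) (by
      intro ρ z
      by_cases hz : ∀ v ∈ evars β E (e ρ), ρ.1 v = none →
          (μ v ≠ v → z v ≠ z (μ v)) ∧ (μ v = v → z v = false)
      · -- the clause of the formula
        left
        let z' : V → Bool := fun v => (ρ.1 v).getD (z v)
        have hsum : ∀ j, E (e ρ) j ≠ 0 → bsum β p z' j = bsum β p (y ρ) j := by
          intro j hj
          have hcast : ∀ x : V → Bool, bsum β p x j =
              ((∑ v ∈ univ.filter (fun v => β v = j), if x v then 1 else 0 : ℕ) : ZMod p) := by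
            intro x
            unfold bsum
            push_cast
            rfl
          rw [hcast, hcast]
          congr 1
          have hdouble : ∀ x : V → Bool, 2 * (∑ v ∈ univ.filter (fun v => β v = j),
              if x v then 1 else 0 : ℕ) = ∑ v ∈ univ.filter (fun v => β v = j),
              ((if x v then 1 else 0) + (if x (μ v) then 1 else 0)) := by
            intro x
            rw [sum_add_distrib, two_mul]
            congr 1
            refine sum_nbij' μ μ ?_ ?_ ?_ ?_ ?_
            · intro v hv
              rw [mem_filter] at hv ⊢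
              exact ⟨mem_univ _, (hμ2 v).trans hv.2⟩
            · intro v hv
              rw [mem_filter] at hv ⊢
              exact ⟨mem_univ _, (hμ2 v).trans hv.2⟩
            · intro v _; exact hμ1 v
            · intro v _; exact hμ1 v
            · intro v _; rw [hμ1]
          have heq : 2 * (∑ v ∈ univ.filter (fun v => β v = j), if z' v then 1 else 0 : ℕ) =
              2 * (∑ v ∈ univ.filter (fun v => β v = j), if (y ρ) v then 1 else 0 : ℕ) := by
            rw [hdouble, hdouble]
            refine sum_congr rfl fun v hv => ?_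
            have hvj : β v = j := (mem_filter.1 hv).2
            have hve : v ∈ evars β E (e ρ) := by
              unfold evars
              rw [mem_filter, hvj]
              exact ⟨mem_univ _, hj⟩
            rcases hr : ρ.1 v with _ | bb
            · obtain ⟨hz1, hz2⟩ := hz v hve hr
              by_cases hv : μ v = v
              · have := hlo_single v hv
                simp [z', y, hr, hv, hz2 hv, this]
              · have h1 := hz1 hv
                have h2 := ρ.2.1 v hv
                rw [hr] at h2
                have h3 := hlo_iff v hv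
                simp only [z', y, hr, h2, Option.getD_none]
                by_cases h4 : v ∈ lo
                · have h5 := h3.1 h4
                  rcases hzv : z v with _ | _ <;> rcases hzv' : z (μ v) with _ | _ <;>
                    simp_all
                · have h5 : μ v ∈ lo := by
                    by_contra h5; exact h4 (h3.2 h5)
                  rcases hzv : z v with _ | _ <;> rcases hzv' : z (μ v) with _ | _ <;>
                    simp_all
            · by_cases hv : μ v = v
              · simp [z', y, hr, hv]
              · have h2 := ρ.2.1 v hv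
                rw [hr] at h2
                simp [z', y, hr, h2]
          omega
        have hz' : ¬ EqSat β E c z' (e ρ) := by
          intro h
          apply he ρ
          unfold EqSat at h ⊢
          rw [← h]
          refine sum_congr rfl fun j _ => ?_
          by_cases hj : E (e ρ) j = 0
          · rw [hj, zero_mul, zero_mul]
          · rw [hsum j hj]
        refine ⟨(evars β E (e ρ)).image fun v => (v, !(z' v)), ?_, ?_⟩
        · rw [mem_formula']
          refine ⟨e ρ, z', hz', fun l => ?_⟩
          exact mem_lit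
        · intro l hl
          obtain ⟨v, hv, rfl⟩ := mem_image.1 hl
          rw [mem_union]
          rcases hr : ρ.1 v with _ | bb
          · right
            rw [mem_lit]
            refine ⟨mem_filter.2 ⟨hv, hr⟩, ?_⟩
            simp [z', hr]
          · left
            simp [cl, z', hr]
      · -- a new pair
        right
        push Not at hz
        obtain ⟨v, hve, hvn, hv⟩ := hz
        have hμn : ρ.1 (μ v) = none := by
          by_cases h : μ v = v
          · rw [h]; exact hvn
          · rw [ρ.2.1 v h]; exact hvn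
        have hzz : z (μ v) = z v := by
          by_cases h : μ v = v
          · rw [h]
          · by_contra hne
            have := hv (fun _ h' => hne h'.symm)
            exact h this.1
        have hz1 : μ v = v → z v = true := by
          intro h
          have := (hv (fun h' => absurd h h')).2
          simpa using this
        let ρ' : V → Option Bool := fun u => if u = v ∨ u = μ v then some (z v) else ρ.1 u
        have hρ' : (∀ u, μ u ≠ u → ρ' (μ u) = ρ' u) ∧ ∀ u, μ u = u → ρ' u ≠ some false := by
          constructor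
          · intro u hu
            by_cases h1 : u = v
            · subst h1
              simp [ρ']
            · by_cases h2 : u = μ v
              · subst h2
                simp [ρ', hμ1]
              · have h3 : μ u ≠ v := fun h => h2 (by rw [← h, hμ1])
                have h4 : μ u ≠ μ v := fun h => h1 (by rw [← hμ1 u, h, hμ1])
                simp only [ρ', h1, h2, h3, h4, or_self, if_false]
                exact ρ.2.1 u hu
          · intro u hu
            by_cases h1 : u = v
            · subst h1
              simp [ρ', hz1 hu]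
            · by_cases h2 : u = μ v
              · subst h2
                exfalso
                rw [hμ1] at hu
                exact h1 hu.symm
              · simp only [ρ', h1, h2, or_self, if_false]
                exact ρ.2.2 u hu
        refine ⟨⟨ρ', hρ'⟩, ?_, ?_⟩
        · apply card_lt_card
          rw [ssubset_iff_of_subset]
          · exact ⟨v, mem_filter.2 ⟨mem_univ _, hvn⟩, by simp [ρ']⟩
          · intro u hu
            rw [mem_filter] at hu ⊢
            refine ⟨mem_univ _, ?_⟩
            have hu2 := hu.2
            simp only [ρ'] at hu2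
            split_ifs at hu2 with h
            exact hu2
        · intro l hl
          have hl2 : ρ' l.1 = some (!l.2) := (mem_filter.1 hl).2
          rw [mem_union]
          by_cases h : l.1 = v ∨ l.1 = μ v
          · right
            simp only [ρ', h, if_true, Option.some.injEq] at hl2
            rw [mem_lit, mem_filter]
            rcases h with h | h
            · rw [h]
              exact ⟨⟨hve, hvn⟩, by rw [hl2, Bool.not_not]⟩
            · rw [h]
              refine ⟨⟨?_, hμn⟩, by rw [hzz, hl2, Bool.not_not]⟩
              unfold evars at hve ⊢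
              rw [mem_filter] at hve ⊢
              rw [hμ2]
              exact ⟨mem_univ _, hve.2⟩
          · left
            simp only [ρ', h, if_false] at hl2
            exact mem_filter.2 ⟨mem_univ _, hl2⟩)
    ⟨fun _ => none, by simp, by simp⟩ (by ext l; simp [cl])
  refine ⟨R, hR.trans ?_⟩
  calc Fintype.card L * 2 ^ (w * b + 1) ≤ 3 ^ (Fintype.card V / 2) * 2 ^ M * 2 ^ (w * b + 1) :=
        Nat.mul_le_mul_right _ hL
    _ = 3 ^ (Fintype.card V / 2) * 2 ^ (M + w * b + 1) := by
        rw [mul_assoc, ← pow_add, add_assoc]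

end Pool.Agent.H27.GR
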